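import Pool.Agent.W47.Base

/-!
W47: D2, the right leg is moved to foot 1.
-/

set_option autoImplicit false

namespace HexObs

open Complex Finset ENNReal

namespace D2aux

lemma vx_cons (v d : Pt) (b : Bool) (t : List Bool) (i : ℕ) :
    vx v d (b :: t) (i + 1) = vx (v + d) (turn b d) t i := by
  unfold vx
  rw [add_comm i 1, vs_shift]
  have h1 : vs v d (tf (b :: t)) 1 = v + d := rfl
  have h2 : ds d (tf (b :: t)) 1 = turn b d := rfl
  rw [h1, h2]
  apply vs_congr
  intro k _
  rw [add_comm 1 k]
  rfl

lemma dx_cons (d : Pt) (b : Bool) (t : List Bool) (i : ℕ) :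
    dx d (b :: t) (i + 1) = dx (turn b d) t i := by
  unfold dx
  rw [add_comm i 1, ds_shift]
  have h2 : ds d (tf (b :: t)) 1 = turn b d := rfl
  rw [h2]
  apply ds_congr
  intro k _
  rw [add_comm 1 k]
  rfl

lemma tip_cons (v d : Pt) (b : Bool) (t : List Bool) :
    tip v d (b :: t) = tip (v + d) (turn b d) t := by
  unfold tip
  rw [List.length_cons, vx_cons]

lemma dx_len_cons (d : Pt) (b : Bool) (t : List Bool) :
    dx d (b :: t) (b :: t).length = dx (turn b d) t t.length := by
  rw [List.length_cons, dx_cons]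

lemma vx_zero (v d : Pt) (t : List Bool) : vx v d t 0 = v := rfl

lemma saw_tail {Ω : Set Pt} {v d : Pt} {b : Bool} {t : List Bool} (h : Saw Ω v d (b :: t)) :
    v + d ∈ Ω ∧ (∀ k, k ≤ t.length → vx (v + d) (turn b d) t k ≠ v) ∧
      Saw Ω (v + d) (turn b d) t := by
  refine ⟨?_, fun k hk => ?_, ⟨fun i h1 h2 => ?_, fun i k h1 h2 => ?_⟩⟩
  · have := h.mem 1 le_rfl (by simp)
    exact this
  · have := h.inj 0 (k + 1) (by omega) (by rw [List.length_cons]; omega)
    rw [vx_cons] at this
    exact this.symm
  · have := h.mem (i + 1) (by omega) (by rw [List.length_cons]; omega)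
    rw [vx_cons] at this
    exact this
  · have := h.inj (i + 1) (k + 1) (by omega) (by rw [List.length_cons]; omega)
    rw [vx_cons, vx_cons] at this
    exact this

lemma saw_cons {Ω : Set Pt} {v d : Pt} {b : Bool} {t : List Bool} (h0 : v + d ∈ Ω)
    (h1 : ∀ k, k ≤ t.length → vx (v + d) (turn b d) t k ≠ v)
    (h2 : Saw Ω (v + d) (turn b d) t) : Saw Ω v d (b :: t) := by
  refine ⟨fun i hi hl => ?_, fun i k hi hl => ?_⟩
  · rw [List.length_cons] at hl
    obtain ⟨j, rfl⟩ : ∃ j, i = j + 1 := ⟨i - 1, by omega⟩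
    rw [vx_cons]
    rcases Nat.eq_zero_or_pos j with rfl | hj
    · exact h0
    · exact h2.mem j hj (by omega)
  · rw [List.length_cons] at hl
    obtain ⟨j, rfl⟩ : ∃ j, k = j + 1 := ⟨k - 1, by omega⟩
    rw [vx_cons]
    rcases Nat.eq_zero_or_pos i with rfl | hi0
    · exact (h1 j (by omega)).symm
    · obtain ⟨l, rfl⟩ : ∃ l, i = l + 1 := ⟨i - 1, by omega⟩
      rw [vx_cons]
      exact h2.inj l j (by omega) (by omega)

lemma mem_St {T : ℕ} (hT : 1 ≤ T) : ((0, 1) : Pt) ∈ St T ∧ ((1, 1) : Pt) ∈ St T ∧
    ((2, 0) : Pt) ∈ St T := by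
  have hT' : (1 : ℤ) ≤ T := by exact_mod_cast hT
  refine ⟨⟨Or.inr (by decide), by decide, ?_⟩, ⟨Or.inl (by decide), by decide, ?_⟩,
    ⟨Or.inr (by decide), by decide, ?_⟩⟩
  · have h : ip ((0, 1) - oo) up = 2 := by decide
    rw [h]
    omega
  · have h : ip ((1, 1) - oo) up = 3 := by decide
    rw [h]
    omega
  · have h : ip ((2, 0) - oo) up = 2 := by decide
    rw [h]
    omega

lemma notMem_St {T : ℕ} : (oo : Pt) ∉ St T ∧ ((2, -1) : Pt) ∉ St T := by
  constructor
  · rintro ⟨_, h, _⟩
    revert h
    decide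
  · rintro ⟨_, h, _⟩
    revert h
    decide

lemma foot_zero : foot oo up 0 = oo := by decide
lemma foot_one : foot oo up 1 = (2, -1) := by decide

lemma dirs_cl : ∀ a ∈ dirs, cl a = cl up → a = (0, 1) ∨ a = (-1, 0) ∨ a = (1, -1) := by decide

lemma saw_of_br {Ω : Set Pt} {v d : Pt} {t : List Bool} (h : t ∈ Br Ω ∅ v d) :
    Saw Ω v d t ∧ tip v d t ∉ Ω ∧ dx d t t.length = d := by
  obtain ⟨h1, h2, h3⟩ := h
  rw [Set.sdiff_empty] at h1
  exact ⟨h1, h2, h3⟩

lemma br_of_saw {Ω : Set Pt} {v d : Pt} {t : List Bool} (h1 : Saw Ω v d t) (h2 : tip v d t ∉ Ω)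
    (h3 : dx d t t.length = d) : t ∈ Br Ω ∅ v d := by
  refine ⟨?_, h2, h3⟩
  rw [Set.sdiff_empty]
  exact h1

/-- the vertex above foot 1 is visited only next to its neighbour on the left -/
lemma visit {T : ℕ} (hT : 1 ≤ T) {t : List Bool} (h : Saw (St T) oo up t)
    (htip : tip oo up t ∉ St T) (hdx : dx up t t.length = up) {i : ℕ} (hi : 1 ≤ i)
    (hl : i ≤ t.length) (he : vx oo up t i = (2, 0)) :
    (vx oo up t (i - 1) = (1, 1) ∧ 2 ≤ i) ∨ (vx oo up t (i + 1) = (1, 1) ∧ i + 1 ≤ t.length) := by
  obtain ⟨j, rfl⟩ : ∃ j, i = j + 1 := ⟨i - 1, by omega⟩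
  have hodd : Even j := by
    by_contra hj
    have h1 : Even (j + 1) := by
      rw [Nat.even_add_one]
      exact hj
    have h2 := cl_vs (v0 := oo) (d0 := up) (τ := tf t) (j + 1)
    rw [if_pos h1] at h2
    have h3 : vs oo up (tf t) (j + 1) = (2, 0) := he
    rw [h3] at h2
    revert h2
    decide
  have ha : dx up t j ∈ dirs := ds_mem (by decide) j
  have hac : cl (dx up t j) = cl up := by
    have h2 := cl_ds (d0 := up) (τ := tf t) j
    rw [if_pos hodd] at h2
    exact h2
  have hs1 : vx oo up t (j + 1) = vx oo up t j + dx up t j := rfl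
  have hs2 : vx oo up t (j + 1 + 1) = vx oo up t (j + 1) + turn (tf t j) (dx up t j) := rfl
  have hs3 : dx up t (j + 1) = turn (tf t j) (dx up t j) := rfl
  rw [he] at hs1 hs2
  have hfoot : ∀ k, k ≤ t.length → vx oo up t k ≠ (2, -1) := by
    intro k hk hk2
    rcases Nat.eq_zero_or_pos k with rfl | hk0
    · rw [vx_zero] at hk2
      revert hk2
      decide
    · have := h.mem k hk0 hk
      rw [hk2] at this
      exact notMem_St.2 this
  rcases dirs_cl _ ha hac with h1 | h1 | h1
  · exfalso
    rw [h1] at hs1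
    refine hfoot j (by omega) ?_
    have h2 : vx oo up t j = (2, 0) - (0, 1) := by rw [hs1]; abel
    rw [h2]
    decide
  · rw [h1] at hs2 hs3
    cases hb : tf t j
    · rw [hb] at hs2
      have h2 : vx oo up t (j + 1 + 1) = (1, 1) := by rw [hs2]; decide
      rcases Nat.lt_or_ge (j + 1) t.length with h3 | h3
      · exact Or.inr ⟨h2, h3⟩
      · exfalso
        apply htip
        unfold tip
        have h4 : t.length = j + 1 := by omega
        rw [h4, h2]
        exact (mem_St hT).2.1
    · rw [hb] at hs2 hs3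
      exfalso
      have h2 : vx oo up t (j + 1 + 1) = (2, -1) := by rw [hs2]; decide
      rcases Nat.lt_or_ge (j + 1) t.length with h3 | h3
      · exact hfoot _ h3 h2
      · have h4 : t.length = j + 1 := by omega
        rw [h4, hs3] at hdx
        revert hdx
        decide
  · left
    rw [h1] at hs1
    have h2 : vx oo up t j = (2, 0) - (1, -1) := by rw [hs1]; abel
    have h3 : vx oo up t j = (1, 1) := by rw [h2]; decide
    refine ⟨by simpa using h3, ?_⟩
    rcases Nat.eq_zero_or_pos j with rfl | hj
    · rw [vx_zero] at h3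
      revert h3
      decide
    · omega

/-- the moved right leg -/
def mv : List Bool → List Bool
  | true :: r => true :: false :: r
  | false :: true :: r => false :: r
  | _ => []

lemma vis_le {v d : Pt} {t : List Bool} {k : ℕ} (h1 : 1 ≤ k) (h2 : k ≤ t.length) :
    vx v d t k ∈ vis v d t := ⟨k, h1, h2, rfl⟩

lemma key {T : ℕ} (hT : 1 ≤ T) {a q : List Bool} (ha : (true :: a) ∈ Br (St T) ∅ oo up)
    (hq : (false :: q) ∈ Br (St T) ∅ oo up)
    (hd : vis oo up (true :: a) ∩ vis oo up (false :: q) ⊆ {oo + up}) :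
    mv q ∈ Br (St T) (vis oo up (true :: a)) (foot oo up 1) up ∧
      ((∃ r, q = true :: r) ∨ ∃ r, q = false :: true :: r) := by
  obtain ⟨ha1, ha2, ha3⟩ := saw_of_br ha
  obtain ⟨hq1, hq2, hq3⟩ := saw_of_br hq
  have hfoot1 : foot oo up 1 + up = (2, 0) := by decide
  have hX : ∀ p ∈ vis oo up (true :: a), p ∈ vis oo up (false :: q) → p = (0, 1) := by
    intro p h1 h2
    have := hd ⟨h1, h2⟩
    rw [Set.mem_singleton_iff] at this
    rw [this]
    decide
  -- the vertex above foot 1 is not on the left leg if w is on the right leg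
  have hleft : ((1, 1) : Pt) ∈ vis oo up (false :: q) → ((2, 0) : Pt) ∉ vis oo up (true :: a) := by
    rintro hw ⟨i, hi, hl, he⟩
    have h1 : ((1, 1) : Pt) ∈ vis oo up (true :: a) := by
      rcases visit hT ha1 ha2 ha3 hi hl he with ⟨h2, h3⟩ | ⟨h2, h3⟩
      · exact ⟨i - 1, by omega, by omega, h2⟩
      · exact ⟨i + 1, by omega, h3, h2⟩
    have := hX _ h1 hw
    revert this
    decide
  match q with
  | [] =>
    exfalso
    apply hq2
    have : tip oo up [false] = (1, 1) := by decide
    rw [this]
    exact (mem_St hT).2.1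
  | true :: r =>
    refine ⟨?_, Or.inl ⟨r, rfl⟩⟩
    obtain ⟨h1, h2, h3⟩ := saw_tail hq1
    obtain ⟨h4, h5, h6⟩ := saw_tail h3
    have e1 : oo + up + turn false up = (1, 1) := by decide
    have e2 : turn true (turn false up) = up := by decide
    have e3 : (2, 0) + turn true up = ((1, 1) : Pt) := by decide
    have e4 : turn false (turn true up) = up := by decide
    have e5 : oo + up = ((0, 1) : Pt) := by decide
    rw [e1, e2] at h5 h6
    rw [e5] at h5
    have hold : ∀ k, vx oo up (false :: true :: r) (k + 2) = vx (1, 1) up r k := by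
      intro k
      rw [show k + 2 = (k + 1) + 1 from rfl, vx_cons, vx_cons, e1, e2]
    have hnew : ∀ k, vx (foot oo up 1) up (true :: false :: r) (k + 2) = vx (1, 1) up r k := by
      intro k
      rw [show k + 2 = (k + 1) + 1 from rfl, vx_cons, vx_cons, hfoot1, e3, e4]
    have hwv : ((1, 1) : Pt) ∈ vis oo up (false :: true :: r) :=
      ⟨2, by omega, by simp, hold 0⟩
    have hv1r : ∀ k, k ≤ r.length → vx (1, 1) up r k ≠ (2, 0) := by
      intro k hk he
      rw [← hold] at he
      have hlen : (false :: true :: r).length = r.length + 2 := rfl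
      have hw2 : vx oo up (false :: true :: r) 2 = (1, 1) := hold 0
      have hinj : ∀ m, m ≤ r.length + 2 → vx oo up (false :: true :: r) m = (1, 1) → m = 2 := by
        intro m hm he2
        rcases lt_trichotomy m 2 with h7 | h7 | h7
        · exact absurd (he2.trans hw2.symm) (hq1.inj m 2 h7 (by omega))
        · exact h7
        · exact absurd (hw2.trans he2.symm) (hq1.inj 2 m h7 (by omega))
      rcases visit hT hq1 hq2 hq3 (by omega) (by omega) he with ⟨h7, h8⟩ | ⟨h7, h8⟩
      · have h9 := hinj _ (by omega) h7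
        have h10 : k = 1 := by omega
        rw [h10, hold 1] at he
        have h11 : vx (1, 1) up r 1 = (1, 1) + up := rfl
        rw [h11] at he
        revert he
        decide
      · have h9 := hinj _ (by omega) h7
        omega
    change (true :: false :: r) ∈ _
    rw [mem_br]
    constructor
    · apply br_of_saw
      · refine saw_cons ?_ ?_ ?_
        · rw [hfoot1]
          exact (mem_St hT).2.2
        · intro k hk
          rw [hfoot1]
          rcases Nat.eq_zero_or_pos k with rfl | hk0
          · rw [vx_zero]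
            decide
          · obtain ⟨j, rfl⟩ : ∃ j, k = j + 1 := ⟨k - 1, by omega⟩
            rw [vx_cons, e3, e4]
            intro he
            rcases Nat.eq_zero_or_pos j with rfl | hj0
            · rw [vx_zero] at he
              revert he
              decide
            · have := h6.mem j hj0 (by simpa using hk)
              rw [he, foot_one] at this
              exact notMem_St.2 this
        · rw [hfoot1]
          refine saw_cons ?_ ?_ ?_
          · rw [e3]
            exact (mem_St hT).2.1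
          · intro k hk
            rw [e3, e4]
            exact hv1r k hk
          · rw [e3, e4]
            exact h6
      · rw [tip_cons, tip_cons, hfoot1, e3, e4]
        rw [tip_cons, tip_cons, e1, e2] at hq2
        exact hq2
      · rw [dx_len_cons, dx_len_cons, e4]
        rw [dx_len_cons, dx_len_cons, e2] at hq3
        exact hq3
    · rw [Set.disjoint_left]
      rintro p hp ⟨i, hi, hl, he⟩
      have hlen : (true :: false :: r).length = r.length + 2 := rfl
      rw [hlen] at hl
      rcases Nat.lt_or_ge i 2 with h7 | h7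
      · have h8 : i = 1 := by omega
        rw [h8, show (1 : ℕ) = 0 + 1 from rfl, vx_cons, vx_zero, hfoot1] at he
        rw [← he] at hp
        exact hleft hwv hp
      · obtain ⟨j, rfl⟩ : ∃ j, i = j + 2 := ⟨i - 2, by omega⟩
        rw [hnew] at he
        have h9 : p ∈ vis oo up (false :: true :: r) :=
          ⟨j + 2, by omega, by simpa using hl, by rw [hold]; exact he⟩
        have h10 := hX p hp h9
        exact h5 j (by omega) (he.trans h10)
  | [false] =>
    exfalso
    apply hq2
    have : tip oo up [false, false] = (2, 0) := by decide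
    rw [this]
    exact (mem_St hT).2.2
  | false :: false :: r =>
    exfalso
    have h1 : vx oo up (false :: false :: false :: r) 4 = (2, -1) := rfl
    match r with
    | [] =>
      revert hq3
      decide
    | b :: r' =>
      have := hq1.mem 4 (by omega) (by simp)
      rw [show vx oo up (false :: false :: false :: b :: r') 4 = (2, -1) from rfl] at this
      exact notMem_St.2 this
  | false :: true :: r =>
    refine ⟨?_, Or.inr ⟨r, rfl⟩⟩
    obtain ⟨h1, h2, h3⟩ := saw_tail hq1
    obtain ⟨h4, h5, h6⟩ := saw_tail h3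
    obtain ⟨h7, h8, h9⟩ := saw_tail h6
    have e1 : oo + up + turn false up + turn false (turn false up) = (2, 0) := by decide
    have e2 : turn true (turn false (turn false up)) = turn false up := by decide
    rw [e1, e2] at h9
    have hold : ∀ k, vx oo up (false :: false :: true :: r) (k + 3) = vx (2, 0) (turn false up) r k := by
      intro k
      rw [show k + 3 = ((k + 1) + 1) + 1 from rfl, vx_cons, vx_cons, vx_cons, e1, e2]
    have hnew : ∀ k, vx (foot oo up 1) up (false :: r) (k + 1) = vx (2, 0) (turn false up) r k := by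
      intro k
      rw [vx_cons, hfoot1]
    have hlen : (false :: false :: true :: r).length = r.length + 3 := rfl
    change (false :: r) ∈ _
    rw [mem_br]
    constructor
    · apply br_of_saw
      · refine saw_cons ?_ ?_ ?_
        · rw [hfoot1]
          exact (mem_St hT).2.2
        · intro k hk
          rw [hfoot1]
          intro he
          rcases Nat.eq_zero_or_pos k with rfl | hk0
          · rw [vx_zero] at he
            revert he
            decide
          · have := h9.mem k hk0 hk
            rw [he, foot_one] at this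
            exact notMem_St.2 this
        · rw [hfoot1]
          exact h9
      · rw [tip_cons, hfoot1]
        rw [tip_cons, tip_cons, tip_cons, e1, e2] at hq2
        exact hq2
      · rw [dx_len_cons]
        rw [dx_len_cons, dx_len_cons, dx_len_cons, e2] at hq3
        exact hq3
    · rw [Set.disjoint_left]
      rintro p hp ⟨i, hi, hl, he⟩
      rw [List.length_cons] at hl
      obtain ⟨j, rfl⟩ : ∃ j, i = j + 1 := ⟨i - 1, by omega⟩
      rw [hnew, ← hold] at he
      have h10 : p ∈ vis oo up (false :: false :: true :: r) := ⟨j + 3, by omega, by omega, he⟩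
      have h11 := hX p hp h10
      refine hq1.inj 1 (j + 3) (by omega) (by omega) ?_
      rw [he, h11]
      change oo + up = (0, 1)
      decide

lemma mv_inj {p q : List Bool} (hp : (∃ r, p = true :: r) ∨ ∃ r, p = false :: true :: r)
    (hq : (∃ r, q = true :: r) ∨ ∃ r, q = false :: true :: r) (h : mv p = mv q) : p = q := by
  rcases hp with ⟨r, rfl⟩ | ⟨r, rfl⟩ <;> rcases hq with ⟨s, rfl⟩ | ⟨s, rfl⟩ <;>
    simp [mv] at h ⊢ <;> exact h

lemma xc_le_one' : xc ≤ 1 := by
  unfold xc
  have h0 := cos_pos
  have h1 : Real.cos (Real.pi / 3) ≤ Real.cos (Real.pi / 8) := by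
    apply Real.cos_le_cos_of_nonneg_of_le_pi
    · linarith [Real.pi_pos]
    · linarith [Real.pi_pos]
    · linarith [Real.pi_pos]
  rw [Real.cos_pi_div_three] at h1
  rw [div_le_one (by linarith)]
  linarith

lemma xc_le_inv : xc ≤ xc⁻¹ :=
  xc_le_one'.trans ((one_le_inv₀ xc_pos).2 xc_le_one')

lemma mv_weight {a q : List Bool} (hq : (∃ r, q = true :: r) ∨ ∃ r, q = false :: true :: r) :
    ENNReal.ofReal xc * wE a * wE q ≤
      ENNReal.ofReal xc⁻¹ * (wE (true :: a) * wE (mv q)) := by
  have hx : 0 < xc := xc_pos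
  have key : xc * xc ^ a.length * xc ^ q.length ≤
      xc⁻¹ * (xc ^ (a.length + 1) * xc ^ (mv q).length) := by
    rcases hq with ⟨r, rfl⟩ | ⟨r, rfl⟩
    · apply le_of_eq
      change xc * xc ^ a.length * xc ^ (r.length + 1) =
        xc⁻¹ * (xc ^ (a.length + 1) * xc ^ (r.length + 1 + 1))
      field_simp
      ring
    · change xc * xc ^ a.length * xc ^ (r.length + 1 + 1) ≤
        xc⁻¹ * (xc ^ (a.length + 1) * xc ^ (r.length + 1))
      have h1 : 0 ≤ xc ^ (a.length + 1) * xc ^ (r.length + 1) := by positivity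
      calc xc * xc ^ a.length * xc ^ (r.length + 1 + 1)
          = xc * (xc ^ (a.length + 1) * xc ^ (r.length + 1)) := by ring
        _ ≤ xc⁻¹ * (xc ^ (a.length + 1) * xc ^ (r.length + 1)) :=
          mul_le_mul_of_nonneg_right xc_le_inv h1
  unfold wE
  rw [← ENNReal.ofReal_mul hx.le, ← ENNReal.ofReal_mul (by positivity),
    ← ENNReal.ofReal_mul (by positivity), ← ENNReal.ofReal_mul (by positivity)]
  exact ENNReal.ofReal_le_ofReal key

lemma pi2_eq (T : ℕ) : Pi2 T 1 = ∑' p : List Bool × List Bool,
    ({p : List Bool × List Bool | p.1 ∈ Br (St T) ∅ oo up ∧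
      p.2 ∈ Br (St T) (vis oo up p.1) (foot oo up 1) up}.indicator
      (fun p => wE p.1 * wE p.2)) p := by
  rw [ENNReal.tsum_prod']
  unfold Pi2 P2 overBr
  rw [foot_zero]
  apply tsum_congr
  intro s
  by_cases hs : s ∈ Br (St T) ∅ oo up
  · rw [Set.indicator_of_mem hs, Set.empty_union]
    unfold gf
    beta_reduce
    rw [tsum_subtype (Br (St T) (vis oo up s) (foot oo up ((1 : ℕ) : ℤ)) up) (fun t => wE t),
      ← ENNReal.tsum_mul_left]
    apply tsum_congr
    intro t
    by_cases ht : t ∈ Br (St T) (vis oo up s) (foot oo up ((1 : ℕ) : ℤ)) up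
    · rw [Set.indicator_of_mem ht]
      have h : (s, t) ∈ {p : List Bool × List Bool | p.1 ∈ Br (St T) ∅ oo up ∧
        p.2 ∈ Br (St T) (vis oo up p.1) (foot oo up 1) up} := ⟨hs, ht⟩
      rw [Set.indicator_of_mem h]
    · rw [Set.indicator_of_notMem ht, mul_zero]
      have h : (s, t) ∉ {p : List Bool × List Bool | p.1 ∈ Br (St T) ∅ oo up ∧
        p.2 ∈ Br (St T) (vis oo up p.1) (foot oo up 1) up} := fun h => ht h.2
      rw [Set.indicator_of_notMem h]
  · rw [Set.indicator_of_notMem hs]
    symm
    rw [ENNReal.tsum_eq_zero]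
    intro t
    have h : (s, t) ∉ {p : List Bool × List Bool | p.1 ∈ Br (St T) ∅ oo up ∧
        p.2 ∈ Br (St T) (vis oo up p.1) (foot oo up 1) up} := fun h => hs h.1
    rw [Set.indicator_of_notMem h]

end D2aux

open D2aux in
/-- D2. moving the right leg to foot 1: false :: true :: r -> true :: false :: r,
false :: false :: true :: r -> false :: r -/
theorem D2 {T : ℕ} (hT : 1 ≤ T) : PV T ≤ ENNReal.ofReal xc⁻¹ * Pi2 T 1 := by
  rw [pi2_eq, ← ENNReal.tsum_mul_left]
  unfold PV
  let F : {p : List Bool × List Bool | (true :: p.1) ∈ Br (St T) ∅ oo up ∧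
    (false :: p.2) ∈ Br (St T) ∅ oo up ∧
    vis oo up (true :: p.1) ∩ vis oo up (false :: p.2) ⊆ {oo + up}} → List Bool × List Bool :=
    fun p => (true :: p.1.1, mv p.1.2)
  have hF : Function.Injective F := by
    intro p p' h
    have h1 := congrArg Prod.fst h
    have h2 := congrArg Prod.snd h
    have h3 : p.1.1 = p'.1.1 := List.cons_injective h1
    have h4 : p.1.2 = p'.1.2 :=
      mv_inj (key hT p.2.1 p.2.2.1 p.2.2.2).2 (key hT p'.2.1 p'.2.2.1 p'.2.2.2).2 h2
    exact Subtype.ext (Prod.ext h3 h4)
  refine le_trans (ENNReal.tsum_le_tsum fun p => ?_) (ENNReal.tsum_comp_le_tsum_of_injective hF _)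
  have hk := key hT p.2.1 p.2.2.1 p.2.2.2
  have h : F p ∈ {p : List Bool × List Bool | p.1 ∈ Br (St T) ∅ oo up ∧
        p.2 ∈ Br (St T) (vis oo up p.1) (foot oo up 1) up} := ⟨p.2.1, hk.1⟩
  rw [Set.indicator_of_mem h]
  exact mv_weight hk.2

end HexObs
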