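import Mathlib
import Pool.Agent.SAWH.WNumeric

/-!
W47: numerical part of the repulsion inequality, the main inequality and the final theorem, from
abstract hypotheses.
-/

set_option autoImplicit false

open Finset

namespace HexObs.W47

lemma two_cos_sq : 2 * Real.cos (Real.pi / 8) ^ 2 = 1 + Real.sqrt 2 / 2 := by
  have h := Real.cos_sq (Real.pi / 8)
  rw [show 2 * (Real.pi / 8) = Real.pi / 4 by ring, Real.cos_pi_div_four] at h
  rw [h]; ring

lemma sin3 : Real.sin (3 * Real.pi / 8) = Real.cos (Real.pi / 8) := by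
  rw [← Real.cos_pi_div_two_sub]
  congr 1
  ring

lemma cos8_pos : 0 < Real.cos (Real.pi / 8) := by
  apply Real.cos_pos_of_mem_Ioo
  constructor <;> linarith [Real.pi_pos]

/-- the constant -/
lemma const_eq : (1 - 1 / Real.sqrt 2) * (Real.sqrt 2 - 1) / (2 * Real.cos (Real.pi / 8) ^ 2) =
    (Real.sqrt 2 - 1) ^ 3 := by
  rw [two_cos_sq]
  have h2 : Real.sqrt 2 ^ 2 = 2 := Real.sq_sqrt (by norm_num)
  have hp : 0 < Real.sqrt 2 := by positivity
  have h3 : (1 : ℝ) + Real.sqrt 2 / 2 ≠ 0 := by positivity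
  rw [div_eq_iff h3]
  have h4 : 1 / Real.sqrt 2 = Real.sqrt 2 / 2 := by
    rw [div_eq_div_iff hp.ne' (by norm_num)]
    nlinarith
  rw [h4]
  have h5 : Real.sqrt 2 ^ 3 = 2 * Real.sqrt 2 := by rw [pow_succ, h2]
  have h6 : Real.sqrt 2 ^ 4 = 4 := by
    have : Real.sqrt 2 ^ 4 = (Real.sqrt 2 ^ 2) ^ 2 := by ring
    rw [this, h2]; norm_num
  ring_nf
  rw [h2, h5, h6]
  ring

/-- (C) from (A), (B) and the triangle -/
theorem repulsion_num {p1 pD u : ℝ} {D : ℕ} (tl sc b : ℕ → ℝ) (hp1 : 0 ≤ p1)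
    (hA : (1 - 1 / Real.sqrt 2) * p1 * ∑ j ∈ range D, tl (j + 1) ≤
      Real.sin (3 * Real.pi / 8) * (pD - p1))
    (hB : (Real.sqrt 2 - 1) * ∑ r ∈ range D, sc (r + 1) ≤ ∑ r ∈ range D, tl (r + 1))
    (hT : ∀ r ∈ range D, b (2 * (r + 1)) ≤ 2 * Real.cos (Real.pi / 8) * sc (r + 1))
    (hD : pD ≤ u ^ 2) :
    p1 * (1 + (Real.sqrt 2 - 1) ^ 3 * ∑ r ∈ range D, b (2 * (r + 1))) ≤ u ^ 2 := by
  have hc := cos8_pos
  have hs2 : 1 < Real.sqrt 2 := by
    rw [Real.lt_sqrt (by norm_num)]; norm_num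
  have h1s : 0 < 1 - 1 / Real.sqrt 2 := by
    have : 1 / Real.sqrt 2 < 1 := by rw [div_lt_one (by linarith)]; exact hs2
    linarith
  rw [sin3] at hA
  set B := ∑ r ∈ range D, b (2 * (r + 1)) with hBdef
  set S := ∑ r ∈ range D, sc (r + 1) with hS
  have h1 : B ≤ 2 * Real.cos (Real.pi / 8) * S := by
    rw [hBdef, hS, mul_sum]
    exact sum_le_sum hT
  have h2 : (1 - 1 / Real.sqrt 2) * p1 * ((Real.sqrt 2 - 1) * S) ≤
      Real.cos (Real.pi / 8) * (pD - p1) :=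
    (mul_le_mul_of_nonneg_left hB (mul_nonneg h1s.le hp1)).trans hA
  have h3 : (1 - 1 / Real.sqrt 2) * (Real.sqrt 2 - 1) * p1 * B ≤
      (1 - 1 / Real.sqrt 2) * (Real.sqrt 2 - 1) * p1 * (2 * Real.cos (Real.pi / 8) * S) := by
    apply mul_le_mul_of_nonneg_left h1
    apply mul_nonneg (mul_nonneg h1s.le (by linarith)) hp1
  have h4 : (1 - 1 / Real.sqrt 2) * (Real.sqrt 2 - 1) * p1 * B ≤
      2 * Real.cos (Real.pi / 8) ^ 2 * (pD - p1) := by
    calc (1 - 1 / Real.sqrt 2) * (Real.sqrt 2 - 1) * p1 * B ≤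
        (1 - 1 / Real.sqrt 2) * (Real.sqrt 2 - 1) * p1 * (2 * Real.cos (Real.pi / 8) * S) := h3
      _ = 2 * Real.cos (Real.pi / 8) * ((1 - 1 / Real.sqrt 2) * p1 * ((Real.sqrt 2 - 1) * S)) := by
          ring
      _ ≤ 2 * Real.cos (Real.pi / 8) * (Real.cos (Real.pi / 8) * (pD - p1)) :=
          mul_le_mul_of_nonneg_left h2 (by positivity)
      _ = _ := by ring
  have h5 : (Real.sqrt 2 - 1) ^ 3 * (p1 * B) ≤ pD - p1 := by
    rw [← const_eq, div_mul_eq_mul_div, div_le_iff₀ (by positivity)]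
    linarith
  linarith

/-- the main inequality in the form needed for the numerical part -/
theorem final_num {b : ℕ → ℝ} (hpos : ∀ T, 1 ≤ T → 0 < b T) (hanti : ∀ T, 1 ≤ T → b (T + 1) ≤ b T)
    (h1 : b 1 ≤ 1)
    (hmain : ∀ T, 1 ≤ T → (b T - b (T + 1)) *
      (1 + (Real.sqrt 2 - 1) ^ 3 * ∑ r ∈ range ((T + 1) / 2), b (2 * (r + 1))) ≤
      Real.sqrt 2 * b (T + 1) ^ 2) :
    (∀ T : ℕ, 1 ≤ T → ∑ t ∈ Icc 1 T, b t ≤
      (2 + 2 * Real.sqrt 2 / (Real.sqrt 2 - 1) ^ 3) * (T * b T)) ∧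
    (∀ T : ℕ, 1 ≤ T → b 1 * ((T : ℝ) + 1) ^ (1 / (2 + 2 * Real.sqrt 2 / (Real.sqrt 2 - 1) ^ 3)) ≤
      2 * ∑ t ∈ Icc 1 T, b t) ∧
    (∀ T : ℕ, 1 ≤ T → b 1 / (1 + 2 * Real.sqrt 2 / (Real.sqrt 2 - 1) ^ 3) *
      ((T : ℝ) + 1) ^ (1 / (2 + 2 * Real.sqrt 2 / (Real.sqrt 2 - 1) ^ 3) - 1) ≤ b T) := by
  set u : ℕ → ℝ := fun T => b (max T 1) with hu
  have hs2 : 1 < Real.sqrt 2 := by
    rw [Real.lt_sqrt (by norm_num)]; norm_num
  have hs3 : Real.sqrt 2 < 2 := by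
    rw [Real.sqrt_lt' (by norm_num)]; norm_num
  have hk : 0 < (Real.sqrt 2 - 1) ^ 3 := by
    have : 0 < Real.sqrt 2 - 1 := by linarith
    positivity
  have hk1 : (Real.sqrt 2 - 1) ^ 3 ≤ 1 := pow_le_one₀ (by linarith) (by linarith)
  have hupos : ∀ n, 0 < u n := fun n => hpos _ (le_max_right _ _)
  have hu1 : ∀ T, 1 ≤ T → u T = b T := fun T hT => by simp only [hu]; rw [max_eq_left hT]
  have huanti : Antitone u := by
    apply antitone_nat_of_succ_le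
    intro n
    rcases Nat.eq_zero_or_pos n with h | h
    · subst h; simp [hu]
    · rw [hu1 _ (by omega), hu1 n h]; exact hanti n h
  have hu0 : u 0 ≤ 1 := by simpa [hu] using h1
  have e : ∀ (g : ℕ → ℝ) (n : ℕ), ∑ r ∈ Icc 1 n, g r = ∑ r ∈ range n, g (r + 1) := by
    intro g n
    induction n with
    | zero => simp
    | succ n ih => rw [Finset.sum_Icc_succ_top (by omega), ih, sum_range_succ]
  have hV : ∀ T, SAWH.V u T = ∑ r ∈ range (T / 2), b (2 * (r + 1)) := by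
    intro T
    rw [SAWH.V, e]
    exact sum_congr rfl fun r _ => hu1 _ (by omega)
  have hU : ∀ T, SAWH.U u T = ∑ t ∈ Icc 1 T, b t + b 1 := by
    intro T
    rw [SAWH.U, sum_range_succ', e]
    have e0 : u 0 = b 1 := by simp [hu]
    rw [e0]
    congr 1
    exact sum_congr rfl fun r _ => hu1 _ (by omega)
  have hVn : ∀ T, 0 ≤ SAWH.V u T := fun T => sum_nonneg fun r _ => (hupos _).le
  have H0 : ∀ T, u T - u (T + 1) ≤
      Real.sqrt 2 * u (T + 1) ^ 2 / (1 + (Real.sqrt 2 - 1) ^ 3 * SAWH.V u (T + 1)) := by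
    intro T
    have hden : 0 < 1 + (Real.sqrt 2 - 1) ^ 3 * SAWH.V u (T + 1) := by
      have := mul_nonneg hk.le (hVn (T + 1))
      linarith
    rw [le_div_iff₀ hden]
    rcases Nat.eq_zero_or_pos T with h | h
    · subst h
      have e0 : u 0 = u 1 := by simp [hu]
      rw [zero_add, e0, sub_self, zero_mul]
      positivity
    · rw [hV, hu1 T h, hu1 (T + 1) (by omega)]
      exact hmain T h
  have H := SAWH.hyp_of_V hupos huanti hu0 (A := Real.sqrt 2) (b := (Real.sqrt 2 - 1) ^ 3)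
    (by positivity) hk hk1 H0
  have hC : 0 ≤ 2 * Real.sqrt 2 / (Real.sqrt 2 - 1) ^ 3 := by positivity
  have hb1 : 0 < b 1 := hpos 1 le_rfl
  refine ⟨?_, ?_, ?_⟩
  · intro T hT
    have h2 := SAWH.no_slow hupos huanti hC H hT
    rw [hU, hu1 T hT] at h2
    linarith
  · intro T hT
    have h2 := SAWH.U_growth hupos huanti hC H T
    have e0 : u 0 = b 1 := by simp [hu]
    rw [hU, e0] at h2
    have h3 : b 1 ≤ ∑ t ∈ Icc 1 T, b t :=
      single_le_sum (f := b) (fun t ht => (hpos t (mem_Icc.1 ht).1).le) (mem_Icc.2 ⟨le_rfl, hT⟩)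
    linarith
  · intro T hT
    have h2 := SAWH.u_lower hupos huanti hC H T
    have e0 : u 0 = b 1 := by simp [hu]
    rw [e0, hu1 T hT] at h2
    exact h2

end HexObs.W47
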