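import Pool.Agent.W47.Base

/-!
W47, part (A): summation of the three-explorer inequality (T3) over the distance.
-/

set_option autoImplicit false

namespace HexObs

open Finset ENNReal

/-- combinatorial rearrangement of the sum over the pairs -/
lemma kernel_swap (K : ℕ → ℕ → ℝ≥0∞) (hsym : ∀ x y, K x y = K y x) (D : ℕ) :
    ∑ x ∈ range D, ∑ y ∈ range x, K x y = ∑ x ∈ range D, ∑ y ∈ Finset.Ico (x + 1) D, K x y := by
  rw [Finset.sum_sigma', Finset.sum_sigma']
  apply Finset.sum_bij' (fun (p : Σ _ : ℕ, ℕ) _ => (⟨p.2, p.1⟩ : Σ _ : ℕ, ℕ))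
    (fun (p : Σ _ : ℕ, ℕ) _ => (⟨p.2, p.1⟩ : Σ _ : ℕ, ℕ))
  · rintro ⟨x, y⟩ h
    simp only [Finset.mem_sigma, Finset.mem_range, Finset.mem_Ico] at h ⊢
    omega
  · rintro ⟨x, y⟩ h
    simp only [Finset.mem_sigma, Finset.mem_range, Finset.mem_Ico] at h ⊢
    omega
  · rintro ⟨x, y⟩ _
    rfl
  · rintro ⟨x, y⟩ _
    rfl
  · rintro ⟨x, y⟩ _
    exact hsym x y

/-- the tail and the head of the arc weights -/
lemma head_add_tail (T d : ℕ) :
    ∑ y ∈ range d, GG T (y + 1) + tail T (d + 1) = ∑' k : ℕ, GG T (k + 1) := by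
  have h := ENNReal.summable.sum_add_tsum_nat_add' (f := fun k => GG T (k + 1)) (k := d)
  rw [← h]
  congr 1
  unfold tail
  apply tsum_congr
  intro k
  congr 1
  omega

lemma sum_Ioo_int (f : ℤ → ℝ≥0∞) (d : ℕ) :
    ∑ j ∈ Finset.Ioo (1 : ℤ) (1 + ((d + 1 : ℕ) : ℤ)), f j = ∑ y ∈ range d, f (2 + (y : ℤ)) := by
  symm
  apply Finset.sum_bij' (fun (y : ℕ) _ => (2 + (y : ℤ))) (fun (j : ℤ) _ => (j - 2).toNat)
  · intro y hy
    rw [Finset.mem_range] at hy
    rw [Finset.mem_Ioo]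
    push_cast
    omega
  · intro j hj
    rw [Finset.mem_Ioo] at hj
    push_cast at hj
    rw [Finset.mem_range]
    omega
  · intro y _
    omega
  · intro j hj
    rw [Finset.mem_Ioo] at hj
    omega
  · intro y _
    rfl

lemma real_sum_tele (f : ℕ → ℝ) (D : ℕ) :
    ∑ d ∈ range D, (f (d + 1 + 1) - f (d + 1)) = f (D + 1) - f 1 := by
  rw [Finset.sum_range_sub (fun d => f (d + 1))]

lemma one_sub_inv_sqrt : 1 - 1 / Real.sqrt 2 = 2 * Real.sin (Real.pi / 8) ^ 2 := by
  have h := Real.cos_sq (Real.pi / 8)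
  rw [show 2 * (Real.pi / 8) = Real.pi / 4 by ring, Real.cos_pi_div_four] at h
  have h2 := Real.sin_sq_add_cos_sq (Real.pi / 8)
  have hp : 0 < Real.sqrt 2 := by positivity
  have hs : Real.sqrt 2 * Real.sqrt 2 = 2 := Real.mul_self_sqrt (by norm_num)
  have h4 : 1 / Real.sqrt 2 = Real.sqrt 2 / 2 := by
    rw [div_eq_div_iff hp.ne' (by norm_num)]
    linarith
  rw [h4]
  linarith

lemma sin8_pos : 0 < Real.sin (Real.pi / 8) := by
  apply Real.sin_pos_of_pos_of_lt_pi <;> linarith [Real.pi_pos]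

lemma cos38 : Real.cos (3 * Real.pi / 8) = Real.sin (Real.pi / 8) := by
  rw [← Real.cos_pi_div_two_sub]
  congr 1
  ring

/-- (A) from the inequality (T3) and the facts K1 - K5. -/
theorem ineqA_of {T : ℕ} (hT : 1 ≤ T)
    (hT3 : ∀ d : ℕ, 1 ≤ d → Real.sin (Real.pi / 8) * ((Pi2 T 1).toReal - (Pi3 T d).toReal) -
        (Ain T d).toReal + (Aout T d).toReal / Real.sqrt 2 ≤
      Real.sin (3 * Real.pi / 8) * ((Pi2 T (d + 1)).toReal - (Pi2 T d).toReal))
    (hAin : ∀ d : ℕ, 1 ≤ d → Ain T d = ∑ j ∈ Finset.Ioo (1 : ℤ) (1 + d), A3 T (1 + d) j)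
    (hAout : ∀ d : ℕ, 1 ≤ d → Aout T d = ∑' k : ℕ, A3 T (1 + d) (1 + d + 1 + k))
    (hsym : ∀ i j : ℤ, A3 T i j = A3 T j i)
    (hle : ∀ (i j : ℤ) (k : ℕ), (k : ℤ) = |j - i| → A3 T i j ≤ Pi2 T 1 * GG T k)
    (harcs : AT T = 2 * ∑' k : ℕ, GG T (k + 1))
    (hPi3 : ∀ d : ℕ, Pi3 T d ≤ Pi2 T 1 * BT T)
    (hPi2 : Pi2 T 1 ≤ BT T * BT T) (D : ℕ) :
    (1 - 1 / Real.sqrt 2) * (Pi2 T 1).toReal * ∑ j ∈ Finset.range D, (tail T (j + 1)).toReal ≤
      Real.sin (3 * Real.pi / 8) * ((Pi2 T (D + 1)).toReal - (Pi2 T 1).toReal) := by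
  -- finiteness
  have hid := BT_add_AT hT
  rw [cos38] at hid
  have hs := sin8_pos
  have hBT1 : BT T ≤ 1 := by
    rw [← hid]
    exact le_self_add
  have hBTtop : BT T ≠ ∞ := ne_top_of_le_ne_top one_ne_top hBT1
  have hPtop : Pi2 T 1 ≠ ∞ := ne_top_of_le_ne_top (ENNReal.mul_ne_top hBTtop hBTtop) hPi2
  have hAT : ENNReal.ofReal (Real.sin (Real.pi / 8)) * AT T ≤ 1 := by
    rw [← hid]
    exact le_add_self
  have hATtop : AT T ≠ ∞ := by
    intro h
    rw [h, ENNReal.mul_top] at hAT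
    · exact absurd hAT (by simp)
    · rw [Ne, ENNReal.ofReal_eq_zero, not_le]
      exact hs
  set a : ℝ≥0∞ := ∑' k : ℕ, GG T (k + 1) with ha
  have hatop : a ≠ ∞ := by
    intro h
    rw [h, ENNReal.mul_top (by norm_num)] at harcs
    exact hATtop harcs
  have htail : ∀ d, tail T (d + 1) ≠ ∞ := by
    intro d
    have h := head_add_tail T d
    exact ne_top_of_le_ne_top hatop (by rw [ha, ← h]; exact le_add_self)
  -- the kernel
  set P := Pi2 T 1 with hP
  set K : ℕ → ℕ → ℝ≥0∞ := fun x y => A3 T (2 + (x : ℤ)) (2 + (y : ℤ)) with hK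
  have hKsym : ∀ x y, K x y = K y x := fun x y => hsym _ _
  have hin : ∀ d, Ain T (d + 1) = ∑ y ∈ range d, K d y := by
    intro d
    rw [hAin (d + 1) (by omega), sum_Ioo_int]
    apply Finset.sum_congr rfl
    intro y _
    show A3 T (1 + ((d + 1 : ℕ) : ℤ)) (2 + (y : ℤ)) = A3 T (2 + (d : ℤ)) (2 + (y : ℤ))
    congr 1
    push_cast
    ring
  have hout : ∀ d, Aout T (d + 1) = ∑' k : ℕ, K d (d + 1 + k) := by
    intro d
    rw [hAout (d + 1) (by omega)]
    apply tsum_congr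
    intro k
    show A3 T (1 + ((d + 1 : ℕ) : ℤ)) (1 + ((d + 1 : ℕ) : ℤ) + 1 + k) =
      A3 T (2 + (d : ℤ)) (2 + ((d + 1 + k : ℕ) : ℤ))
    congr 1
    · push_cast
      ring
    · push_cast
      ring
  have hKle : ∀ x y, y < x → K x y ≤ P * GG T (x - y) := by
    intro x y hxy
    apply hle
    have : (2 + (y : ℤ)) - (2 + (x : ℤ)) = -((x : ℤ) - y) := by ring
    rw [this, abs_neg, abs_of_nonneg (by omega)]
    omega
  -- finiteness of the arcs
  have hKout : ∀ d, Aout T (d + 1) ≤ P * a := by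
    intro d
    rw [hout d, ha, ← ENNReal.tsum_mul_left]
    apply ENNReal.tsum_le_tsum
    intro k
    rw [hKsym]
    have := hKle (d + 1 + k) d (by omega)
    have e : d + 1 + k - d = k + 1 := by omega
    rwa [e] at this
  have hKin : ∀ d, Ain T (d + 1) + P * tail T (d + 1) ≤ P * a := by
    intro d
    have h1 : Ain T (d + 1) ≤ P * ∑ y ∈ range d, GG T (y + 1) := by
      rw [hin d, Finset.mul_sum, ← Finset.sum_range_reflect (fun y => P * GG T (y + 1)) d]
      apply Finset.sum_le_sum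
      intro y hy
      rw [Finset.mem_range] at hy
      have := hKle d y hy
      have e : d - 1 - y + 1 = d - y := by omega
      rw [e]
      exact this
    calc Ain T (d + 1) + P * tail T (d + 1) ≤
        P * ∑ y ∈ range d, GG T (y + 1) + P * tail T (d + 1) := by gcongr
      _ = P * a := by rw [← mul_add, head_add_tail, ha]
  have hPa : P * a ≠ ∞ := ENNReal.mul_ne_top hPtop hatop
  have hintop : ∀ d, Ain T (d + 1) ≠ ∞ := fun d =>
    ne_top_of_le_ne_top hPa (le_trans le_self_add (hKin d))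
  have houttop : ∀ d, Aout T (d + 1) ≠ ∞ := fun d => ne_top_of_le_ne_top hPa (hKout d)
  -- the sums
  have hS : ∑ d ∈ range D, Ain T (d + 1) ≤ ∑ d ∈ range D, Aout T (d + 1) := by
    calc ∑ d ∈ range D, Ain T (d + 1) = ∑ d ∈ range D, ∑ y ∈ range d, K d y :=
          Finset.sum_congr rfl (fun d _ => hin d)
      _ = ∑ d ∈ range D, ∑ y ∈ Finset.Ico (d + 1) D, K d y := kernel_swap K hKsym D
      _ ≤ ∑ d ∈ range D, Aout T (d + 1) := by
          apply Finset.sum_le_sum
          intro d _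
          rw [hout d, Finset.sum_Ico_eq_sum_range]
          exact ENNReal.sum_le_tsum _
  -- passage to the reals
  set p : ℝ := P.toReal with hp
  set u : ℝ := (BT T).toReal with hu
  set ar : ℝ := a.toReal with har
  set s : ℝ := Real.sin (Real.pi / 8) with hsdef
  have hp0 : 0 ≤ p := ENNReal.toReal_nonneg
  have hu_eq : u + s * (2 * ar) = 1 := by
    have h1 : (BT T + ENNReal.ofReal s * AT T).toReal = (1 : ℝ≥0∞).toReal := by rw [hid]
    rw [ENNReal.toReal_add hBTtop (ENNReal.mul_ne_top ENNReal.ofReal_ne_top hATtop),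
      ENNReal.toReal_mul, ENNReal.toReal_ofReal hs.le, harcs, ENNReal.toReal_mul,
      ENNReal.toReal_one] at h1
    simpa using h1
  have hPi3r : ∀ d, (Pi3 T d).toReal ≤ p * u := by
    intro d
    rw [hp, hu, ← ENNReal.toReal_mul]
    exact ENNReal.toReal_mono (ENNReal.mul_ne_top hPtop hBTtop) (hPi3 d)
  have hinr : ∀ d, (Ain T (d + 1)).toReal + p * (tail T (d + 1)).toReal ≤ p * ar := by
    intro d
    rw [hp, har, ← ENNReal.toReal_mul, ← ENNReal.toReal_mul,
      ← ENNReal.toReal_add (hintop d) (ENNReal.mul_ne_top hPtop (htail d))]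
    exact ENNReal.toReal_mono hPa (hKin d)
  have hSr : ∑ d ∈ range D, (Ain T (d + 1)).toReal ≤ ∑ d ∈ range D, (Aout T (d + 1)).toReal := by
    rw [← ENNReal.toReal_sum (fun d _ => hintop d), ← ENNReal.toReal_sum (fun d _ => houttop d)]
    exact ENNReal.toReal_mono (ENNReal.sum_ne_top.2 (fun d _ => houttop d)) hS
  -- the final computation
  set SI : ℝ := ∑ d ∈ range D, (Ain T (d + 1)).toReal with hSI
  set SO : ℝ := ∑ d ∈ range D, (Aout T (d + 1)).toReal with hSO
  set ST : ℝ := ∑ d ∈ range D, (tail T (d + 1)).toReal with hST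
  have hI : SI + p * ST ≤ D * (p * ar) := by
    have h1 : ∑ d ∈ range D, ((Ain T (d + 1)).toReal + p * (tail T (d + 1)).toReal) ≤
        ∑ _d ∈ range D, p * ar := Finset.sum_le_sum (fun d _ => hinr d)
    rw [Finset.sum_add_distrib, ← Finset.mul_sum, Finset.sum_const, Finset.card_range,
      nsmul_eq_mul] at h1
    exact h1
  have hsum : D * (s * (p - p * u)) - SI + SO / Real.sqrt 2 ≤
      Real.sin (3 * Real.pi / 8) * ((Pi2 T (D + 1)).toReal - p) := by
    have h1 : ∑ d ∈ range D, (s * (p - p * u) - (Ain T (d + 1)).toReal +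
        (Aout T (d + 1)).toReal / Real.sqrt 2) ≤
        ∑ d ∈ range D, Real.sin (3 * Real.pi / 8) *
          ((Pi2 T (d + 1 + 1)).toReal - (Pi2 T (d + 1)).toReal) := by
      apply Finset.sum_le_sum
      intro d _
      refine le_trans ?_ (hT3 (d + 1) (by omega))
      have h2 := mul_le_mul_of_nonneg_left (hPi3r (d + 1)) hs.le
      have h3 : s * (p - p * u) ≤ s * (p - (Pi3 T (d + 1)).toReal) := by
        rw [mul_sub, mul_sub]
        linarith
      linarith
    rw [← Finset.mul_sum, real_sum_tele (fun d => (Pi2 T d).toReal) D, Finset.sum_add_distrib,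
      Finset.sum_sub_distrib, ← Finset.sum_div, Finset.sum_const, Finset.card_range,
      nsmul_eq_mul] at h1
    exact h1
  refine le_trans ?_ hsum
  have hsq : 0 < Real.sqrt 2 := by positivity
  have hc := one_sub_inv_sqrt
  rw [← hsdef] at hc
  have hdiv : SI / Real.sqrt 2 ≤ SO / Real.sqrt 2 := by gcongr
  have e1 : SI / Real.sqrt 2 = SI * (1 / Real.sqrt 2) := by ring
  have e2 : 1 / Real.sqrt 2 = 1 - 2 * s ^ 2 := by linarith
  rw [e1, e2] at hdiv
  rw [hc]
  have h5 : 2 * s ^ 2 * (SI + p * ST) ≤ 2 * s ^ 2 * (D * (p * ar)) :=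
    mul_le_mul_of_nonneg_left hI (by positivity)
  have h6 : 2 * s ^ 2 * ((D : ℝ) * (p * ar)) = D * (s * (p - p * u)) := by
    have : 1 - u = s * (2 * ar) := by linarith
    have h7 : p - p * u = p * (s * (2 * ar)) := by rw [← this]; ring
    rw [h7]
    ring
  nlinarith

end HexObs
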