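import Pool.Agent.W47.Base
import Pool.Agent.HexObs.Corner

/-!
W47, module B: the corner inequality in the strip.
-/

set_option autoImplicit false

namespace HexObs

open Complex Finset ENNReal

namespace CB

lemma tan_eighth : Real.sin (Real.pi / 8) = (Real.sqrt 2 - 1) * Real.sin (3 * Real.pi / 8) := by
  have h3 : Real.sin (3 * Real.pi / 8) = Real.cos (Real.pi / 8) := by
    rw [← Real.sin_pi_div_two_sub]
    congr 1
    ring
  rw [h3]
  have hc := cos_pos
  have h2 : Real.sqrt 2 * Real.sqrt 2 = 2 := Real.mul_self_sqrt (by norm_num)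
  have e1 : 2 * Real.sin (Real.pi / 8) * Real.cos (Real.pi / 8) = Real.sqrt 2 / 2 := by
    rw [← Real.sin_two_mul, ← Real.sin_pi_div_four]
    congr 1
    ring
  have e2 : 2 * Real.cos (Real.pi / 8) ^ 2 - 1 = Real.sqrt 2 / 2 := by
    rw [← Real.cos_two_mul, ← Real.cos_pi_div_four]
    congr 1
    ring
  have key : 2 * Real.cos (Real.pi / 8) * (Real.sin (Real.pi / 8) - (Real.sqrt 2 - 1) * Real.cos (Real.pi / 8)) = 0 := by
    linear_combination e1 - (Real.sqrt 2 - 1) * e2 - h2 / 2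
  rcases mul_eq_zero.1 key with h | h
  · linarith
  · linarith

lemma arc_empty (Ω : Set Pt) (v d0 w : Pt) : Arc Ω ∅ v d0 w = outAt Ω v d0 w (-d0) := by
  unfold Arc Dn outAt out
  simp only [Set.sdiff_empty]

lemma GG_eq (T k : ℕ) : GG T k = CB.GA oo up T (k : ℤ) := by
  unfold GG CB.GA
  rw [arc_empty]
  rfl

lemma tail_ne_top {T : ℕ} (hT : 1 ≤ T) (r : ℕ) : tail T r ≠ ∞ := by
  have h0 : up ∈ dirs := by decide
  have h1 : tail T r = gf (⋃ k : ℕ, outAt (St T) oo up (foot oo up ((r + k : ℕ) : ℤ)) (-up)) := by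
    rw [CB.gf_iUnion_disj]
    · unfold tail
      apply tsum_congr
      intro k
      rw [GG_eq]
      rfl
    · intro i j hij
      rw [Set.disjoint_left]
      rintro t ⟨_, g1⟩ ⟨_, g2⟩
      rw [g1] at g2
      have h3 := CB.foot_inj h0 oo g2
      push_cast at h3
      omega
  rw [h1]
  apply ne_top_of_le_ne_top (AT_ne_top hT)
  apply gf_mono
  intro t ht
  rw [Set.mem_iUnion] at ht
  obtain ⟨k, hk, _⟩ := ht
  exact hk

end CB

open CB in
/-- (B) -/
theorem ineqB {T : ℕ} (hT : 1 ≤ T) (R : ℕ) :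
    (Real.sqrt 2 - 1) * ∑ r ∈ Finset.range R, (sc T (r + 1)).toReal ≤
      ∑ r ∈ Finset.range R, (tail T (r + 1)).toReal := by
  have h0 : up ∈ dirs := by decide
  have h := CB.corner_main h0 oo hT R
  have e1 : ∑ r ∈ Finset.range R, gf (out (CB.cnr oo up T (r + 1)) oo up (rotR up)) =
      ∑ r ∈ Finset.range R, sc T (r + 1) := rfl
  have e2 : ∑ r ∈ Finset.range R, ∑' k : ℕ, CB.GA oo up T ((r + 1 + k : ℕ) : ℤ) =
      ∑ r ∈ Finset.range R, tail T (r + 1) := by
    apply Finset.sum_congr rfl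
    intro r _
    unfold tail
    apply tsum_congr
    intro k
    rw [GG_eq]
  rw [e1, e2] at h
  have hs3 : 0 < Real.sin (3 * Real.pi / 8) := by
    apply Real.sin_pos_of_pos_of_lt_pi <;> linarith [Real.pi_pos]
  have hs1 : 0 < Real.sin (Real.pi / 8) := by
    apply Real.sin_pos_of_pos_of_lt_pi <;> linarith [Real.pi_pos]
  have htop : ∑ r ∈ Finset.range R, tail T (r + 1) ≠ ∞ := ENNReal.sum_ne_top.2 (fun r _ => tail_ne_top hT _)
  have hR : ENNReal.ofReal (Real.sin (3 * Real.pi / 8)) * ∑ r ∈ Finset.range R, tail T (r + 1) ≠ ∞ :=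
    ENNReal.mul_ne_top ENNReal.ofReal_ne_top htop
  have hL := ne_top_of_le_ne_top hR h
  have hsc : ∀ r ∈ Finset.range R, sc T (r + 1) ≠ ∞ := by
    intro r hr htop'
    apply hL
    have h1 : ∑ r ∈ Finset.range R, sc T (r + 1) = ∞ := by
      rw [eq_top_iff, ← htop']
      exact Finset.single_le_sum (f := fun r => sc T (r + 1)) (fun _ _ => bot_le) hr
    rw [h1, ENNReal.mul_top]
    rw [Ne, ENNReal.ofReal_eq_zero]
    push Not
    exact hs1
  have h2 := ENNReal.toReal_mono hR h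
  rw [ENNReal.toReal_mul, ENNReal.toReal_mul, ENNReal.toReal_ofReal hs1.le, ENNReal.toReal_ofReal hs3.le,
    ENNReal.toReal_sum hsc, ENNReal.toReal_sum (fun r _ => tail_ne_top hT _), tan_eighth] at h2
  have h3 : Real.sin (3 * Real.pi / 8) * ((Real.sqrt 2 - 1) * ∑ r ∈ Finset.range R, (sc T (r + 1)).toReal) ≤
      Real.sin (3 * Real.pi / 8) * ∑ r ∈ Finset.range R, (tail T (r + 1)).toReal := by
    linarith
  exact le_of_mul_le_mul_left h3 hs3

end HexObs
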