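import Pool.Agent.W47.Base
import Pool.Agent.HexObs.Planar2

/-!
W47, K1: landing feet.
-/

set_option autoImplicit false

namespace HexObs

open Complex Finset ENNReal

namespace K1

lemma overBr_congr {Ω : Set Pt} {v d0 : Pt} {F G : Set Pt → ℝ≥0∞} {X : Set Pt}
    (h : ∀ s ∈ Br Ω X v d0, F (X ∪ vis v d0 s) = G (X ∪ vis v d0 s)) : overBr Ω v d0 F X = overBr Ω v d0 G X := by
  unfold overBr
  apply tsum_congr
  intro s
  by_cases hs : s ∈ Br Ω X v d0
  · rw [Set.indicator_of_mem hs, Set.indicator_of_mem hs, h s hs]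
  · rw [Set.indicator_of_notMem hs, Set.indicator_of_notMem hs]

lemma overBr_tsum {ι : Type*} (Ω : Set Pt) (v d0 : Pt) (F : ι → Set Pt → ℝ≥0∞) (X : Set Pt) :
    overBr Ω v d0 (fun Y => ∑' i, F i Y) X = ∑' i, overBr Ω v d0 (F i) X := by
  unfold overBr
  rw [ENNReal.tsum_comm]
  apply tsum_congr
  intro s
  by_cases hs : s ∈ Br Ω X v d0
  · rw [Set.indicator_of_mem hs, ← ENNReal.tsum_mul_left]
    apply tsum_congr
    intro i
    rw [Set.indicator_of_mem hs]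
  · rw [Set.indicator_of_notMem hs]
    symm
    rw [ENNReal.tsum_eq_zero]
    intro i
    rw [Set.indicator_of_notMem hs]

lemma gf_indicator (P : Set (List Bool)) : gf P = ∑' t : List Bool, P.indicator wE t := by
  unfold gf
  exact tsum_subtype P wE

lemma gf_iUnion {ι : Type*} (A : ι → Set (List Bool)) (hA : ∀ i j, ∀ t, t ∈ A i → t ∈ A j → i = j) :
    gf (⋃ i, A i) = ∑' i, gf (A i) := by
  simp_rw [gf_indicator]
  rw [ENNReal.tsum_comm]
  apply tsum_congr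
  intro t
  by_cases h : ∃ i, t ∈ A i
  · obtain ⟨i, hi⟩ := h
    rw [Set.indicator_of_mem (Set.mem_iUnion.2 ⟨i, hi⟩), tsum_eq_single i, Set.indicator_of_mem hi]
    intro j hj
    rw [Set.indicator_of_notMem]
    intro hj2
    exact hj (hA j i t hj2 hi)
  · rw [Set.indicator_of_notMem]
    · symm
      rw [ENNReal.tsum_eq_zero]
      intro i
      rw [Set.indicator_of_notMem]
      intro hi
      exact h ⟨i, hi⟩
    · intro hh
      exact h (Set.mem_iUnion.1 hh)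

lemma up_dirs : up ∈ dirs := by decide

lemma arc_unique {Ω Z : Set Pt} {a i j : ℤ} {t : List Bool}
    (h1 : t ∈ Arc Ω Z (foot oo up a) up (foot oo up i)) (h2 : t ∈ Arc Ω Z (foot oo up a) up (foot oo up j)) :
    i = j := foot_inj up_dirs (h1.2.symm.trans h2.2)

lemma Q2_congr {Ω : Set Pt} {v0 d0 : Pt} {a b : ℤ} {D E : Set Pt → Set (List Bool)}
    (h : ∀ Y : Set Pt, ∀ s ∈ Br Ω Y (foot v0 d0 b) d0,
      gf (D (Y ∪ vis (foot v0 d0 b) d0 s)) = gf (E (Y ∪ vis (foot v0 d0 b) d0 s))) (X : Set Pt) :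
    Q2 Ω v0 d0 a b D X = Q2 Ω v0 d0 a b E X := by
  unfold Q2
  apply overBr_congr
  intro s _
  exact overBr_congr (h _)

lemma Q2_iUnion {ι : Type*} {Ω : Set Pt} {v0 d0 : Pt} {a b : ℤ} {D : ι → Set Pt → Set (List Bool)}
    (hD : ∀ Z i j, ∀ t, t ∈ D i Z → t ∈ D j Z → i = j) (X : Set Pt) :
    Q2 Ω v0 d0 a b (fun Z => ⋃ i, D i Z) X = ∑' i, Q2 Ω v0 d0 a b (D i) X := by
  have h1 : (fun Y => overBr Ω (foot v0 d0 b) d0 (fun Z => gf (⋃ i, D i Z)) Y) =
      fun Y => ∑' i, overBr Ω (foot v0 d0 b) d0 (fun Z => gf (D i Z)) Y := by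
    funext Y
    rw [← overBr_tsum]
    congr 1
    funext Z
    exact gf_iUnion (fun i => D i Z) (hD Z)
  unfold Q2
  rw [h1, overBr_tsum]

end K1

open K1

/-- K1. landing feet -/
theorem Ain_eq {T d : ℕ} (hT : 1 ≤ T) (_hd : 1 ≤ d) :
    Ain T d = ∑ j ∈ Finset.Ioo (1 : ℤ) (1 + d), A3 T (1 + d) j := by
  have e1 : Ain T d = Q2 (St T) oo up 0 1 (fun Z => ⋃ j : (Finset.Ioo (1 : ℤ) (1 + d) : Finset ℤ),
      Arc (St T) Z (foot oo up (1 + d)) up (foot oo up (j : ℤ))) ∅ := by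
    unfold Ain
    apply Q2_congr
    intro Y s hs
    congr 1
    ext t
    rw [Set.mem_iUnion]
    constructor
    · rintro ⟨h1, h2⟩
      obtain ⟨b, hb, hside⟩ := dn_br_side up_dirs hT h1 hs Set.subset_union_right
      rw [hb, cross_foot up_dirs] at h2
      refine ⟨⟨b, ?_⟩, h1, hb⟩
      rw [Finset.mem_Ioo]
      omega
    · rintro ⟨⟨j, hj⟩, h1, h2⟩
      refine ⟨h1, ?_⟩
      rw [Finset.mem_Ioo] at hj
      rw [h2, cross_foot up_dirs]
      simp only
      omega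
  rw [e1, Q2_iUnion (D := fun (j : (Finset.Ioo (1 : ℤ) (1 + d) : Finset ℤ)) Z =>
      Arc (St T) Z (foot oo up (1 + d)) up (foot oo up (j : ℤ)))]
  · rw [tsum_fintype]
    exact Finset.sum_coe_sort (Finset.Ioo (1 : ℤ) (1 + d)) (fun j => A3 T (1 + d) j)
  · intro Z i j t hi hj
    exact Subtype.ext (arc_unique hi hj)

theorem Aout_eq {T d : ℕ} (_hT : 1 ≤ T) (_hd : 1 ≤ d) :
    Aout T d = ∑' k : ℕ, A3 T (1 + d) (1 + d + 1 + k) := by
  have e1 : Aout T d = Q2 (St T) oo up 0 1 (fun Z => ⋃ k : ℕ,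
      Arc (St T) Z (foot oo up (1 + d)) up (foot oo up (1 + d + 1 + k))) ∅ := by
    unfold Aout
    apply Q2_congr
    intro Y s hs
    congr 1
    ext t
    rw [Set.mem_iUnion]
    constructor
    · rintro ⟨h1, h2⟩
      obtain ⟨b, hb⟩ := dn_tip_foot up_dirs h1
      rw [hb, cross_foot up_dirs] at h2
      refine ⟨(b - (1 + d + 1)).toNat, h1, ?_⟩
      rw [hb]
      congr 1
      omega
    · rintro ⟨k, h1, h2⟩
      refine ⟨h1, ?_⟩
      rw [h2, cross_foot up_dirs]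
      omega
  rw [e1, Q2_iUnion (D := fun (k : ℕ) Z => Arc (St T) Z (foot oo up (1 + d)) up (foot oo up (1 + d + 1 + k)))]
  · rfl
  · intro Z i j t hi hj
    have := arc_unique hi hj
    omega

end HexObs
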