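import Pool.Agent.W47.Base
import Pool.Agent.HexObs.Planar2

/-!
W47: translation of the strip, bounds for pairs and triples of bridges.
-/

set_option autoImplicit false

namespace HexObs

open Complex Finset ENNReal

private lemma k5_up_mem : up ∈ dirs := by decide

lemma ip_sub_foot (v0 d0 v : Pt) (k : ℤ) : ip (v - foot v0 d0 k) d0 = ip (v - v0) d0 := by
  have h1 : v - foot v0 d0 k = (v - v0) - (foot v0 d0 k - v0) := by abel
  rw [h1, ip_sub_left, ft_ip, sub_zero]

lemma strip_foot (v0 d0 : Pt) (k : ℤ) (T : ℕ) :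
    strip (foot v0 d0 k) d0 T = strip v0 d0 T := by
  ext v
  unfold strip
  simp only [Set.mem_ofPred_eq, IsHex, ft_cl, ip_sub_foot]

lemma br_empty (Ω : Set Pt) (v d0 : Pt) : Br Ω ∅ v d0 = out Ω v d0 d0 := by
  unfold Br out
  rw [Set.sdiff_empty]

lemma gf_br_foot (T : ℕ) (k : ℤ) : gf (Br (St T) ∅ (foot oo up k) up) = BT T := by
  rw [br_empty, St, ← strip_foot oo up k T, gf_B k5_up_mem]

theorem Pi2_le {T : ℕ} (_hT : 1 ≤ T) (d : ℕ) : Pi2 T d ≤ BT T * BT T := by
  unfold Pi2 P2
  have h1 : overBr (St T) (foot oo up 0) up (fun Y => gf (Br (St T) Y (foot oo up d) up)) ∅ ≤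
      overBr (St T) (foot oo up 0) up (fun _ => BT T * 1) ∅ := by
    apply overBr_mono
    intro X
    rw [mul_one, ← gf_br_foot T d]
    exact gf_mono (br_anti (Set.empty_subset X))
  refine h1.trans (le_of_eq ?_)
  rw [overBr_const_mul, overBr_one, gf_br_foot]

theorem Pi3_le {T : ℕ} (_hT : 1 ≤ T) (d : ℕ) : Pi3 T d ≤ Pi2 T 1 * BT T := by
  unfold Pi3 P3 Pi2 P2
  have h1 : ∀ X : Set Pt, overBr (St T) (foot oo up 1) up
      (fun Y => gf (Br (St T) Y (foot oo up (1 + d)) up)) X ≤
      BT T * gf (Br (St T) X (foot oo up 1) up) := by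
    intro X
    have h2 : overBr (St T) (foot oo up 1) up
        (fun Y => gf (Br (St T) Y (foot oo up (1 + d)) up)) X ≤
        overBr (St T) (foot oo up 1) up (fun _ => BT T * 1) X := by
      apply overBr_mono
      intro Y
      rw [mul_one, ← gf_br_foot T (1 + d)]
      exact gf_mono (br_anti (Set.empty_subset Y))
    refine h2.trans (le_of_eq ?_)
    rw [overBr_const_mul, overBr_one]
  have h3 := overBr_mono (Ω := St T) (v := foot oo up 0) (d0 := up) h1 ∅
  refine h3.trans (le_of_eq ?_)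
  rw [overBr_const_mul, mul_comm]
  rfl

end HexObs
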