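import Pool.Agent.W47.K4
import Pool.Agent.W47.K5

/-!
W47, module K2: an arc under a pair of bridges can be reversed.
-/

set_option autoImplicit false

namespace HexObs

open Complex Finset ENNReal

lemma k2_foot_notMem (T : ℕ) (i : ℤ) : foot oo up i ∉ St T := by
  intro h
  have h1 : 0 < ip (foot oo up i - oo) up := h.2.1
  rw [ft_ip] at h1
  exact lt_irrefl _ h1

lemma k2_arc (T : ℕ) (Z : Set Pt) (i j : ℤ) :
    Arc (St T) Z (foot oo up i) up (foot oo up j) =
      outAt (St T \ Z) (foot oo up i) up (foot oo up j) (-up) := by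
  ext t
  constructor
  · rintro ⟨⟨h1, h2, h3⟩, h4⟩
    exact ⟨⟨h1, fun h => h2 h.1, h3⟩, h4⟩
  · rintro ⟨⟨h1, _, h3⟩, h4⟩
    refine ⟨⟨h1, ?_, h3⟩, h4⟩
    rw [h4]
    exact k2_foot_notMem T j

theorem A3_symm (T : ℕ) (i j : ℤ) : A3 T i j = A3 T j i := by
  have h : ∀ Z : Set Pt, gf (Arc (St T) Z (foot oo up i) up (foot oo up j)) =
      gf (Arc (St T) Z (foot oo up j) up (foot oo up i)) := by
    intro Z
    rw [k2_arc, k2_arc]
    have h1 := gf_rev (Ω := St T \ Z) (v0 := foot oo up i) (d0 := up) (w := foot oo up j) (e := -up)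
      (fun h => k2_foot_notMem T i h.1) (fun h => k2_foot_notMem T j h.1)
    rwa [neg_neg] at h1
  unfold A3 Q2
  simp only [h]

end HexObs
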