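import Pool.Agent.W47.K4
import Pool.Agent.W47.K5

/-!
W47, module K3: the total weight of a pair of bridges and a disjoint arc.
-/

set_option autoImplicit false

namespace HexObs

open Complex Finset ENNReal

lemma k3_mem (T : ℕ) (i : ℤ) (v : Pt) :
    v ∈ St T ↔ foot oo up i + mulE (1, 0) (v - oo) ∈ St T := by
  have e1 : foot oo up i + mulE (1, 0) (v - oo) - oo = (v - oo) + (foot oo up i - oo) := by
    rw [mulE_one]
    unfold oo
    abel
  have e2 : ip (foot oo up i + mulE (1, 0) (v - oo) - oo) up = ip (v - oo) up := by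
    rw [e1, ip_add_left, ft_ip, add_zero]
  have e3 : cl (foot oo up i + mulE (1, 0) (v - oo)) = cl v := by
    rw [mulE_one, cl_add, ft_cl]
    have : cl (v - oo) = cl v := by
      unfold oo cl
      simp
    rw [this]
    have : cl oo = 0 := by decide
    rw [this, zero_add]
  show (IsHex oo up v ∧ _) ↔ (IsHex oo up _ ∧ _)
  rw [e2]
  unfold IsHex
  rw [e3]

lemma k3_arc (T : ℕ) (i j : ℤ) :
    Arc (St T) ∅ (foot oo up i) up (foot oo up j) = Arc (St T) ∅ oo up (foot oo up (j - i)) := by
  have h1 : out (St T) oo up (-up) = out (St T) (foot oo up i) up (-up) := by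
    have h := out_rot (u := ((1, 0) : Pt)) (by decide) oo (foot oo up i) up (-up)
      (fun v => k3_mem T i v)
    rwa [mulE_one, mulE_one] at h
  ext t
  have h2 : tip (foot oo up i) up t = foot oo up i + (tip oo up t - oo) := by
    unfold tip
    have := vx_mulE (1, 0) oo (foot oo up i) up t (t.length + 1)
    rwa [mulE_one, mulE_one] at this
  have h3 : t ∈ Arc (St T) ∅ (foot oo up i) up (foot oo up j) ↔
      t ∈ out (St T) (foot oo up i) up (-up) ∧ tip (foot oo up i) up t = foot oo up j := by
    unfold Arc Dn out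
    rw [Set.sdiff_empty]
    exact Iff.rfl
  rw [h3, k4_arc, ← h1, h2]
  have h4 : foot oo up i + (tip oo up t - oo) = foot oo up j ↔ tip oo up t = foot oo up (j - i) := by
    rw [k4_foot, k4_foot, k4_foot]
    unfold oo
    constructor
    · intro h
      have h5 := congrArg Prod.fst h
      have h6 := congrArg Prod.snd h
      simp only [Prod.fst_add, Prod.snd_add, Prod.fst_sub, Prod.snd_sub] at h5 h6
      apply Prod.ext
      · show _ = 2 * (j - i)
        linarith
      · show _ = -(j - i)
        linarith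
    · intro h
      rw [h]
      apply Prod.ext
      · show 2 * i + (2 * (j - i) - 0) = 2 * j
        ring
      · show -i + (-(j - i) - 0) = -j
        ring
  rw [h4]

lemma k3_gf (T : ℕ) (i j : ℤ) (k : ℕ) (hk : (k : ℤ) = |j - i|) :
    gf (Arc (St T) ∅ (foot oo up i) up (foot oo up j)) = GG T k := by
  rw [k3_arc]
  rcases abs_choice (j - i) with h | h
  · rw [← h, ← hk]
    rfl
  · have h1 : j - i = -(k : ℤ) := by rw [hk, h, neg_neg]
    rw [h1]
    exact k4_symm T k

theorem A3_le (T : ℕ) (i j : ℤ) (k : ℕ) (hk : (k : ℤ) = |j - i|) :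
    A3 T i j ≤ Pi2 T 1 * GG T k := by
  unfold A3 Q2 Pi2 P2
  have h1 : ∀ X : Set Pt, overBr (St T) (foot oo up 1) up
      (fun Z => gf (Arc (St T) Z (foot oo up i) up (foot oo up j))) X ≤
      GG T k * gf (Br (St T) X (foot oo up 1) up) := by
    intro X
    have h2 : overBr (St T) (foot oo up 1) up
        (fun Z => gf (Arc (St T) Z (foot oo up i) up (foot oo up j))) X ≤
        overBr (St T) (foot oo up 1) up (fun _ => GG T k * 1) X := by
      apply overBr_mono
      intro Y
      rw [mul_one, ← k3_gf T i j k hk]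
      apply gf_mono
      rintro t ⟨ht, ht'⟩
      exact ⟨dn_anti (Set.empty_subset Y) ht, ht'⟩
    refine h2.trans (le_of_eq ?_)
    rw [overBr_const_mul, overBr_one]
  have h3 := overBr_mono (Ω := St T) (v := foot oo up 0) (d0 := up) h1 ∅
  refine h3.trans (le_of_eq ?_)
  rw [overBr_const_mul, mul_comm]
  rfl

end HexObs
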