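import Pool.Agent.W47.Base

/-!
W47, module K4: the arcs of the strip, sorted by the landing foot.
-/

set_option autoImplicit false

namespace HexObs

open Complex Finset ENNReal

lemma k4_foot (k : ℤ) : foot oo up k = (2 * k, -k) := by
  have h : hz up = (2, -1) := by decide
  unfold foot
  rw [h]
  show ((0 : ℤ), (0 : ℤ)) + (k * 2, k * (-1)) = _
  rw [Prod.mk_add_mk]
  congr 1 <;> ring

lemma k4_foot_inj {k l : ℤ} (h : foot oo up k = foot oo up l) : k = l := by
  rw [k4_foot, k4_foot] at h
  have := congrArg Prod.snd h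
  simpa using this

lemma k4_arc {T : ℕ} {w : Pt} {t : List Bool} :
    t ∈ Arc (St T) ∅ oo up w ↔ t ∈ out (St T) oo up (-up) ∧ tip oo up t = w := by
  unfold Arc Dn out
  rw [Set.sdiff_empty]
  exact Iff.rfl

/-- the walks that leave the strip downwards land on a foot -/
lemma k4_land {T : ℕ} (hT : 1 ≤ T) {t : List Bool} (ht : t ∈ out (St T) oo up (-up)) :
    ∃ k : ℤ, k ≠ 0 ∧ tip oo up t = foot oo up k := by
  obtain ⟨h1, h2, h3⟩ := ht
  have hup : up ∈ dirs := by decide
  have h4 : ip (tip oo up t - oo) up = 0 := by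
    rcases strip_exit hup hT h1 h2 with h | h
    · exact h.2
    · exfalso
      rw [h3] at h
      exact absurd h.1 (by decide)
  have h5 : (tip oo up t).1 = -2 * (tip oo up t).2 := by
    have h6 : ip (tip oo up t - oo) up = 2 * (tip oo up t).2 + (tip oo up t).1 := by
      unfold ip up oo
      simp only [Prod.fst_sub, Prod.snd_sub]
      ring
    rw [h6] at h4
    linarith
  refine ⟨-(tip oo up t).2, ?_, ?_⟩
  · intro h6
    have h7 : tip oo up t = oo := by
      apply Prod.ext
      · rw [h5]
        show _ = (0 : ℤ)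
        linarith
      · show _ = (0 : ℤ)
        linarith
    have h8 : vx oo up t t.length = oo + up := by
      have h9 : tip oo up t = vx oo up t t.length + dx up t t.length := rfl
      rw [h7, h3] at h9
      have h10 : vx oo up t t.length = (vx oo up t t.length + -up) + up := by abel
      rw [h10, ← h9]
    rcases Nat.lt_or_ge 1 t.length with h10 | h10
    · exact h1.inj 1 t.length h10 le_rfl h8.symm
    · rcases Nat.lt_or_ge 0 t.length with h11 | h11
      · have h12 : t.length = 1 := by omega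
        rw [h12] at h3
        have h13 : turn (tf t 0) up = -up := h3
        revert h13
        cases tf t 0 <;> decide
      · have h12 : t.length = 0 := by omega
        rw [h12] at h3
        have h13 : up = -up := h3
        revert h13
        decide
  · rw [k4_foot]
    apply Prod.ext
    · show _ = 2 * -(tip oo up t).2
      rw [h5]
      ring
    · show _ = - -(tip oo up t).2
      ring

/-- arcs from the foot 0 to the foot k -/
noncomputable def k4G (T : ℕ) (k : ℤ) : ℝ≥0∞ := gf (Arc (St T) ∅ oo up (foot oo up k))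

lemma k4_refl_mem {v : Pt} {T : ℕ} : v ∈ St T ↔ oo + mulE (-1, 1) (conjE (v - oo)) ∈ St T := by
  have e : oo + mulE (-1, 1) (conjE (v - oo)) = (-v.1 - v.2 + v.2 - 0, v.1 + v.2) := by
    unfold oo mulE conjE
    simp only [Prod.fst_sub, Prod.snd_sub]
    apply Prod.ext
    · simp only [Prod.fst_add]
      ring
    · simp only [Prod.snd_add]
      ring
  have e1 : ip (oo + mulE (-1, 1) (conjE (v - oo)) - oo) up = ip (v - oo) up := by
    rw [e]
    unfold ip oo up
    simp only [Prod.fst_sub, Prod.snd_sub]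
    ring
  have e2 : cl (oo + mulE (-1, 1) (conjE (v - oo))) = cl v := by
    have h3 : (3 : ZMod 3) = 0 := three_eq
    rw [e]
    unfold cl
    push_cast
    linear_combination (-(v.1 : ZMod 3)) * h3
  show (IsHex oo up v ∧ _) ↔ (IsHex oo up _ ∧ _)
  rw [e1]
  unfold IsHex
  rw [e2]

lemma k4_refl {T : ℕ} {k : ℤ} {t : List Bool} (ht : t ∈ Arc (St T) ∅ oo up (foot oo up k)) :
    t.map not ∈ Arc (St T) ∅ oo up (foot oo up (-k)) := by
  rw [k4_arc] at ht ⊢
  have hu : nrm ((-1, 1) : Pt) = 1 := by decide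
  have h1 := (out_refl_aux hu oo oo up (-up) (Ω := St T) (Ω' := St T) (fun v => k4_refl_mem)).1 ht.1
  have h2 : mulE (-1, 1) (conjE up) = up := by decide
  have h3 : mulE (-1, 1) (conjE (-up)) = -up := by decide
  rw [h2, h3] at h1
  refine ⟨h1, ?_⟩
  have h4 := vx_refl (-1, 1) oo oo up t (le_refl (t.length + 1))
  rw [h2] at h4
  have h5 : tip oo up (t.map not) = vx oo up (t.map not) (t.length + 1) := by
    unfold tip
    rw [List.length_map]
  rw [h5, h4]
  have h6 : vx oo up t (t.length + 1) = foot oo up k := ht.2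
  rw [h6, k4_foot, k4_foot]
  unfold oo mulE conjE
  simp only [Prod.fst_sub, Prod.snd_sub]
  apply Prod.ext
  · simp only [Prod.fst_add]
    ring
  · simp only [Prod.snd_add]
    ring

lemma k4_le (T : ℕ) (k : ℤ) : k4G T k ≤ k4G T (-k) := by
  have h := gf_le_of_inj (P := Arc (St T) ∅ oo up (foot oo up k))
    (Q := Arc (St T) ∅ oo up (foot oo up (-k))) (fun t => t.map not) (fun t ht => k4_refl ht) (by
      intro s _ t _ hst
      have := congrArg (List.map not) hst
      rwa [map_not_not, map_not_not] at this) 1 (by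
      intro t _
      rw [one_mul, wE_map_not])
  rwa [one_mul] at h

lemma k4_symm (T : ℕ) (k : ℤ) : k4G T (-k) = k4G T k := by
  refine le_antisymm ?_ (k4_le T k)
  have := k4_le T (-k)
  rwa [neg_neg] at this

lemma k4_sum {T : ℕ} (hT : 1 ≤ T) : AT T = ∑' k : ℤ, k4G T k := by
  have e1 : AT T = ∑' t : List Bool, (out (St T) oo up (-up)).indicator wE t := by
    rw [← _root_.tsum_subtype]
    rfl
  have e2 : ∀ k : ℤ, k4G T k =
      ∑' t : List Bool, (Arc (St T) ∅ oo up (foot oo up k)).indicator wE t := by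
    intro k
    rw [← _root_.tsum_subtype]
    rfl
  rw [e1, tsum_congr e2, ENNReal.tsum_comm]
  refine tsum_congr fun t => ?_
  by_cases ht : t ∈ out (St T) oo up (-up)
  · obtain ⟨k, -, hk⟩ := k4_land hT ht
    rw [Set.indicator_of_mem ht, tsum_eq_single k]
    · rw [Set.indicator_of_mem (k4_arc.2 ⟨ht, hk⟩)]
    · intro l hl
      apply Set.indicator_of_notMem
      intro h
      apply hl
      exact k4_foot_inj ((k4_arc.1 h).2.symm.trans hk)
  · rw [Set.indicator_of_notMem ht]
    symm
    rw [ENNReal.tsum_eq_zero]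
    intro k
    apply Set.indicator_of_notMem
    intro h
    exact ht (k4_arc.1 h).1

lemma k4_zero {T : ℕ} (hT : 1 ≤ T) : k4G T 0 = 0 := by
  have h : Arc (St T) ∅ oo up (foot oo up 0) = ∅ := by
    rw [Set.eq_empty_iff_forall_notMem]
    intro t ht
    rw [k4_arc] at ht
    obtain ⟨k, hk, hk'⟩ := k4_land hT ht.1
    exact hk (k4_foot_inj (hk'.symm.trans ht.2))
  unfold k4G gf
  rw [h]
  exact tsum_empty

/-- K4. total weight of the arcs -/
theorem arcs_total {T : ℕ} (hT : 1 ≤ T) : AT T = 2 * ∑' k : ℕ, GG T (k + 1) := by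
  rw [k4_sum hT, tsum_of_nat_of_neg_add_one ENNReal.summable ENNReal.summable]
  have e1 : ∑' n : ℕ, k4G T (n : ℤ) = ∑' k : ℕ, GG T (k + 1) := by
    rw [tsum_eq_zero_add' ENNReal.summable, Nat.cast_zero, k4_zero hT, zero_add]
    rfl
  have e2 : ∑' n : ℕ, k4G T (-((n : ℤ) + 1)) = ∑' k : ℕ, GG T (k + 1) := by
    refine tsum_congr fun n => ?_
    rw [k4_symm]
    have : ((n : ℤ) + 1) = ((n + 1 : ℕ) : ℤ) := by push_cast; ring
    rw [this]
    rfl
  rw [e1, e2, two_mul]

end HexObs
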