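import Pool.Agent.W47.Base

/-!
W47, module D: the arcs of the strip of height T + 1 that visit the top level are bounded by pairs of
disjoint bridges at neighbouring feet.
-/

set_option autoImplicit false

namespace HexObs

open Complex Finset ENNReal

/-! ### geometry at two neighbouring feet -/

lemma surg_check : ∀ e ∈ dirs, hz e ≠ 0 ∧ ip (hz e) e = 0 ∧ cl (hz e) = 0 ∧ e + rotR e ≠ 0 ∧
    cl e ≠ 0 ∧ -e ≠ e ∧ rotL e ≠ e ∧ rotR e ≠ e ∧ rotR (rotR e) ≠ e ∧ ip (hz e + e) e = 2 ∧
    rotL (rotL (rotL e)) = -e ∧ rotR (rotR (rotR e)) = -e ∧ rotR (rotL (rotL e)) = rotL e := by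
  decide

lemma surg_rotL (e : Pt) : rotL e = -rotR (rotR e) := by
  simp only [rotL, rotR, Prod.neg_mk]
  congr 1 <;> ring

lemma surg_v1 (w e : Pt) : w + hz e + e - rotR (rotR e) = w + e + rotR e := by
  unfold hz
  abel

lemma surg_v1' (w e : Pt) : w + hz e + e + rotL e = w + e + rotR e := by
  rw [surg_rotL, ← sub_eq_add_neg, surg_v1]

/-- a bridge from `w` which visits the first vertex of the right neighbouring foot also visits the
vertex in between. -/
lemma surg_nbr {w e : Pt} (he : e ∈ dirs) {T : ℕ} {s : List Bool}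
    (hs : s ∈ out (strip w e T) w e e) {m : ℕ} (h2 : m + 1 ≤ s.length)
    (hv : vx w e s (m + 1) = w + hz e + e) :
    (1 ≤ m ∧ vx w e s m = w + e + rotR e) ∨
      (m + 2 ≤ s.length ∧ vx w e s (m + 2) = w + e + rotR e) := by
  obtain ⟨c1, c2, c3, c4, c5, c6, c7, c8, c9, c10, c11, c12, c13⟩ := surg_check e he
  obtain ⟨hsaw, htip, hdx⟩ := hs
  have hlow : ∀ k, 1 ≤ k → k ≤ s.length → vx w e s k ≠ w + hz e := by
    intro k hk1 hk2 heq
    have h3 := (hsaw.mem k hk1 hk2).2.1
    rw [heq, show w + hz e - w = hz e by abel, c2] at h3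
    exact lt_irrefl _ h3
  have hcl := cl_vx w e s (m + 1)
  rw [hv, cl_add, cl_add, c3, add_zero] at hcl
  have hodd : ¬ Even (m + 1) := by
    intro h
    rw [if_pos h] at hcl
    exact c5 (by simpa using hcl)
  have hm : Even m := by
    rw [Nat.even_add_one, not_not] at hodd
    exact hodd
  have hs1 : vx w e s (m + 1) = vx w e s m + dx e s m := vx_succ w e s m
  rw [hv] at hs1
  rcases step_even he s hm with ⟨hd, _⟩ | ⟨hd, _⟩ | ⟨hd, _⟩
  · exfalso
    rw [hd] at hs1
    have h3 : vx w e s m = w + hz e := (add_right_cancel hs1).symm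
    rcases Nat.eq_zero_or_pos m with h4 | h4
    · rw [h4] at h3
      have h5 : w = w + hz e := h3
      exact c1 (by simpa using h5.symm)
    · exact hlow m h4 (by omega) h3
  · right
    have hd2 : dx e s (m + 1) = turn (tf s m) (dx e s m) := dx_succ e s m
    rw [hd] at hd2
    have hs2 : vx w e s (m + 2) = vx w e s (m + 1) + dx e s (m + 1) := vx_succ w e s (m + 1)
    rw [hv] at hs2
    cases hb : tf s m
    · rw [hb] at hd2
      have hd3 : dx e s (m + 1) = rotL e := hd2.trans c13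
      rw [hd3, surg_v1'] at hs2
      refine ⟨?_, hs2⟩
      by_contra hcon
      have h4 : s.length = m + 1 := by omega
      rw [h4, hd3] at hdx
      exact c7 hdx
    · exfalso
      rw [hb] at hd2
      have hd3 : dx e s (m + 1) = -e := hd2.trans c11
      rw [hd3, ← sub_eq_add_neg, add_sub_cancel_right] at hs2
      rcases Nat.lt_or_ge (m + 1) s.length with h4 | h4
      · exact hlow (m + 2) (by omega) (by omega) hs2
      · have h5 : s.length = m + 1 := by omega
        rw [h5, hd3] at hdx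
        exact c6 hdx
  · left
    rw [hd] at hs1
    have h3 : vx w e s m = w + e + rotR e := by
      rw [← surg_v1 w e, hs1, add_sub_cancel_right]
    refine ⟨?_, h3⟩
    rcases Nat.eq_zero_or_pos m with h4 | h4
    · exfalso
      rw [h4] at h3
      have h5 : w = w + e + rotR e := h3
      rw [add_assoc] at h5
      exact c4 (by simpa using h5.symm)
    · exact h4

lemma surg_shift {v d v' d' : Pt} {t t' : List Bool} {a a' : ℕ} (hv : vx v d t a = vx v' d' t' a')
    (hd : dx d t a = dx d' t' a') (ht : ∀ k, tf t (a + k) = tf t' (a' + k)) (k : ℕ) :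
    vx v d t (a + k) = vx v' d' t' (a' + k) ∧ dx d t (a + k) = dx d' t' (a' + k) := by
  have ht' : (fun k => tf t (a + k)) = fun k => tf t' (a' + k) := funext ht
  constructor
  · show vs v d (tf t) (a + k) = vs v' d' (tf t') (a' + k)
    rw [vs_shift, vs_shift, ht']
    have h1 : vs v d (tf t) a = vs v' d' (tf t') a' := hv
    have h2 : ds d (tf t) a = ds d' (tf t') a' := hd
    rw [h1, h2]
  · show ds d (tf t) (a + k) = ds d' (tf t') (a' + k)
    rw [ds_shift, ds_shift, ht']
    have h2 : ds d (tf t) a = ds d' (tf t') a' := hd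
    rw [h2]

/-- pairs of disjoint bridges at neighbouring feet. -/
def surgP (v0 d0 : Pt) (T : ℕ) : Set (List Bool × List Bool) :=
  {p | p.1 ∈ out (strip v0 d0 T) v0 d0 d0 ∧ p.2 ∈ out (strip v0 d0 T) (v0 + hz d0) d0 d0 ∧
    ∀ i j, 1 ≤ i → i ≤ p.1.length → 1 ≤ j → j ≤ p.2.length →
      vx v0 d0 p.1 i ≠ vx (v0 + hz d0) d0 p.2 j}

lemma surg_v1_mem {w e : Pt} (he : e ∈ dirs) {T : ℕ} (hT : 1 ≤ T) : w + hz e + e ∈ strip w e T := by
  obtain ⟨c1, c2, c3, c4, c5, c6, c7, c8, c9, c10, c11, c12, c13⟩ := surg_check e he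
  have h1 : w + hz e + e - w = hz e + e := by abel
  refine ⟨Or.inr (by rw [cl_add, cl_add, c3, add_zero]), ?_, ?_⟩
  · rw [h1, c10]
    norm_num
  · rw [h1, c10]
    have : (1 : ℤ) ≤ T := by exact_mod_cast hT
    linarith

lemma surg_f1_not {w e : Pt} (he : e ∈ dirs) {T : ℕ} : w + hz e ∉ strip w e T := by
  rintro ⟨_, h1, _⟩
  rw [show w + hz e - w = hz e by abel, (surg_check e he).2.1] at h1
  exact lt_irrefl _ h1

/-- first surgery. -/
lemma surg_one {w e : Pt} (he : e ∈ dirs) {T : ℕ} (hT : 1 ≤ T) {s1 r : List Bool}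
    (h1 : s1 ∈ out (strip w e T) w e e) (h2 : false :: true :: r ∈ out (strip w e T) w e e)
    (hd : ∀ i j, 1 ≤ i → i ≤ s1.length → 2 ≤ j → j ≤ (false :: true :: r).length →
      vx w e s1 i ≠ vx w e (false :: true :: r) j) :
    (s1, true :: false :: r) ∈ surgP w e T := by
  obtain ⟨c1, c2, c3, c4, c5, c6, c7, c8, c9, c10, c11, c12, c13⟩ := surg_check e he
  set s := false :: true :: r with hs
  set s' := true :: false :: r with hs'
  have hl : s'.length = s.length := rfl
  have hl2 : 2 ≤ s.length := by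
    rw [hs]
    simp
  have e2 : vx w e s 2 = w + e + rotR e := rfl
  have e3 : vx (w + hz e) e s' 2 = w + hz e + e + rotL e := rfl
  have e4 : dx e s 2 = e := turn_turn false e
  have e5 : dx e s' 2 = e := turn_turn true e
  have hsh := surg_shift (v := w) (d := e) (v' := w + hz e) (d' := e) (t := s) (t' := s') (a := 2)
    (a' := 2) (by rw [e2, e3, surg_v1']) (by rw [e4, e5]) (fun k => by
      rw [add_comm 2 k]
      rfl)
  have hv0 : vx (w + hz e) e s' 0 = w + hz e := rfl
  have hv1 : vx (w + hz e) e s' 1 = w + hz e + e := rfl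
  have hge : ∀ k, 2 ≤ k → vx (w + hz e) e s' k = vx w e s k ∧ dx e s' k = dx e s k := by
    intro k hk
    obtain ⟨l, rfl⟩ : ∃ l, k = 2 + l := ⟨k - 2, by omega⟩
    exact ⟨((hsh l).1).symm, ((hsh l).2).symm⟩
  -- the first vertex of the neighbouring foot is free
  have hfree : ∀ k, 1 ≤ k → k ≤ s.length → vx w e s k ≠ w + hz e + e := by
    intro k hk1 hk2 heq
    obtain ⟨m, rfl⟩ : ∃ m, k = m + 1 := ⟨k - 1, by omega⟩
    have h3 : vx w e s 3 = vx w e s 2 + e := by
      rw [vx_succ, e4]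
    rcases surg_nbr he h2 hk2 heq with ⟨h4, h5⟩ | ⟨h4, h5⟩
    · have h6 : m = 2 := by
        rcases lt_trichotomy m 2 with h7 | h7 | h7
        · exact absurd (h5.trans e2.symm) (h2.1.inj m 2 h7 (by omega))
        · exact h7
        · exact absurd (h5.trans e2.symm).symm (h2.1.inj 2 m h7 (by omega))
      rw [h6, h3, e2] at heq
      have h8 : w + hz e + e = w + e + rotR e + rotR (rotR e) := by
        unfold hz
        abel
      rw [h8] at heq
      exact c9 (add_left_cancel heq).symm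
    · have h6 : m + 2 = 2 := by
        rcases lt_trichotomy (m + 2) 2 with h7 | h7 | h7
        · omega
        · exact h7
        · exact absurd (h5.trans e2.symm).symm (h2.1.inj 2 (m + 2) h7 (by omega))
      have h7 : m = 0 := by omega
      rw [h7] at heq
      have h8 : w + e = w + hz e + e := heq
      have h9 : w + e = w + (hz e + e) := by rw [h8]; abel
      have h10 := add_left_cancel h9
      exact c1 (by simpa using h10.symm)
  have hfree1 : ∀ k, 1 ≤ k → k ≤ s1.length → vx w e s1 k ≠ w + hz e + e := by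
    intro k hk1 hk2 heq
    obtain ⟨m, rfl⟩ : ∃ m, k = m + 1 := ⟨k - 1, by omega⟩
    rcases surg_nbr he h1 hk2 heq with ⟨h4, h5⟩ | ⟨h4, h5⟩
    · exact hd m 2 h4 (by omega) le_rfl hl2 (h5.trans e2.symm)
    · exact hd (m + 2) 2 (by omega) h4 le_rfl hl2 (h5.trans e2.symm)
  refine ⟨h1, ⟨⟨?_, ?_⟩, ?_, ?_⟩, ?_⟩
  · intro i hi1 hi2
    rw [hl] at hi2
    rcases Nat.lt_or_ge 1 i with h3 | h3
    · rw [(hge i h3).1]
      exact h2.1.mem i hi1 hi2
    · have h4 : i = 1 := by omega
      rw [h4, hv1]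
      exact surg_v1_mem he hT
  · intro i k hik hk
    rw [hl] at hk
    rcases Nat.lt_or_ge 1 k with h3 | h3
    · rw [(hge k h3).1]
      rcases Nat.lt_or_ge 1 i with h4 | h4
      · rw [(hge i h4).1]
        exact h2.1.inj i k hik hk
      · rcases Nat.eq_zero_or_pos i with h5 | h5
        · rw [h5, hv0]
          intro heq
          exact surg_f1_not he (heq ▸ h2.1.mem k (by omega) hk)
        · have h6 : i = 1 := by omega
          rw [h6, hv1]
          exact fun heq => hfree k (by omega) hk heq.symm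
    · have h4 : i = 0 := by omega
      have h5 : k = 1 := by omega
      rw [h4, h5, hv0, hv1]
      intro heq
      have h6 : w + hz e + e - (w + hz e) = 0 := by rw [← heq, sub_self]
      rw [add_sub_cancel_left] at h6
      rw [h6] at c5
      exact c5 (by decide)
  · unfold tip
    rw [hl, (hge _ (by omega)).1]
    exact h2.2.1
  · rw [hl, (hge _ hl2).2]
    exact h2.2.2
  · intro i j hi1 hi2 hj1 hj2
    have hj2' : j ≤ s.length := hj2
    show vx w e s1 i ≠ vx (w + hz e) e s' j
    rcases Nat.lt_or_ge 1 j with h3 | h3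
    · rw [(hge j h3).1]
      exact hd i j hi1 hi2 h3 hj2'
    · have h4 : j = 1 := by omega
      rw [h4, hv1]
      exact hfree1 i hi1 hi2

/-- second surgery. -/
lemma surg_two {w e : Pt} (he : e ∈ dirs) {T : ℕ} (hT : 1 ≤ T) {s1 r : List Bool}
    (h1 : s1 ∈ out (strip w e T) w e e) (h2 : false :: false :: true :: r ∈ out (strip w e T) w e e)
    (hd : ∀ i j, 1 ≤ i → i ≤ s1.length → 2 ≤ j → j ≤ (false :: false :: true :: r).length →
      vx w e s1 i ≠ vx w e (false :: false :: true :: r) j) :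
    (s1, false :: r) ∈ surgP w e T := by
  obtain ⟨c1, c2, c3, c4, c5, c6, c7, c8, c9, c10, c11, c12, c13⟩ := surg_check e he
  set s := false :: false :: true :: r with hs
  set s' := false :: r with hs'
  have hl : s.length = s'.length + 2 := rfl
  have hl1 : 1 ≤ s'.length := by
    rw [hs']
    simp
  have e3 : vx w e s 3 = w + e + rotR e + rotR (rotR e) := rfl
  have e3' : vx w e s 3 = w + hz e + e := by
    rw [e3]
    unfold hz
    abel
  have e4 : dx e s 3 = rotR e := turn_turn false (rotR e)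
  have hv0 : vx (w + hz e) e s' 0 = w + hz e := rfl
  have hv1 : vx (w + hz e) e s' 1 = w + hz e + e := rfl
  have e5 : dx e s' 1 = rotR e := rfl
  have hsh := surg_shift (v := w) (d := e) (v' := w + hz e) (d' := e) (t := s) (t' := s') (a := 3)
    (a' := 1) (by rw [e3', hv1]) (by rw [e4, e5]) (fun k => by
      rw [add_comm 3 k, add_comm 1 k]
      rfl)
  have hge : ∀ k, 1 ≤ k → vx (w + hz e) e s' k = vx w e s (k + 2) ∧ dx e s' k = dx e s (k + 2) := by
    intro k hk
    obtain ⟨l, rfl⟩ : ∃ l, k = 1 + l := ⟨k - 1, by omega⟩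
    rw [show 1 + l + 2 = 3 + l by ring]
    exact ⟨((hsh l).1).symm, ((hsh l).2).symm⟩
  refine ⟨h1, ⟨⟨?_, ?_⟩, ?_, ?_⟩, ?_⟩
  · intro i hi1 hi2
    have hi2' : i ≤ s'.length := hi2
    rw [(hge i hi1).1]
    exact h2.1.mem (i + 2) (by omega) (by omega)
  · intro i k hik hk
    have hk' : k ≤ s'.length := hk
    rw [(hge k (by omega)).1]
    rcases Nat.eq_zero_or_pos i with h5 | h5
    · rw [h5, hv0]
      intro heq
      exact surg_f1_not he (heq ▸ h2.1.mem (k + 2) (by omega) (by omega))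
    · rw [(hge i h5).1]
      exact h2.1.inj (i + 2) (k + 2) (by omega) (by omega)
  · unfold tip
    rw [(hge _ (by omega)).1]
    have h3 := h2.2.1
    unfold tip at h3
    rw [hl] at h3
    exact h3
  · rw [(hge _ hl1).2, ← hl]
    exact h2.2.2
  · intro i j hi1 hi2 hj1 hj2
    have hj2' : j ≤ s'.length := hj2
    show vx w e s1 i ≠ vx (w + hz e) e s' j
    rw [(hge j hj1).1]
    exact hd i (j + 2) hi1 hi2 (by omega) (by omega)

/-- the surgery on the words after the first turn. -/
def surg : List Bool → List Bool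
  | true :: r => true :: false :: r
  | false :: true :: r => false :: r
  | _ => []

lemma surg_main {w e : Pt} (he : e ∈ dirs) {T : ℕ} (hT : 1 ≤ T) {s1 s2 : List Bool}
    (h1 : s1 ∈ out (strip w e T) w e e) (h2 : false :: s2 ∈ out (strip w e T) w e e)
    (hd : ∀ i j, 1 ≤ i → i ≤ s1.length → 2 ≤ j → j ≤ (false :: s2).length →
      vx w e s1 i ≠ vx w e (false :: s2) j) :
    (s1, surg s2) ∈ surgP w e T ∧ (surg s2).length ≤ s2.length + 1 ∧
      ((∃ r, s2 = true :: r) ∨ ∃ r, s2 = false :: true :: r) := by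
  obtain ⟨c1, c2, c3, c4, c5, c6, c7, c8, c9, c10, c11, c12, c13⟩ := surg_check e he
  match s2, h2, hd with
  | [], h2, _ => exact absurd h2.2.2 c8
  | true :: r, h2, hd =>
    exact ⟨surg_one he hT h1 h2 hd, by simp [surg], Or.inl ⟨r, rfl⟩⟩
  | [false], h2, _ => exact absurd h2.2.2 c9
  | false :: true :: r, h2, hd =>
    exact ⟨surg_two he hT h1 h2 hd, by simp [surg], Or.inr ⟨r, rfl⟩⟩
  | false :: false :: r, h2, _ =>
    exfalso
    have e3 : vx w e (false :: false :: false :: r) 3 = w + e + rotR e + rotR (rotR e) := rfl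
    have e4 : dx e (false :: false :: false :: r) 3 = -e := c12
    rcases Nat.lt_or_ge 3 (false :: false :: false :: r).length with h3 | h3
    · have h4 : vx w e (false :: false :: false :: r) 4 = w + hz e := by
        rw [vx_succ, e3, e4]
        unfold hz
        abel
      exact surg_f1_not he (h4 ▸ h2.1.mem 4 (by omega) h3)
    · have h4 : (false :: false :: false :: r).length = 3 := by
        simp only [List.length_cons] at h3 ⊢
        omega
      have h5 := h2.2.2
      rw [h4, e4] at h5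
      exact c6 h5

lemma surg_inj {s s' : List Bool} (h : (∃ r, s = true :: r) ∨ ∃ r, s = false :: true :: r)
    (h' : (∃ r, s' = true :: r) ∨ ∃ r, s' = false :: true :: r) (heq : surg s = surg s') : s = s' := by
  rcases h with ⟨r, rfl⟩ | ⟨r, rfl⟩ <;> rcases h' with ⟨r', rfl⟩ | ⟨r', rfl⟩
  · simp only [surg, List.cons.injEq, true_and] at heq
    rw [heq]
  · simp [surg] at heq
  · simp [surg] at heq
  · simp only [surg, List.cons.injEq, true_and] at heq
    rw [heq]

/-! ### the set of pairs does not depend on the frame -/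

lemma surg_hz_mulE (u e : Pt) : mulE u (hz e) = hz (mulE u e) := by
  show mulE u (turn false e + turn false (turn false e)) =
    turn false (mulE u e) + turn false (turn false (mulE u e))
  rw [mulE_add, mulE_turn, mulE_turn, mulE_turn]

lemma surg_strip_foot {v0 d0 : Pt} (h0 : d0 ∈ dirs) (T : ℕ) : strip (v0 + hz d0) d0 T = strip v0 d0 T := by
  have hc := (surg_check d0 h0).2.2.1
  have hi := (surg_check d0 h0).2.1
  have e : ∀ v, ip (v - (v0 + hz d0)) d0 = ip (v - v0) d0 := by
    intro v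
    rw [show v - (v0 + hz d0) = (v - v0) - hz d0 by abel, ip_sub_left, hi, sub_zero]
  ext v
  constructor
  · rintro ⟨h1, h2, h3⟩
    rw [e] at h2 h3
    refine ⟨?_, h2, h3⟩
    rcases h1 with h1 | h1
    · left
      rw [h1, cl_add, hc, add_zero]
    · right
      rw [h1, cl_add, hc, add_zero]
  · rintro ⟨h1, h2, h3⟩
    refine ⟨?_, by rw [e]; exact h2, by rw [e]; exact h3⟩
    rcases h1 with h1 | h1
    · left
      rw [h1, cl_add, hc, add_zero]
    · right
      rw [h1, cl_add, hc, add_zero]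

lemma surg_pr_rot {e d0 : Pt} (he : e ∈ dirs) (h0 : d0 ∈ dirs) (w v0 : Pt) (T : ℕ) :
    surgP w e T ⊆ surgP v0 d0 T := by
  have hu := nrm_rotTo he h0
  have ha := rotTo_apply d0 he
  set u := rotTo e d0 with hu'
  rintro ⟨s, t⟩ ⟨h1, h2, h3⟩
  refine ⟨?_, ?_, ?_⟩
  · rw [(strip_rot he h0 w v0 T).1] at h1
    exact h1
  · rw [← surg_strip_foot he T, (strip_rot he h0 (w + hz e) (v0 + hz d0) T).1] at h2
    rw [← surg_strip_foot h0 T]
    exact h2
  · intro i j hi1 hi2 hj1 hj2 heq
    apply h3 i j hi1 hi2 hj1 hj2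
    have k1 := vx_mulE u w v0 e s i
    have k2 := vx_mulE u (w + hz e) (v0 + hz d0) e t j
    rw [ha] at k1 k2
    change vx v0 d0 s i = vx (v0 + hz d0) d0 t j at heq
    rw [k1, k2] at heq
    have hz' : hz d0 = mulE u (hz e) := by rw [surg_hz_mulE, ha]
    rw [hz', mulE_sub, mulE_sub, mulE_add] at heq
    have h4 : mulE u (vx w e s i) = mulE u (vx (w + hz e) e t j) := by
      have h6 : mulE u (vx w e s i) = v0 + (mulE u (vx w e s i) - mulE u w) - v0 + mulE u w := by
        abel
      rw [h6, heq]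
      abel
    exact mulE_inj hu h4

/-! ### the weight of the pairs -/

/-- weight of the pairs of disjoint bridges at neighbouring feet. -/
noncomputable def surgW (v0 d0 : Pt) (T : ℕ) : ℝ≥0∞ := ∑' p : surgP v0 d0 T, wE p.1.1 * wE p.1.2

lemma surg_gPR_eq (v0 d0 : Pt) (T : ℕ) : surgW v0 d0 T = P2 (strip v0 d0 T) v0 d0 0 1 ∅ := by
  have hf0 : foot v0 d0 0 = v0 := by
    unfold foot
    simp
  have hf1 : foot v0 d0 1 = v0 + hz d0 := by
    unfold foot
    simp
  have hbr : ∀ v, Br (strip v0 d0 T) ∅ v d0 = out (strip v0 d0 T) v d0 d0 := by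
    intro v
    unfold Br out
    rw [Set.sdiff_empty]
  unfold surgW P2 overBr
  rw [tsum_subtype (surgP v0 d0 T) (fun p => wE p.1 * wE p.2), hf0, hf1, ENNReal.tsum_prod']
  apply tsum_congr
  intro s
  by_cases hs : s ∈ Br (strip v0 d0 T) ∅ v0 d0
  · rw [Set.indicator_of_mem hs]
    show _ = wE s * gf (Br (strip v0 d0 T) (∅ ∪ vis v0 d0 s) (v0 + hz d0) d0)
    unfold gf
    rw [tsum_subtype (Br (strip v0 d0 T) (∅ ∪ vis v0 d0 s) (v0 + hz d0) d0) (fun t => wE t),
      ← ENNReal.tsum_mul_left]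
    apply tsum_congr
    intro t
    rw [Set.empty_union]
    by_cases ht : t ∈ Br (strip v0 d0 T) (vis v0 d0 s) (v0 + hz d0) d0
    · rw [Set.indicator_of_mem ht]
      apply Set.indicator_of_mem
      have h1 := mem_br.1 ht
      refine ⟨(hbr v0) ▸ hs, (hbr (v0 + hz d0)) ▸ h1.1, ?_⟩
      intro i j hi1 hi2 hj1 hj2 heq
      exact Set.disjoint_left.1 h1.2 ⟨i, hi1, hi2, rfl⟩ ⟨j, hj1, hj2, heq.symm⟩
    · rw [Set.indicator_of_notMem ht, mul_zero]
      apply Set.indicator_of_notMem
      rintro ⟨_, h2, h3⟩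
      apply ht
      refine mem_br.2 ⟨(hbr (v0 + hz d0)).symm ▸ h2, ?_⟩
      rw [Set.disjoint_left]
      rintro p ⟨i, hi1, hi2, rfl⟩ ⟨j, hj1, hj2, heq⟩
      exact h3 i j hi1 hi2 hj1 hj2 heq.symm
  · rw [Set.indicator_of_notMem hs, ENNReal.tsum_eq_zero]
    intro t
    apply Set.indicator_of_notMem
    rintro ⟨h1, _⟩
    exact hs ((hbr v0).symm ▸ h1)

/-- words mapped injectively to pairs. -/
lemma surg_gf_le {P : Set (List Bool)} {v0 d0 : Pt} {T : ℕ} (c : ℝ≥0∞) (f g : List Bool → List Bool)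
    (hf : ∀ t ∈ P, (f t, g t) ∈ surgP v0 d0 T)
    (hi : ∀ s ∈ P, ∀ t ∈ P, f s = f t → g s = g t → s = t)
    (hw : ∀ t ∈ P, wE t ≤ c * (wE (f t) * wE (g t))) : gf P ≤ c * surgW v0 d0 T := by
  unfold gf surgW
  rw [← ENNReal.tsum_mul_left]
  let ψ : P → surgP v0 d0 T := fun t => ⟨(f t, g t), hf t t.2⟩
  have hψ : Function.Injective ψ := by
    intro a b hab
    have h1 : f a = f b := congrArg (fun p => (p.1.1 : List Bool)) hab
    have h2 : g a = g b := congrArg (fun p => (p.1.2 : List Bool)) hab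
    exact Subtype.ext (hi a a.2 b b.2 h1 h2)
  calc ∑' t : P, wE t ≤ ∑' t : P, c * (wE (ψ t).1.1 * wE (ψ t).1.2) :=
        ENNReal.tsum_le_tsum (fun t => hw t t.2)
    _ ≤ ∑' p : surgP v0 d0 T, c * (wE p.1.1 * wE p.1.2) :=
        ENNReal.tsum_comp_le_tsum_of_injective hψ (fun p : surgP v0 d0 T => c * (wE p.1.1 * wE p.1.2))

/-! ### cutting the arcs at the first visit to the top level -/

/-- the second part of the word seen from the top foot. -/
lemma surg_after {v0 d0 : Pt} (h0 : d0 ∈ dirs) {a r : List Bool} {b : Bool}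
    (hdx : dx d0 (a ++ [!b]) (a ++ [!b]).length = d0) (k : ℕ) :
    vx (tip v0 d0 (a ++ [!b])) (-d0) ([!b] ++ r) (1 + k) =
      vx v0 d0 (a ++ ([b] ++ r)) (a.length + 1 + k) := by
  rw [dx_append_one] at hdx
  have hda : dx d0 a a.length = turn b d0 := by
    have h1 := turn_turn (!b) (dx d0 a a.length)
    rw [Bool.not_not, hdx] at h1
    exact h1.symm
  have k1 := (vx_split v0 d0 a b r k).1
  have k2 := (vx_split (tip v0 d0 (a ++ [!b])) (-d0) [] (!b) r k).1
  simp only [List.nil_append, List.length_nil, zero_add] at k2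
  rw [k1, k2]
  have e1 : tip (tip v0 d0 (a ++ [!b])) (-d0) [] = tip v0 d0 a := by
    show tip v0 d0 (a ++ [!b]) + -d0 = _
    rw [tip_append_one, hdx]
    abel
  have e2 : turn (!b) (dx (-d0) [] 0) = turn b (dx d0 a a.length) := by
    show turn (!b) (-d0) = _
    rw [hda, turn_down d0 h0]
  rw [e1, e2]

lemma surg_rev_append_one (a : List Bool) (b : Bool) : rev (a ++ [!b]) = [b] ++ rev a := by
  unfold rev
  rw [List.map_append, List.reverse_append]
  simp

/-- the first part of the word seen from the top foot. -/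
lemma surg_before {v0 d0 : Pt} {a : List Bool} {b : Bool}
    (hdx : dx d0 (a ++ [!b]) (a ++ [!b]).length = d0) (r : List Bool) {k : ℕ} (hk1 : 1 ≤ k)
    (hk : k ≤ a.length + 1) :
    vx (tip v0 d0 (a ++ [!b])) (-d0) ([b] ++ rev a) k =
      vx v0 d0 (a ++ ([b] ++ r)) (a.length + 2 - k) := by
  have hl : (a ++ [!b]).length = a.length + 1 := by simp
  have h := vx_rev v0 d0 (a ++ [!b]) k (by omega)
  rw [hdx, surg_rev_append_one, hl] at h
  rw [h, vx_append (by omega), vx_append (by omega)]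

/-- words cut with the turn `b` at the first visit to the top level. -/
def surgD (v0 d0 : Pt) (T : ℕ) (b : Bool) : Set (List Bool) :=
  {t | t ∈ out (strip v0 d0 (T + 1)) v0 d0 (-d0) ∧ ∃ a r, t = a ++ ([b] ++ r) ∧
    a ++ [!b] ∈ out (strip v0 d0 (T + 1)) v0 d0 d0 ∧
      ∃ w, [!b] ++ r ∈ out (strip w (-d0) (T + 1)) w (-d0) (-d0)}

lemma surg_frame {v0 d0 : Pt} (h0 : d0 ∈ dirs) {T : ℕ} {a r : List Bool} {b : Bool}
    (ht : a ++ ([b] ++ r) ∈ out (strip v0 d0 (T + 1)) v0 d0 (-d0))
    (h1 : a ++ [!b] ∈ out (strip v0 d0 (T + 1)) v0 d0 d0) {w' : Pt}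
    (h2 : [!b] ++ r ∈ out (strip w' (-d0) (T + 1)) w' (-d0) (-d0)) :
    ∃ w, [b] ++ rev a ∈ out (strip w (-d0) (T + 1)) w (-d0) (-d0) ∧
      [!b] ++ r ∈ out (strip w (-d0) (T + 1)) w (-d0) (-d0) ∧
      ∀ i j, 1 ≤ i → i ≤ ([b] ++ rev a).length → 1 ≤ j → j ≤ ([!b] ++ r).length → i ≠ 1 ∨ j ≠ 1 →
        vx w (-d0) ([b] ++ rev a) i ≠ vx w (-d0) ([!b] ++ r) j := by
  have hn := neg_mem_dirs h0
  have hla : (a ++ [!b]).length = a.length + 1 := by simp
  have hlev : ip (tip v0 d0 (a ++ [!b]) - v0) d0 = 3 * ((T + 1 : ℕ) : ℤ) + 2 := by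
    rcases strip_exit h0 (by omega) h1.1 h1.2.1 with ⟨h3, _⟩ | ⟨_, h3⟩
    · exfalso
      rw [h1.2.2] at h3
      exact (surg_check d0 h0).2.2.2.2.2.1 h3.symm
    · exact h3
  have hflip := strip_flip (tip_hex v0 d0 (a ++ [!b])) hlev
  have hv0 : v0 ∉ strip v0 d0 (T + 1) := by
    rintro ⟨_, h3, _⟩
    rw [sub_self] at h3
    simp [ip] at h3
  refine ⟨tip v0 d0 (a ++ [!b]), ?_, ?_, ?_⟩
  · rw [hflip, ← surg_rev_append_one]
    exact (rev_mem hv0 (⟨h1, rfl⟩ : a ++ [!b] ∈ outAt (strip v0 d0 (T + 1)) v0 d0 _ d0)).1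
  · rw [(strip_rot hn hn w' (tip v0 d0 (a ++ [!b])) (T + 1)).1] at h2
    exact h2
  · intro i j hi1 hi2 hj1 hj2 hij
    have hl1 : ([b] ++ rev a).length = a.length + 1 := by
      rw [List.length_append, rev_length]
      simp
      ring
    have hl2 : ([!b] ++ r).length = r.length + 1 := by
      simp
    have hl3 : (a ++ ([b] ++ r)).length = a.length + 1 + r.length := by
      simp
      ring
    rw [hl1] at hi2
    rw [hl2] at hj2
    obtain ⟨l, rfl⟩ : ∃ l, j = 1 + l := ⟨j - 1, by omega⟩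
    rw [surg_before h1.2.2 r hi1 hi2, surg_after h0 h1.2.2 l]
    exact ht.1.inj _ _ (by omega) (by omega)

lemma surg_xc_le_one : xc ≤ 1 := by
  have h1 : xc ^ 2 ≤ 1 := by
    rw [xc_sq, div_le_one (by positivity)]
    linarith [Real.sqrt_nonneg 2]
  exact (pow_le_one_iff_of_nonneg xc_pos.le (by norm_num)).1 h1

lemma surg_weight {t s1 s2 : List Bool} (h : s1.length + s2.length ≤ t.length + 1) :
    wE t ≤ ENNReal.ofReal xc⁻¹ * (wE s1 * wE s2) := by
  rw [← wE_append]
  unfold wE
  have hx := xc_pos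
  rw [← ENNReal.ofReal_mul (by positivity)]
  apply ENNReal.ofReal_le_ofReal
  have h1 : xc ^ (t.length + 1) ≤ xc ^ (s1 ++ s2).length := by
    apply pow_le_pow_of_le_one hx.le surg_xc_le_one
    rw [List.length_append]
    exact h
  have h2 : xc⁻¹ * xc ^ (t.length + 1) = xc ^ t.length := by
    rw [pow_succ]
    field_simp
  rw [← h2]
  exact mul_le_mul_of_nonneg_left h1 (by positivity)

lemma surg_gf_cut {v0 d0 : Pt} (h0 : d0 ∈ dirs) (T : ℕ) (b : Bool) :
    gf (surgD v0 d0 T b) ≤ ENNReal.ofReal xc⁻¹ * surgW v0 d0 (T + 1) := by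
  classical
  have hn := neg_mem_dirs h0
  have hD : ∀ t ∈ surgD v0 d0 T b, ∃ p : List Bool × List Bool, t = p.1 ++ ([b] ++ p.2) ∧
      p.1 ++ [!b] ∈ out (strip v0 d0 (T + 1)) v0 d0 d0 ∧
        ∃ w, [!b] ++ p.2 ∈ out (strip w (-d0) (T + 1)) w (-d0) (-d0) := by
    rintro t ⟨_, a, r, h⟩
    exact ⟨(a, r), h⟩
  choose! p hp1 hp2 hp3 using hD
  have hlen : ∀ t ∈ surgD v0 d0 T b, t.length = (p t).1.length + 1 + (p t).2.length := by
    intro t ht
    conv_lhs => rw [hp1 t ht]
    simp
    ring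
  cases b
  · -- b = false
    have key : ∀ t ∈ surgD v0 d0 T false, ([true] ++ (p t).2, surg (rev (p t).1)) ∈ surgP v0 d0 (T + 1) ∧
        (surg (rev (p t).1)).length ≤ (rev (p t).1).length + 1 ∧
        ((∃ r, rev (p t).1 = true :: r) ∨ ∃ r, rev (p t).1 = false :: true :: r) := by
      intro t ht
      obtain ⟨w', hw'⟩ := hp3 t ht
      have ht' := ht.1
      rw [hp1 t ht] at ht'
      obtain ⟨w, h1, h2, h3⟩ := surg_frame h0 ht' (hp2 t ht) hw'
      have h4 := surg_main hn (T := T + 1) (by omega) (s1 := [true] ++ (p t).2)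
        (s2 := rev (p t).1) h2 h1 (fun i j hi1 hi2 hj1 hj2 heq =>
          h3 j i (by omega) hj2 hi1 hi2 (Or.inl (by omega)) heq.symm)
      exact ⟨surg_pr_rot hn h0 w v0 (T + 1) h4.1, h4.2⟩
    refine surg_gf_le _ (fun t => [true] ++ (p t).2) (fun t => surg (rev (p t).1))
      (fun t ht => (key t ht).1) ?_ ?_
    · intro s hs t ht h1 h2
      have h3 : (p s).2 = (p t).2 := List.append_cancel_left h1
      have h4 := surg_inj (key s hs).2.2 (key t ht).2.2 h2
      have h5 : (p s).1 = (p t).1 := by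
        have := congrArg rev h4
        rwa [rev_rev, rev_rev] at this
      rw [hp1 s hs, hp1 t ht, h3, h5]
    · intro t ht
      apply surg_weight
      have h1 := (key t ht).2.1
      rw [rev_length] at h1
      have h2 := hlen t ht
      simp only [List.length_append, List.length_cons, List.length_nil]
      omega
  · -- b = true
    have key : ∀ t ∈ surgD v0 d0 T true, ([true] ++ rev (p t).1, surg (p t).2) ∈ surgP v0 d0 (T + 1) ∧
        (surg (p t).2).length ≤ (p t).2.length + 1 ∧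
        ((∃ r, (p t).2 = true :: r) ∨ ∃ r, (p t).2 = false :: true :: r) := by
      intro t ht
      obtain ⟨w', hw'⟩ := hp3 t ht
      have ht' := ht.1
      rw [hp1 t ht] at ht'
      obtain ⟨w, h1, h2, h3⟩ := surg_frame h0 ht' (hp2 t ht) hw'
      have h4 := surg_main hn (T := T + 1) (by omega) (s1 := [true] ++ rev (p t).1)
        (s2 := (p t).2) h1 h2 (fun i j hi1 hi2 hj1 hj2 =>
          h3 i j hi1 hi2 (by omega) hj2 (Or.inr (by omega)))
      exact ⟨surg_pr_rot hn h0 w v0 (T + 1) h4.1, h4.2⟩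
    refine surg_gf_le _ (fun t => [true] ++ rev (p t).1) (fun t => surg (p t).2)
      (fun t ht => (key t ht).1) ?_ ?_
    · intro s hs t ht h1 h2
      have h3 : rev (p s).1 = rev (p t).1 := List.append_cancel_left h1
      have h4 := surg_inj (key s hs).2.2 (key t ht).2.2 h2
      have h5 : (p s).1 = (p t).1 := by
        have := congrArg rev h3
        rwa [rev_rev, rev_rev] at this
      rw [hp1 s hs, hp1 t ht, h4, h5]
    · intro t ht
      apply surg_weight
      have h1 := (key t ht).2.1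
      have h2 := hlen t ht
      simp only [List.length_append, List.length_cons, List.length_nil, rev_length]
      omega

/-- the arcs of the strip of height T + 1 which are not in the strip of height T are bounded by the
pairs of disjoint bridges at neighbouring feet. -/
theorem AT_step {v0 d0 : Pt} (h0 : d0 ∈ dirs) (T : ℕ) :
    AT (T + 1) ≤ AT T + 2 * (ENNReal.ofReal xc⁻¹ * P2 (strip v0 d0 (T + 1)) v0 d0 0 1 ∅) := by
  classical
  have hsub : out (strip v0 d0 (T + 1)) v0 d0 (-d0) ⊆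
      out (strip v0 d0 T) v0 d0 (-d0) ∪ (surgD v0 d0 T true ∪ surgD v0 d0 T false) := by
    intro t ht
    by_cases h : t ∈ out (strip v0 d0 T) v0 d0 (-d0)
    · exact Or.inl h
    · right
      obtain ⟨a, b, r, h1, h2, h3⟩ := cut_top h0 ht h
      cases b
      · exact Or.inr ⟨ht, a, r, h1, h2, h3⟩
      · exact Or.inl ⟨ht, a, r, h1, h2, h3⟩
  have h1 : AT (T + 1) ≤ AT T + (gf (surgD v0 d0 T true) + gf (surgD v0 d0 T false)) := by
    rw [← gf_A h0 v0 (T + 1), ← gf_A h0 v0 T]
    exact (gf_mono hsub).trans ((gf_union_le _ _).trans (by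
      gcongr
      exact gf_union_le _ _))
  refine h1.trans ?_
  rw [← surg_gPR_eq, two_mul]
  gcongr
  · exact surg_gf_cut h0 T true
  · exact surg_gf_cut h0 T false

/-- the same in the notation of the board. -/
theorem AT_step_Pi2 (T : ℕ) : AT (T + 1) ≤ AT T + 2 * (ENNReal.ofReal xc⁻¹ * Pi2 (T + 1) 1) := by
  have h := AT_step (v0 := oo) (d0 := up) (by decide) T
  unfold Pi2 St
  rw [Nat.cast_one]
  exact h

end HexObs
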