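import Pool.Agent.W47.Base

/-!
W47, triangle (helper55): the weight of the walks from a foot to the side of an equilateral triangle.
-/

set_option autoImplicit false

namespace HexObs

open Complex Finset ENNReal

lemma tri_up_mem : up ∈ dirs := by decide

/-- the reflection at the vertical line through the foot. -/
lemma trap_mirror (T L : ℕ) (v : Pt) :
    v ∈ trap oo up T L ↔ oo + mulE (-1, 1) (conjE (v - oo)) ∈ trap oo up T L := by
  obtain ⟨a, b⟩ := v
  have e : oo + mulE (-1, 1) (conjE ((a, b) - oo)) = (-a, a + b) := by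
    simp only [oo, mulE, conjE, Prod.mk_sub_mk, Prod.mk_add_mk]
    congr 1 <;> ring
  rw [e]
  have h3 : (3 : ZMod 3) = 0 := three_eq
  have hcl : cl ((-a, a + b) : Pt) = cl (a, b) := by
    simp only [cl]
    push_cast
    linear_combination (-(a : ZMod 3)) * h3
  have i1 : ip ((-a, a + b) - oo) up = ip ((a, b) - oo) up := by
    simp only [oo, up, ip, Prod.mk_sub_mk]
    ring
  have i2 : ip ((-a, a + b) - oo) (rotL up) = ip ((a, b) - oo) (rotR up) := by
    simp only [oo, up, ip, rotL, rotR, Prod.mk_sub_mk]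
    ring
  have i3 : ip ((-a, a + b) - oo) (rotR up) = ip ((a, b) - oo) (rotL up) := by
    simp only [oo, up, ip, rotL, rotR, Prod.mk_sub_mk]
    ring
  show ((IsHex oo up (a, b) ∧ 0 < ip ((a, b) - oo) up ∧ ip ((a, b) - oo) up < 3 * T + 2) ∧
      ip ((a, b) - oo) (rotL up) < 3 * L ∧ ip ((a, b) - oo) (rotR up) < 3 * L) ↔
    ((IsHex oo up (-a, a + b) ∧ 0 < ip ((-a, a + b) - oo) up ∧ ip ((-a, a + b) - oo) up < 3 * T + 2) ∧
      ip ((-a, a + b) - oo) (rotL up) < 3 * L ∧ ip ((-a, a + b) - oo) (rotR up) < 3 * L)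
  unfold IsHex
  rw [hcl, i1, i2, i3]
  tauto

lemma gf_lateral_sym (T L : ℕ) : gf (out (trap oo up T L) oo up (rotL up)) = gf (out (trap oo up T L) oo up (rotR up)) := by
  have h := gf_refl (u := (-1, 1)) (by decide) oo oo up (rotL up) (trap_mirror T L)
  have e1 : mulE (-1, 1) (conjE up) = up := by decide
  have e2 : mulE (-1, 1) (conjE (rotL up)) = rotR up := by decide
  rw [e1, e2] at h
  exact h

/-- the triangle has no exits upwards. -/
lemma tri_top {r : ℕ} (hr : 1 ≤ r) : out (trap oo up (2 * r) r) oo up up = ∅ := by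
  apply Set.eq_empty_of_forall_notMem
  rintro t ⟨h1, h2, h3⟩
  obtain ⟨⟨a1, a2, a3, a4, a5⟩, -, -, -, -⟩ := dirs_distinct up tri_up_mem
  have hlen : 1 ≤ t.length := by
    by_contra hcon
    have hz : t = [] := List.length_eq_zero_iff.1 (by omega)
    rw [hz] at h2
    apply h2
    have e : tip oo up [] = (0, 1) := by decide
    rw [e]
    refine ⟨⟨Or.inr (by decide), by decide, ?_⟩, ?_, ?_⟩
    · have : ip ((0, 1) - oo) up = 2 := by decide
      rw [this]
      push_cast
      omega
    · have : ip ((0, 1) - oo) (rotL up) = 1 := by decide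
      rw [this]
      omega
    · have : ip ((0, 1) - oo) (rotR up) = 1 := by decide
      rw [this]
      omega
  rcases trap_exit tri_up_mem (by omega) hr h1 h2 with ⟨hd, hi⟩ | ⟨hd, hi⟩ | ⟨b, hd, _⟩
  · rw [h3] at hd
    exact a5 hd.symm
  · have hl := h1.mem _ hlen le_rfl
    have h5 := ip_rot_sum (vx oo up t t.length - oo) up
    have h6 := hl.2.1
    have h7 := hl.2.2
    have e0 : tip oo up t - oo = (vx oo up t t.length - oo) + dx up t t.length := by
      rw [tip_eq]
      abel
    rw [e0, ip_add_left, h3, ip_self_dir tri_up_mem] at hi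
    push_cast at hi
    linarith
  · rw [h3] at hd
    cases b
    · exact a2 hd.symm
    · exact a1 hd.symm

/-- the identity in the triangle. -/
lemma tri_identity {r : ℕ} (hr : 1 ≤ r) :
    ENNReal.ofReal (2 * Real.cos (Real.pi / 8)) * gf (out (trap oo up (2 * r) r) oo up (rotR up)) +
      ENNReal.ofReal (Real.cos (3 * Real.pi / 8)) * gf (out (trap oo up (2 * r) r) oo up (-up)) = 1 := by
  have h := trap_identity (v0 := oo) tri_up_mem (T := 2 * r) (L := r) (by omega) hr
  rw [tri_top hr, gf_lateral_sym] at h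
  have e0 : gf (∅ : Set (List Bool)) = 0 := by
    unfold gf
    simp
  rw [e0, zero_add, ← two_mul, ← mul_assoc] at h
  have e1 : ENNReal.ofReal (2 * Real.cos (Real.pi / 8)) = ENNReal.ofReal (Real.cos (Real.pi / 8)) * 2 := by
    rw [ENNReal.ofReal_mul (by norm_num), mul_comm]
    norm_num
  rw [e1]
  exact h

/-- exits through the side of the triangle are exits from the corner domain. -/
lemma tri_sub {T r : ℕ} (hr : 1 ≤ r) (hT : 2 * r ≤ T) :
    out (trap oo up (2 * r) r) oo up (rotR up) ⊆ out (corner T r) oo up (rotR up) := by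
  rintro t ⟨h1, h2, h3⟩
  have hsub : trap oo up (2 * r) r ⊆ corner T r := by
    rintro v ⟨h4, h5, h6⟩
    exact ⟨strip_mono oo up hT h4, h6⟩
  refine ⟨h1.mono hsub, ?_, h3⟩
  rintro ⟨_, h5⟩
  obtain ⟨⟨a1, a2, a3, a4, a5⟩, ⟨b1, b2, b3, b4⟩, ⟨c1, c2, c3⟩, -, -⟩ := dirs_distinct up tri_up_mem
  rcases trap_exit tri_up_mem (by omega) hr h1 h2 with ⟨hd, hi⟩ | ⟨hd, hi⟩ | ⟨b, hd, hi, _⟩
  · rw [h3] at hd
    exact c3 hd.symm
  · rw [h3] at hd
    exact a2 hd
  · rw [h3] at hd
    cases b
    · have hi' : ip (tip oo up t - oo) (rotR up) = 3 * r := hi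
      rw [hi'] at h5
      exact lt_irrefl _ h5
    · exact b1 hd

lemma tri_down {r : ℕ} (hr : 1 ≤ r) : gf (out (trap oo up (2 * r) r) oo up (-up)) ≤ AT (2 * r) := by
  rw [← gf_A tri_up_mem oo (2 * r)]
  apply gf_mono
  intro t ht
  rw [out_trap_top tri_up_mem (by omega) hr (Or.inr rfl)] at ht
  exact ht.1

/-- walks from the foot to the line through the corner have finite weight. -/
lemma sc_ne_top {T r : ℕ} (hT : 1 ≤ T) (hr : 1 ≤ r) : sc T r ≠ ∞ := by
  classical
  unfold sc
  have fact : ∀ t, t ∈ out (corner T r) oo up (rotR up) →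
      ip (tip oo up t - oo) (rotR up) = 3 * r ∧ Saw (strip oo up T) oo up t ∧
      (∀ i, i ≤ t.length → ip (vx oo up t i - oo) (rotR up) < 3 * r) ∧
      ∃ j : ℕ, 1 ≤ j ∧ j ≤ T ∧ ip (tip oo up t - oo) up = 3 * j := by
    rintro t ⟨h1, h2, h3⟩
    have hs : Saw (strip oo up T) oo up t := h1.mono (fun v hv => hv.1)
    -- a large trapezoid
    have hlt : ∀ i, i ≤ t.length → ip (vx oo up t i - oo) (rotR up) < 3 * r := by
      intro i hi
      rcases Nat.eq_zero_or_pos i with hz | hp
      · rw [hz]
        show ip (oo - oo) (rotR up) < _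
        have : ip (oo - oo) (rotR up) = 0 := by decide
        rw [this]
        omega
      · exact (h1.mem i hp hi).2
    obtain ⟨⟨a1, a2, a3, a4, a5⟩, ⟨b1, b2, b3, b4⟩, ⟨c1, c2, c3⟩, -, -⟩ := dirs_distinct up tri_up_mem
    -- the tip stays in the strip
    have htip : tip oo up t ∈ strip oo up T := by
      by_contra hcon
      rcases strip_exit tri_up_mem hT hs hcon with ⟨hd, _⟩ | ⟨hd, _⟩
      · rw [h3] at hd
        exact c3 hd.symm
      · rw [h3] at hd
        exact a2 hd
    have hge : ¬ ip (tip oo up t - oo) (rotR up) < 3 * r := fun h => h2 ⟨htip, h⟩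
    push Not at hge
    have hlast := hlt t.length le_rfl
    have e0 : tip oo up t - oo = (vx oo up t t.length - oo) + dx up t t.length := by
      rw [tip_eq]
      abel
    have hside : IsSide oo up (oo + (r : ℤ) • (up + rotR up), rotR up) :=
      trapS_side tri_up_mem T r _ (by simp [trapS])
    have e4 : ∀ w : Pt, ip (oo + (r : ℤ) • (up + rotR up) - w) (rotR up) = 3 * r - ip (w - oo) (rotR up) := by
      intro w
      have : oo + (r : ℤ) • (up + rotR up) - w = (r : ℤ) • (up + rotR up) - (w - oo) := by abel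
      rw [this, ip_sub_left, ip_smul_left, ip_add_left, ip_rotR_self tri_up_mem, ip_rotR_rotR tri_up_mem]
      ring
    obtain ⟨s1, s2, s3⟩ := side_step hside (vx_hex oo up t t.length) (dx_mem tri_up_mem t t.length)
      (by rw [e4]; linarith) (by
        rw [e4]
        have : vx oo up t t.length + dx up t t.length = tip oo up t := rfl
        rw [this]
        linarith)
    simp only [] at s2 s3
    rw [e4] at s2 s3
    have s3' : ip (tip oo up t - oo) (rotR up) = 3 * r := by
      have : vx oo up t t.length + dx up t t.length = tip oo up t := rfl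
      rw [this] at s3
      linarith
    refine ⟨s3', hs, hlt, ?_⟩
    -- the level of the tip
    have hdvd : (3 : ℤ) ∣ ip (tip oo up t - oo) up := by
      have hodd : ¬ Even t.length := by
        intro he
        have h5 := cl_dx up t t.length
        rw [if_pos he, h3] at h5
        revert h5
        decide
      have hev : Even (t.length + 1) := by
        rw [Nat.even_add_one]
        exact hodd
      have h6 : cl (tip oo up t) = cl oo := by
        have := cl_vx oo up t (t.length + 1)
        rw [if_pos hev] at this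
        exact this
      have h7 : ((ip (tip oo up t - oo) up : ℤ) : ZMod 3) = 0 := by
        rw [ip_mod, cl_sub, h6]
        ring
      exact (ZMod.intCast_zmod_eq_zero_iff_dvd _ 3).1 h7
    obtain ⟨q, hq⟩ := hdvd
    have p1 := htip.2.1
    have p2 := htip.2.2
    refine ⟨q.toNat, ?_, ?_, ?_⟩ <;> omega
  have hcover : out (corner T r) oo up (rotR up) ⊆
      ⋃ j ∈ Finset.range (T + 1), {t | t ∈ out (corner T r) oo up (rotR up) ∧ ip (tip oo up t - oo) up = 3 * (j : ℤ)} := by
    intro t ht
    obtain ⟨_, _, _, j, hj1, hj2, hj3⟩ := fact t ht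
    simp only [Set.mem_iUnion]
    exact ⟨j, Finset.mem_range.2 (by omega), ht, hj3⟩
  have hle := (gf_mono hcover).trans (ENNReal.tsum_biUnion_le wE _ _)
  refine ne_top_of_le_ne_top ?_ hle
  apply ENNReal.sum_ne_top.2
  intro j _
  have hbound : gf {t | t ∈ out (corner T r) oo up (rotR up) ∧ ip (tip oo up t - oo) up = 3 * (j : ℤ)} ≤
      ENNReal.ofReal ((xc ^ (2 * (T - j) + 1))⁻¹) * gf (out (strip oo up T) oo up up) := by
    apply gf_le_of_inj (fun t => t ++ zig false (T - j))
    · rintro t ⟨ht, hj⟩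
      obtain ⟨hi, hs, hlt, j', hj1, hj2, hj3⟩ := fact t ht
      have hjj : j' = j := by
        rw [hj3] at hj
        omega
      rw [hjj] at hj1 hj2
      apply zig_out tri_up_mem false T (T - j) t hs ht.2.2
      · intro i hi'
        have h8 := hlt i hi'
        show ip (vx oo up t i - oo) (rotR up) < ip (tip oo up t - oo) (rotR up)
        rw [hi]
        exact h8
      · rw [hj, Nat.cast_sub hj2]
        ring
      · rw [hj]
        have : (1 : ℤ) ≤ j := by exact_mod_cast hj1
        linarith
    · intro t _ s _ hts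
      exact List.append_cancel_right hts
    · intro t _
      rw [wE_append]
      have e1 : wE (zig false (T - j)) = ENNReal.ofReal (xc ^ (2 * (T - j) + 1)) := by
        unfold wE
        rw [zig_length]
      rw [e1, mul_comm (wE t), ← mul_assoc, ← ENNReal.ofReal_mul (by
        have := xc_pos
        positivity), inv_mul_cancel₀ (pow_ne_zero _ xc_pos.ne'), ENNReal.ofReal_one, one_mul]
  refine ne_top_of_le_ne_top ?_ hbound
  apply ENNReal.mul_ne_top ENNReal.ofReal_ne_top
  exact ne_top_of_le_ne_top ENNReal.one_ne_top (gf_top_le_one tri_up_mem hT)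

theorem triangle {T r : ℕ} (hr : 1 ≤ r) (hT : 2 * r ≤ T) :
    bT (2 * r) ≤ 2 * Real.cos (Real.pi / 8) * (sc T r).toReal := by
  have hfin := sc_ne_top (T := T) (r := r) (by omega) hr
  have h1 := tri_identity hr
  have h2 : (1 : ℝ≥0∞) ≤ ENNReal.ofReal (2 * Real.cos (Real.pi / 8)) * sc T r +
      ENNReal.ofReal (Real.cos (3 * Real.pi / 8)) * AT (2 * r) := by
    rw [← h1]
    gcongr
    · exact gf_mono (tri_sub hr hT)
    · exact tri_down hr
  have hc1 : 0 ≤ 2 * Real.cos (Real.pi / 8) := by
    have := cos_pos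
    positivity
  have e1 : sc T r = ENNReal.ofReal (sc T r).toReal := (ENNReal.ofReal_toReal hfin).symm
  rw [e1, ← ofReal_aT (T := 2 * r) (by omega), ← ENNReal.ofReal_mul hc1, ← ENNReal.ofReal_mul cos3_pos.le,
    ← ENNReal.ofReal_add (mul_nonneg hc1 ENNReal.toReal_nonneg) (mul_nonneg cos3_pos.le (aT_nonneg _)),
    ← ENNReal.ofReal_one] at h2
  have h3 := (ENNReal.ofReal_le_ofReal_iff
    (add_nonneg (mul_nonneg hc1 ENNReal.toReal_nonneg) (mul_nonneg cos3_pos.le (aT_nonneg _)))).1 h2
  have h4 := bT_add_aT (T := 2 * r) (by omega)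
  linarith

end HexObs
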