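import Pool.Agent.W47.T3
import Pool.Agent.W47.K2
import Pool.Agent.W47.K3
import Pool.Agent.W47.Triangle
import Pool.Agent.W47.CF
import Pool.Agent.W47.K1
import Pool.Agent.W47.K4
import Pool.Agent.W47.K5
import Pool.Agent.W47.IneqA
import Pool.Agent.W47.IneqB
import Pool.Agent.W47.Surgery

/-!
W47: assembly.
-/

set_option autoImplicit false

namespace HexObs

open Complex Finset ENNReal

lemma Pi2_ne_top {T : ℕ} (hT : 1 ≤ T) (d : ℕ) : Pi2 T d ≠ ∞ :=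
  ne_top_of_le_ne_top (ENNReal.mul_ne_top (BT_ne_top hT) (BT_ne_top hT)) (Pi2_le hT d)

theorem ineqA {T : ℕ} (hT : 1 ≤ T) (D : ℕ) :
    (1 - 1 / Real.sqrt 2) * (Pi2 T 1).toReal * ∑ j ∈ Finset.range D, (tail T (j + 1)).toReal ≤
      Real.sin (3 * Real.pi / 8) * ((Pi2 T (D + 1)).toReal - (Pi2 T 1).toReal) :=
  ineqA_of hT (fun _ hd => T3 hT hd) (fun _ hd => Ain_eq hT hd) (fun _ hd => Aout_eq hT hd)
    (A3_symm T) (A3_le T) (arcs_total hT) (Pi3_le hT) (Pi2_le hT 1) D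

/-- (C) two bridges from neighbouring feet repel each other -/
theorem repulsion {T : ℕ} (hT : 1 ≤ T) :
    (Pi2 T 1).toReal * (1 + (Real.sqrt 2 - 1) ^ 3 * ∑ r ∈ Finset.range (T / 2), bT (2 * (r + 1))) ≤
      bT T ^ 2 := by
  apply W47.repulsion_num (pD := (Pi2 T (T / 2 + 1)).toReal) (fun r => (tail T r).toReal)
    (fun r => (sc T r).toReal) bT ENNReal.toReal_nonneg (ineqA hT (T / 2)) (ineqB hT (T / 2))
  · intro r hr
    rw [Finset.mem_range] at hr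
    exact triangle (by omega) (by omega)
  · have h := ENNReal.toReal_mono (ENNReal.mul_ne_top (BT_ne_top hT) (BT_ne_top hT))
      (Pi2_le hT (T / 2 + 1))
    rw [ENNReal.toReal_mul] at h
    rw [pow_two]
    exact h

/-- (D) the loss of the bridges from height T to height T+1 -/
theorem loss {T : ℕ} (hT : 1 ≤ T) : bT T - bT (T + 1) ≤ Real.sqrt 2 * (Pi2 (T + 1) 1).toReal := by
  have hx : 0 < xc⁻¹ := inv_pos.2 xc_pos
  have h1 : AT (T + 1) ≤ AT T + 2 * (ENNReal.ofReal xc⁻¹ * Pi2 (T + 1) 1) := AT_step_Pi2 T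
  have hfin : AT T + 2 * (ENNReal.ofReal xc⁻¹ * Pi2 (T + 1) 1) ≠ ∞ := by
    apply ENNReal.add_ne_top.2 ⟨AT_ne_top hT, ?_⟩
    exact ENNReal.mul_ne_top (by norm_num)
      (ENNReal.mul_ne_top ENNReal.ofReal_ne_top (Pi2_ne_top (by omega) 1))
  have h2 := ENNReal.toReal_mono hfin h1
  rw [ENNReal.toReal_add (AT_ne_top hT) (ENNReal.mul_ne_top (by norm_num)
      (ENNReal.mul_ne_top ENNReal.ofReal_ne_top (Pi2_ne_top (by omega) 1))),
    ENNReal.toReal_mul, ENNReal.toReal_mul, ENNReal.toReal_ofReal hx.le] at h2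
  have h3 : aT (T + 1) ≤ aT T + 2 * (xc⁻¹ * (Pi2 (T + 1) 1).toReal) := by
    simpa [aT] using h2
  have h4 := bT_add_aT hT
  have h5 := bT_add_aT (T := T + 1) (by omega)
  have h6 := kappa_eq
  have h7 : Real.cos (3 * Real.pi / 8) * aT (T + 1) ≤
      Real.cos (3 * Real.pi / 8) * (aT T + 2 * (xc⁻¹ * (Pi2 (T + 1) 1).toReal)) :=
    mul_le_mul_of_nonneg_left h3 cos3_pos.le
  have h8 : Real.cos (3 * Real.pi / 8) * (2 * (xc⁻¹ * (Pi2 (T + 1) 1).toReal)) =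
      Real.sqrt 2 * (Pi2 (T + 1) 1).toReal := by
    calc Real.cos (3 * Real.pi / 8) * (2 * (xc⁻¹ * (Pi2 (T + 1) 1).toReal)) =
        2 * (Real.cos (3 * Real.pi / 8) * xc⁻¹) * (Pi2 (T + 1) 1).toReal := by ring
      _ = _ := by rw [h6]; ring
  linarith

/-- **main inequality** -/
theorem W47_main {T : ℕ} (hT : 1 ≤ T) :
    (bT T - bT (T + 1)) *
      (1 + (Real.sqrt 2 - 1) ^ 3 * ∑ r ∈ Finset.range ((T + 1) / 2), bT (2 * (r + 1))) ≤
      Real.sqrt 2 * bT (T + 1) ^ 2 := by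
  have h1 := loss hT
  have h2 := repulsion (T := T + 1) (by omega)
  have hs2 : 1 < Real.sqrt 2 := by
    rw [Real.lt_sqrt (by norm_num)]; norm_num
  have hk : 0 < (Real.sqrt 2 - 1) ^ 3 := by
    have : 0 < Real.sqrt 2 - 1 := by linarith
    positivity
  have hV : 0 ≤ ∑ r ∈ Finset.range ((T + 1) / 2), bT (2 * (r + 1)) :=
    Finset.sum_nonneg fun r _ => bT_nonneg _
  have hden : 0 ≤ 1 + (Real.sqrt 2 - 1) ^ 3 * ∑ r ∈ Finset.range ((T + 1) / 2), bT (2 * (r + 1)) := by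
    have := mul_nonneg hk.le hV
    linarith
  calc (bT T - bT (T + 1)) *
      (1 + (Real.sqrt 2 - 1) ^ 3 * ∑ r ∈ Finset.range ((T + 1) / 2), bT (2 * (r + 1))) ≤
      Real.sqrt 2 * (Pi2 (T + 1) 1).toReal *
      (1 + (Real.sqrt 2 - 1) ^ 3 * ∑ r ∈ Finset.range ((T + 1) / 2), bT (2 * (r + 1))) :=
        mul_le_mul_of_nonneg_right h1 hden
    _ = Real.sqrt 2 * ((Pi2 (T + 1) 1).toReal *
      (1 + (Real.sqrt 2 - 1) ^ 3 * ∑ r ∈ Finset.range ((T + 1) / 2), bT (2 * (r + 1)))) := by ring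
    _ ≤ Real.sqrt 2 * bT (T + 1) ^ 2 := mul_le_mul_of_nonneg_left h2 (by positivity)

/-- the exponent -/
noncomputable def CW : ℝ := 2 * Real.sqrt 2 / (Real.sqrt 2 - 1) ^ 3

/-- **regularity and growth of the critical bridge weights of the honeycomb lattice** -/
theorem W47_final :
    (∀ T : ℕ, 1 ≤ T → ∑ t ∈ Finset.Icc 1 T, bT t ≤ (2 + CW) * (T * bT T)) ∧
    (∀ T : ℕ, 1 ≤ T → bT 1 * ((T : ℝ) + 1) ^ (1 / (2 + CW)) ≤ 2 * ∑ t ∈ Finset.Icc 1 T, bT t) ∧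
    (∀ T : ℕ, 1 ≤ T → bT 1 / (1 + CW) * ((T : ℝ) + 1) ^ (1 / (2 + CW) - 1) ≤ bT T) :=
  W47.final_num (fun _ hT => bT_pos hT) (fun _ hT => bT_antitone hT)
    (by
      have h := bT_add_aT le_rfl
      have := mul_nonneg cos3_pos.le (aT_nonneg 1)
      linarith) (fun _ hT => W47_main hT)

end HexObs
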