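import Pool.Agent.W47.Bridge3
import Pool.Agent.W47.K1
import Pool.Agent.W47.K5
import Pool.Agent.HexObs.NI

/-!
The bridge between the words and the lists of sites of the brick wall.
-/

set_option autoImplicit false

open ENNReal

namespace HexObs

namespace CC

/-- The critical weight `μ ^ (-n)` of a walk with `n` sites, `μ = √(2 + √2)`. -/
noncomputable def wt (L : List (ℤ × ℤ)) : ℝ≥0∞ :=
  ENNReal.ofReal ((Real.sqrt (2 + Real.sqrt 2))⁻¹ ^ L.length)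

/-- Weight of the crossings of `T` rows from `(0, 1)` to `(b, T)`. -/
noncomputable def E (T : ℕ) (b : ℤ) : ℝ≥0∞ := ∑' L : {L // Crossing T 0 b L}, wt L

/-- Weight of all the crossings of `T` rows from `(0, 1)`. -/
noncomputable def B (T : ℕ) : ℝ≥0∞ := ∑' b : ℤ, E T b

/-- `B 1 + ... + B T`. -/
noncomputable def U (T : ℕ) : ℝ≥0∞ := ∑ t ∈ Finset.Icc 1 T, B t

/-- Weight of the pairs of crossings of `T` rows, from `(0, 1)` and from `(2, 1)`, that have no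
common site. -/
noncomputable def D (T : ℕ) : ℝ≥0∞ :=
  ∑' P : {P : List (ℤ × ℤ) × List (ℤ × ℤ) //
    (∃ b, Crossing T 0 b P.1) ∧ (∃ b, Crossing T 2 b P.2) ∧ P.1.Disjoint P.2},
    wt P.1.1 * wt P.1.2

lemma xc_eq : xc = (Real.sqrt (2 + Real.sqrt 2))⁻¹ := by
  have h1 : 0 ≤ xc := xc_pos.le
  have h2 : 0 ≤ (Real.sqrt (2 + Real.sqrt 2))⁻¹ := by positivity
  have h3 : xc ^ 2 = ((Real.sqrt (2 + Real.sqrt 2))⁻¹) ^ 2 := by
    rw [xc_sq, inv_pow, Real.sq_sqrt (by positivity), one_div]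
  exact (sq_eq_sq₀ h1 h2).1 h3

lemma wt_toL (v0 : Pt) (t : List Bool) : wt (toL v0 t) = wE t := by
  unfold wt wE
  rw [toL_length, ← xc_eq]

lemma top_inj {T : ℕ} {b c : ℤ} (h : top T b = top T c) : b = c := by
  have h1 := ps_inj h
  simp only [Prod.mk.injEq, and_true] at h1
  exact h1

theorem sum_crossing {T : ℕ} (hT : 1 ≤ T) {v0 : Pt} (h0 : lv v0 = 0) (ha : Even v0.1) (b : ℤ) :
    ∑' L : {L // Crossing T v0.1 b L}, wt L = gf (BrAt (St T) v0 up (top T b)) := by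
  have hmap : ∀ t : BrAt (St T) v0 up (top T b), Crossing T v0.1 b (toL v0 t.1) := by
    intro t
    obtain ⟨b', h1, h2⟩ := crossing_toL hT h0 t.2.1
    have h3 : b' = b := by
      rw [t.2.2] at h2
      exact (top_inj h2).symm
    exact h3 ▸ h1
  let f : BrAt (St T) v0 up (top T b) → {L // Crossing T v0.1 b L} := fun t => ⟨toL v0 t.1, hmap t⟩
  have hf : Function.Bijective f := by
    constructor
    · intro t s h
      exact Subtype.ext (toL_inj h0 t.2.1 s.2.1 (congrArg Subtype.val h))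
    · rintro ⟨L, hL⟩
      obtain ⟨h1, h2, h3⟩ := toW_spec ha h0 rfl hL
      exact ⟨⟨toW T v0.1 b L, h1, h3⟩, Subtype.ext h2⟩
  unfold gf
  rw [← (Equiv.ofBijective f hf).tsum_eq]
  apply tsum_congr
  intro t
  show wt (toL v0 t.1) = wE t.1
  exact wt_toL _ _

lemma lv_oo : lv oo = 0 := by
  simp [lv, oo]

theorem E_eq {T : ℕ} (hT : 1 ≤ T) (b : ℤ) : E T b = gf (BrAt (strip oo up T) oo up (top T b)) :=
  sum_crossing hT lv_oo (by simp [oo]) b

lemma out_eq_iUnion {T : ℕ} (hT : 1 ≤ T) {v0 : Pt} (h0 : lv v0 = 0) :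
    out (St T) v0 up up = ⋃ b : ℤ, BrAt (St T) v0 up (top T b) := by
  ext t
  rw [Set.mem_iUnion]
  constructor
  · intro ht
    obtain ⟨b, _, h2⟩ := crossing_toL hT h0 ht
    exact ⟨b, ht, h2⟩
  · rintro ⟨b, h, _⟩
    exact h

theorem B_eq {T : ℕ} (hT : 1 ≤ T) : B T = BT T := by
  have h1 : BT T = gf (out (St T) oo up up) := rfl
  rw [h1, out_eq_iUnion hT lv_oo, K1.gf_iUnion]
  · unfold B
    apply tsum_congr
    intro b
    exact E_eq hT b
  · rintro i j t ⟨_, h2⟩ ⟨_, h3⟩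
    rw [h2] at h3
    exact top_inj h3

lemma foot_zero : foot oo up 0 = oo := by
  unfold foot
  rw [zero_smul, add_zero]

lemma foot_one : foot oo up 1 = (2, -1) := by decide

lemma disjoint_iff {v0 v1 : Pt} (h0 : lv v0 = 0) (h1 : lv v1 = 0) (s t : List Bool) :
    (toL v0 s).Disjoint (toL v1 t) ↔ Disjoint (vis v0 up s) (vis v1 up t) := by
  rw [Set.disjoint_left]
  constructor
  · rintro h p hp hq
    exact h (mem_toL.2 ⟨p, hp, rfl⟩) (mem_toL.2 ⟨p, hq, rfl⟩)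
  · intro h q hq hq'
    obtain ⟨p, hp, rfl⟩ := mem_toL.1 hq
    obtain ⟨p', hp', he⟩ := mem_toL.1 hq'
    have h2 : p' = p := by
      obtain ⟨i, _, _, rfl⟩ := hp
      obtain ⟨j, _, _, rfl⟩ := hp'
      exact ph_inj (lv_vx_ne h1 t j) (lv_vx_ne h0 s i) he
    rw [h2] at hp'
    exact h hp hp'

theorem D_eq {T : ℕ} (hT : 1 ≤ T) : D T = Pi2 T 1 := by
  set f0 := foot oo up 0 with hf0
  set f1 := foot oo up 1 with hf1
  have hl0 : lv f0 = 0 := by
    rw [hf0, foot_zero]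
    exact lv_oo
  have hl1 : lv f1 = 0 := by
    rw [hf1, foot_one]
    rfl
  have ha0 : f0.1 = 0 := by
    rw [hf0, foot_zero]
    rfl
  have ha1 : f1.1 = 2 := by
    rw [hf1, foot_one]
  have e0 : Pi2 T 1 = ∑' s : Br (St T) ∅ f0 up, ∑' t : Br (St T) (∅ ∪ vis f0 up s.1) f1 up, wE s.1 * wE t.1 := by
    unfold Pi2 P2 overBr
    rw [← tsum_subtype (Br (St T) ∅ (foot oo up 0) up)
      (fun s => wE s * gf (Br (St T) (∅ ∪ vis (foot oo up 0) up s) (foot oo up ((1 : ℕ) : ℤ)) up))]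
    apply tsum_congr
    intro s
    rw [ENNReal.tsum_mul_left]
    rfl
  have e1 : Pi2 T 1 = ∑' p : (s : Br (St T) ∅ f0 up) × Br (St T) (∅ ∪ vis f0 up s.1) f1 up,
      wE p.1.1 * wE p.2.1 := by
    rw [e0, ENNReal.tsum_sigma']
  rw [e1]
  have hmap : ∀ p : (s : Br (St T) ∅ f0 up) × Br (St T) (∅ ∪ vis f0 up s.1) f1 up,
      (∃ b, Crossing T 0 b (toL f0 p.1.1)) ∧ (∃ b, Crossing T 2 b (toL f1 p.2.1)) ∧
        (toL f0 p.1.1).Disjoint (toL f1 p.2.1) := by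
    rintro ⟨⟨s, hs⟩, ⟨t, ht⟩⟩
    simp only at ht ⊢
    rw [mem_br, Set.empty_union] at ht
    rw [br_empty] at hs
    obtain ⟨ht1, ht2⟩ := ht
    rw [br_empty] at ht1
    obtain ⟨b, h1, _⟩ := crossing_toL hT hl0 hs
    obtain ⟨c, h2, _⟩ := crossing_toL hT hl1 ht1
    rw [ha0] at h1
    rw [ha1] at h2
    exact ⟨⟨b, h1⟩, ⟨c, h2⟩, (disjoint_iff hl0 hl1 s t).2 ht2⟩
  let F : ((s : Br (St T) ∅ f0 up) × Br (St T) (∅ ∪ vis f0 up s.1) f1 up) →
      {P : List (ℤ × ℤ) × List (ℤ × ℤ) //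
        (∃ b, Crossing T 0 b P.1) ∧ (∃ b, Crossing T 2 b P.2) ∧ P.1.Disjoint P.2} :=
    fun p => ⟨(toL f0 p.1.1, toL f1 p.2.1), hmap p⟩
  have hF : Function.Bijective F := by
    constructor
    · rintro ⟨⟨s, hs⟩, ⟨t, ht⟩⟩ ⟨⟨s', hs'⟩, ⟨t', ht'⟩⟩ h
      have h1 := congrArg (fun x => x.1.1) h
      have h2 := congrArg (fun x => x.1.2) h
      have h1' : toL f0 s = toL f0 s' := h1
      have h2' : toL f1 t = toL f1 t' := h2
      have e1 : s = s' := by
        rw [br_empty] at hs hs'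
        exact toL_inj hl0 hs hs' h1'
      subst e1
      have e2 : t = t' := by
        have h3 := (mem_br.1 ht).1
        have h4 := (mem_br.1 ht').1
        rw [br_empty] at h3 h4
        exact toL_inj hl1 h3 h4 h2'
      subst e2
      rfl
    · rintro ⟨⟨L, M⟩, ⟨b, hL⟩, ⟨c, hM⟩, hd⟩
      simp only at hL hM hd
      obtain ⟨h1, h2, _⟩ := toW_spec (v0 := f0) (by decide) hl0 ha0 hL
      obtain ⟨h3, h4, _⟩ := toW_spec (v0 := f1) (by decide) hl1 ha1 hM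
      have hd' : Disjoint (vis f0 up (toW T 0 b L)) (vis f1 up (toW T 2 c M)) := by
        rw [← disjoint_iff hl0 hl1, h2, h4]
        exact hd
      refine ⟨⟨⟨toW T 0 b L, ?_⟩, ⟨toW T 2 c M, ?_⟩⟩, ?_⟩
      · rw [br_empty]
        exact h1
      · rw [mem_br, Set.empty_union, br_empty]
        exact ⟨h3, hd'⟩
      · apply Subtype.ext
        show (toL f0 (toW T 0 b L), toL f1 (toW T 2 c M)) = (L, M)
        rw [h2, h4]
  unfold D
  rw [← (Equiv.ofBijective F hF).tsum_eq]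
  apply tsum_congr
  rintro ⟨⟨s, hs⟩, ⟨t, ht⟩⟩
  show wt (toL f0 s) * wt (toL f1 t) = wE s * wE t
  rw [wt_toL, wt_toL]

end CC

end HexObs
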