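import Pool.Agent.HexObs.WDefs

/-!
W47: common definitions over HexObs.WDefs.
Everything in the strip `St T = strip oo up T` with base line through the origin.
-/

set_option autoImplicit false

namespace HexObs

open Complex Finset ENNReal

/-- the origin -/
def oo : Pt := (0, 0)
/-- the upward direction -/
def up : Pt := (0, 1)
/-- the strip of height T -/
def St (T : ℕ) : Set Pt := strip oo up T

/-- weight of the pairs of disjoint bridges of the strip at distance d -/
noncomputable def Pi2 (T d : ℕ) : ℝ≥0∞ := P2 (St T) oo up 0 d ∅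
/-- weight of the triples of disjoint bridges from the feet 0, 1, 1+d -/
noncomputable def Pi3 (T d : ℕ) : ℝ≥0∞ := P3 (St T) oo up 0 1 (1 + d) ∅
/-- bridges from 0 and 1 and an arc from foot i to foot j, all disjoint -/
noncomputable def A3 (T : ℕ) (i j : ℤ) : ℝ≥0∞ :=
  Q2 (St T) oo up 0 1 (fun Z => Arc (St T) Z (foot oo up i) up (foot oo up j)) ∅
/-- explorer from 1+d landing on the left -/
noncomputable def Ain (T d : ℕ) : ℝ≥0∞ :=
  Q2 (St T) oo up 0 1 (fun Z => DnL (St T) Z (foot oo up (1 + d)) up) ∅
/-- explorer from 1+d landing on the right -/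
noncomputable def Aout (T d : ℕ) : ℝ≥0∞ :=
  Q2 (St T) oo up 0 1 (fun Z => DnR (St T) Z (foot oo up (1 + d)) up) ∅
/-- arcs over distance k -/
noncomputable def GG (T k : ℕ) : ℝ≥0∞ := gf (Arc (St T) ∅ oo up (foot oo up k))
/-- arcs over distance at least r -/
noncomputable def tail (T r : ℕ) : ℝ≥0∞ := ∑' k : ℕ, GG T (r + k)
/-- the part of the strip on the left of the line through the corner at distance r -/
def corner (T r : ℕ) : Set Pt := {v | v ∈ St T ∧ ip (v - oo) (rotR up) < 3 * r}
/-- walks from foot 0 to the line through the corner at distance r -/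
noncomputable def sc (T r : ℕ) : ℝ≥0∞ := gf (out (corner T r) oo up (rotR up))

/-- pairs of legs from the vertex above foot 0, left and right, otherwise disjoint (vertex counted
once) -/
noncomputable def PV (T : ℕ) : ℝ≥0∞ :=
  ∑' p : {p : List Bool × List Bool | (true :: p.1) ∈ Br (St T) ∅ oo up ∧
    (false :: p.2) ∈ Br (St T) ∅ oo up ∧
    vis oo up (true :: p.1) ∩ vis oo up (false :: p.2) ⊆ {oo + up}},
    ENNReal.ofReal xc * wE p.1.1 * wE p.1.2

end HexObs
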