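import Pool.Agent.W47.Final
import Pool.Agent.HexObs.NI

/-!
W47: the final inequalities with explicit constants, in extended nonnegative reals.
-/

set_option autoImplicit false

namespace HexObs

open Complex Finset ENNReal

/-- the sum of the first `T` critical crossing weights. -/
noncomputable def UT (T : ℕ) : ℝ≥0∞ := ∑ t ∈ Icc 1 T, BT t

/-- the same as a real number. -/
noncomputable def uT (T : ℕ) : ℝ := ∑ t ∈ Icc 1 T, bT t

lemma ofReal_uT (T : ℕ) : ENNReal.ofReal (uT T) = UT T := by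
  unfold uT UT
  rw [ENNReal.ofReal_sum_of_nonneg (fun t _ => bT_nonneg t)]
  exact sum_congr rfl fun t ht => ofReal_bT (by rw [mem_Icc] at ht; exact ht.1)

lemma bT_anti {s t : ℕ} (hs : 1 ≤ s) (h : s ≤ t) : bT t ≤ bT s := by
  induction t, h using Nat.le_induction with
  | base => exact le_rfl
  | succ t ht ih => exact (bT_antitone (by omega)).trans ih

lemma bT_le_one {T : ℕ} (hT : 1 ≤ T) : bT T ≤ 1 := by
  have h := bT_add_aT hT
  have := mul_nonneg cos3_pos.le (aT_nonneg T)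
  linarith

lemma uT_pos {T : ℕ} (hT : 1 ≤ T) : 0 < uT T :=
  sum_pos (fun t ht => bT_pos (by rw [mem_Icc] at ht; exact ht.1)) ⟨1, by rw [mem_Icc]; omega⟩

lemma uT_mono {s t : ℕ} (h : s ≤ t) : uT s ≤ uT t :=
  sum_le_sum_of_subset_of_nonneg (Icc_subset_Icc_right h) (fun _ _ _ => bT_nonneg _)

lemma mul_le_uT {T : ℕ} : (T : ℝ) * bT T ≤ uT T := by
  calc (T : ℝ) * bT T = ∑ _t ∈ Icc 1 T, bT T := by
        rw [sum_const, Nat.card_Icc, nsmul_eq_mul]
        congr 1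
    _ ≤ _ := sum_le_sum fun t ht => bT_anti (by rw [mem_Icc] at ht; exact ht.1)
        (by rw [mem_Icc] at ht; exact ht.2)

/-- the sum over the even heights is at least one half. -/
lemma uT_le (T : ℕ) : uT T ≤ bT 1 + 2 * ∑ r ∈ range (T / 2), bT (2 * (r + 1)) := by
  have key : ∀ k : ℕ, uT (2 * k + 1) ≤ bT 1 + 2 * ∑ r ∈ range k, bT (2 * (r + 1)) := by
    intro k
    induction k with
    | zero => simp [uT]
    | succ k ih =>
      have e : uT (2 * (k + 1) + 1) = uT (2 * k + 1) + bT (2 * (k + 1)) + bT (2 * (k + 1) + 1) := by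
        unfold uT
        rw [show 2 * (k + 1) + 1 = (2 * k + 1) + 1 + 1 by ring, sum_Icc_succ_top (by omega),
          sum_Icc_succ_top (by omega)]
        rfl
      rw [e, sum_range_succ]
      have := bT_anti (s := 2 * (k + 1)) (t := 2 * (k + 1) + 1) (by omega) (by omega)
      linarith
  exact (uT_mono (by omega)).trans (key (T / 2))

lemma sqrt2_lo : (1.4142 : ℝ) < Real.sqrt 2 := by
  rw [Real.lt_sqrt (by norm_num)]; norm_num

lemma sqrt2_hi : Real.sqrt 2 < 1.41422 := by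
  rw [Real.sqrt_lt' (by norm_num)]; norm_num

lemma k3_eq : (Real.sqrt 2 - 1) ^ 3 * (Real.sqrt 2 + 1) ^ 3 = 1 := by
  rw [← mul_pow]
  have : (Real.sqrt 2 - 1) * (Real.sqrt 2 + 1) = 1 := by
    have := Real.sq_sqrt (show (0 : ℝ) ≤ 2 by norm_num)
    nlinarith
  rw [this, one_pow]

lemma k3_pos : 0 < (Real.sqrt 2 - 1) ^ 3 := by
  have : 0 < Real.sqrt 2 - 1 := by linarith [sqrt2_lo]
  positivity

/-- pairs: explicit constant. -/
theorem pairs_real {T : ℕ} (hT : 1 ≤ T) :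
    (Pi2 T 1).toReal * uT T ≤ 2 * (Real.sqrt 2 + 1) ^ 3 * bT T ^ 2 := by
  have h := repulsion hT
  have hu := uT_le T
  have h1 := bT_le_one le_rfl
  have hP : 0 ≤ (Pi2 T 1).toReal := ENNReal.toReal_nonneg
  set S := ∑ r ∈ range (T / 2), bT (2 * (r + 1)) with hS
  set k := (Real.sqrt 2 - 1) ^ 3 with hk
  set K := (Real.sqrt 2 + 1) ^ 3 with hK
  have hkK : k * K = 1 := k3_eq
  have hk0 : 0 < k := k3_pos
  have hK1 : 1 ≤ K := by
    rw [hK]
    apply one_le_pow₀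
    linarith [sqrt2_lo]
  have e1 : uT T ≤ 2 * K * (1 + k * S) := by
    have : 2 * K * (1 + k * S) = 2 * K + 2 * S := by linear_combination (2 * S) * hkK
    rw [this]
    linarith
  calc (Pi2 T 1).toReal * uT T ≤ (Pi2 T 1).toReal * (2 * K * (1 + k * S)) :=
        mul_le_mul_of_nonneg_left e1 hP
    _ = 2 * K * ((Pi2 T 1).toReal * (1 + k * S)) := by ring
    _ ≤ 2 * K * bT T ^ 2 := mul_le_mul_of_nonneg_left h (by positivity)

lemma const1 : 2 * (Real.sqrt 2 + 1) ^ 3 ≤ 29 := by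
  have h := sqrt2_hi
  have h0 := sqrt2_lo
  have : (Real.sqrt 2 + 1) ^ 3 ≤ (1.41422 + 1) ^ 3 := by gcongr
  norm_num at this ⊢
  linarith

lemma const2 : Real.sqrt 2 * (2 * (Real.sqrt 2 + 1) ^ 3) ≤ 40 := by
  have h := sqrt2_hi
  have h0 := sqrt2_lo
  have : Real.sqrt 2 * (Real.sqrt 2 + 1) ^ 3 ≤ 1.41422 * (1.41422 + 1) ^ 3 := by gcongr
  norm_num at this ⊢
  linarith

lemma const3 : (3 + 2 * Real.sqrt 2) * (Real.sqrt 2 * (2 * (Real.sqrt 2 + 1) ^ 3)) ≤ 232 := by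
  have h2 : Real.sqrt 2 ^ 2 = 2 := Real.sq_sqrt (by norm_num)
  have h3 : Real.sqrt 2 ^ 3 = 2 * Real.sqrt 2 := by rw [pow_succ, h2]
  have h4 : Real.sqrt 2 ^ 4 = 4 := by
    have : Real.sqrt 2 ^ 4 = (Real.sqrt 2 ^ 2) ^ 2 := by ring
    rw [this, h2]; norm_num
  have h5 : Real.sqrt 2 ^ 5 = 4 * Real.sqrt 2 := by rw [pow_succ, h4]
  have e : (3 + 2 * Real.sqrt 2) * (Real.sqrt 2 * (2 * (Real.sqrt 2 + 1) ^ 3)) =
      116 + 82 * Real.sqrt 2 := by
    ring_nf
    rw [h2, h3, h4, h5]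
    ring
  rw [e]
  linarith [sqrt2_hi]

theorem loss_real {T : ℕ} (hT : 1 ≤ T) :
    (bT T - bT (T + 1)) * uT (T + 1) ≤
      Real.sqrt 2 * (2 * (Real.sqrt 2 + 1) ^ 3) * bT (T + 1) ^ 2 := by
  have h1 := loss hT
  have h2 := pairs_real (T := T + 1) (by omega)
  have h3 := uT_pos (T := T + 1) (by omega)
  calc (bT T - bT (T + 1)) * uT (T + 1) ≤ Real.sqrt 2 * (Pi2 (T + 1) 1).toReal * uT (T + 1) :=
        mul_le_mul_of_nonneg_right h1 h3.le
    _ = Real.sqrt 2 * ((Pi2 (T + 1) 1).toReal * uT (T + 1)) := by ring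
    _ ≤ Real.sqrt 2 * (2 * (Real.sqrt 2 + 1) ^ 3 * bT (T + 1) ^ 2) :=
        mul_le_mul_of_nonneg_left h2 (Real.sqrt_nonneg 2)
    _ = _ := by ring

/-- division in the extended nonnegative reals -/
lemma ofReal_div_aux {a b c u : ℝ} (hu : 0 < u) (h : a * u ≤ c * b) : ENNReal.ofReal a ≤ ENNReal.ofReal (c * b) / ENNReal.ofReal u := by
  rw [← ENNReal.ofReal_div_of_pos hu]
  apply ENNReal.ofReal_le_ofReal
  rw [le_div_iff₀ hu]
  exact h

theorem N_pairs {T : ℕ} (hT : 1 ≤ T) : Pi2 T 1 ≤ 29 * BT T ^ 2 / UT T := by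
  have h := pairs_real hT
  have h1 : (Pi2 T 1).toReal * uT T ≤ 29 * bT T ^ 2 :=
    h.trans (mul_le_mul_of_nonneg_right const1 (by positivity))
  have h2 := ofReal_div_aux (uT_pos hT) h1
  rw [ENNReal.ofReal_toReal (Pi2_ne_top hT 1), ENNReal.ofReal_mul (by norm_num), ENNReal.ofReal_pow (bT_nonneg T),
    ofReal_bT hT, ofReal_uT] at h2
  have e : ENNReal.ofReal 29 = 29 := by
    rw [show (29 : ℝ) = ((29 : ℕ) : ℝ) by norm_num, ENNReal.ofReal_natCast]; norm_num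
  rwa [e] at h2

theorem N_loss {T : ℕ} (hT : 1 ≤ T) : BT T ≤ BT (T + 1) + 40 * BT (T + 1) ^ 2 / UT (T + 1) := by
  have h1 : (bT T - bT (T + 1)) * uT (T + 1) ≤ 40 * bT (T + 1) ^ 2 :=
    (loss_real hT).trans (mul_le_mul_of_nonneg_right const2 (by positivity))
  have h2 := ofReal_div_aux (uT_pos (T := T + 1) (by omega)) h1
  rw [ENNReal.ofReal_mul (by norm_num), ENNReal.ofReal_pow (bT_nonneg _), ofReal_bT (by omega), ofReal_uT] at h2
  have e : ENNReal.ofReal 40 = 40 := by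
    rw [show (40 : ℝ) = ((40 : ℕ) : ℝ) by norm_num, ENNReal.ofReal_natCast]; norm_num
  rw [e] at h2
  calc BT T = ENNReal.ofReal (bT (T + 1) + (bT T - bT (T + 1))) := by rw [← ofReal_bT hT]; congr 1; ring
    _ = ENNReal.ofReal (bT (T + 1)) + ENNReal.ofReal (bT T - bT (T + 1)) :=
        ENNReal.ofReal_add (bT_nonneg _) (by linarith [bT_antitone hT])
    _ ≤ _ := by
        rw [ofReal_bT (by omega)]
        exact add_le_add_right h2 _

theorem N_end {T : ℕ} (hT : 1 ≤ T) (w : Pt) :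
    gf (BrAt (strip oo up T) oo up w) ≤ 232 * BT T ^ 2 / UT T := by
  have h0 := anti_conc (v0 := oo) (d0 := up) (by decide) hT w
  refine h0.trans ?_
  have ha := bT_antitone hT
  have hb := bT_nonneg (T + 1)
  have h1 : ((3 + 2 * Real.sqrt 2) * (bT T - bT (T + 1))) * uT T ≤ 232 * bT T ^ 2 := by
    have s0 := Real.sqrt_nonneg 2
    calc ((3 + 2 * Real.sqrt 2) * (bT T - bT (T + 1))) * uT T ≤
        ((3 + 2 * Real.sqrt 2) * (bT T - bT (T + 1))) * uT (T + 1) := by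
          apply mul_le_mul_of_nonneg_left (uT_mono (by omega))
          apply mul_nonneg (by positivity) (by linarith)
      _ = (3 + 2 * Real.sqrt 2) * ((bT T - bT (T + 1)) * uT (T + 1)) := by ring
      _ ≤ (3 + 2 * Real.sqrt 2) * (Real.sqrt 2 * (2 * (Real.sqrt 2 + 1) ^ 3) * bT (T + 1) ^ 2) :=
          mul_le_mul_of_nonneg_left (loss_real hT) (by positivity)
      _ = (3 + 2 * Real.sqrt 2) * (Real.sqrt 2 * (2 * (Real.sqrt 2 + 1) ^ 3)) * bT (T + 1) ^ 2 := by ring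
      _ ≤ 232 * bT (T + 1) ^ 2 := mul_le_mul_of_nonneg_right const3 (by positivity)
      _ ≤ 232 * bT T ^ 2 := by gcongr
  have h2 := ofReal_div_aux (uT_pos hT) h1
  rw [ENNReal.ofReal_mul (p := 232) (by norm_num), ENNReal.ofReal_pow (bT_nonneg _), ofReal_bT hT, ofReal_uT] at h2
  have e : ENNReal.ofReal 232 = 232 := by
    rw [show (232 : ℝ) = ((232 : ℕ) : ℝ) by norm_num, ENNReal.ofReal_natCast]; norm_num
  rwa [e] at h2

theorem N_low {T : ℕ} : T * BT T ≤ UT T := by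
  rcases Nat.eq_zero_or_pos T with h | h
  · subst h; simp
  rw [← ofReal_bT h, ← ofReal_uT, ← ENNReal.ofReal_natCast, ← ENNReal.ofReal_mul (by positivity)]
  exact ENNReal.ofReal_le_ofReal mul_le_uT

lemma CW_eq : CW = Real.sqrt 2 * (2 * (Real.sqrt 2 + 1) ^ 3) := by
  unfold CW
  rw [div_eq_iff k3_pos.ne']
  linear_combination (-2 * Real.sqrt 2) * k3_eq

lemma CW_le : CW ≤ 40 := by rw [CW_eq]; exact const2

lemma CW_pos : 0 < CW := by
  rw [CW_eq]
  have := sqrt2_lo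
  positivity

theorem N_up {T : ℕ} (hT : 1 ≤ T) : UT T ≤ 42 * (T * BT T) := by
  have h := W47_final.1 T hT
  have h1 : uT T ≤ 42 * (T * bT T) := by
    refine h.trans ?_
    apply mul_le_mul_of_nonneg_right _ (mul_nonneg (by positivity) (bT_nonneg T))
    linarith [CW_le]
  rw [← ofReal_bT hT, ← ofReal_uT, ← ENNReal.ofReal_natCast, ← ENNReal.ofReal_mul (by positivity)]
  have e : ENNReal.ofReal 42 = 42 := by
    rw [show (42 : ℝ) = ((42 : ℕ) : ℝ) by norm_num, ENNReal.ofReal_natCast]; norm_num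
  rw [← e, ← ENNReal.ofReal_mul (by norm_num)]
  exact ENNReal.ofReal_le_ofReal h1

theorem N_pow {T : ℕ} (hT : 1 ≤ T) : ENNReal.ofReal ((T : ℝ) ^ (-(41 / 42) : ℝ) / 300) ≤ BT T := by
  rw [← ofReal_bT hT]
  apply ENNReal.ofReal_le_ofReal
  refine le_trans ?_ (W47_final.2.2 T hT)
  have hT' : (1 : ℝ) ≤ T := by exact_mod_cast hT
  have hC := CW_le
  have hC0 := CW_pos
  have h1 : xc ^ 2 ≤ bT 1 := bT_one
  rw [xc_sq] at h1
  have h2 : (1 : ℝ) / 3.41422 ≤ bT 1 := by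
    refine le_trans ?_ h1
    apply one_div_le_one_div_of_le (by positivity)
    linarith [sqrt2_hi]
  have h3 : (1 : ℝ) / 140 ≤ bT 1 / (1 + CW) := by
    rw [div_le_div_iff₀ (by norm_num) (by linarith)]
    have : (1 : ℝ) / 3.41422 * 140 ≤ bT 1 * 140 := by linarith
    have h5 : (41 : ℝ) ≤ 1 / 3.41422 * 140 := by norm_num
    linarith
  have h4 : (T : ℝ) ^ (-(41 / 42) : ℝ) / 2 ≤ ((T : ℝ) + 1) ^ (1 / (2 + CW) - 1) := by
    have e1 : ((T : ℝ) + 1) ^ (-(41 / 42) : ℝ) ≤ ((T : ℝ) + 1) ^ (1 / (2 + CW) - 1) := by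
      apply Real.rpow_le_rpow_of_exponent_le (by linarith)
      have : (1 : ℝ) / 42 ≤ 1 / (2 + CW) := one_div_le_one_div_of_le (by linarith) (by linarith)
      linarith
    refine le_trans ?_ e1
    have e2 : (2 * (T : ℝ)) ^ (-(41 / 42) : ℝ) ≤ ((T : ℝ) + 1) ^ (-(41 / 42) : ℝ) :=
      Real.rpow_le_rpow_of_nonpos (by linarith) (by linarith) (by norm_num)
    refine le_trans ?_ e2
    rw [Real.mul_rpow (by norm_num) (by linarith)]
    have e3 : (1 : ℝ) / 2 ≤ 2 ^ (-(41 / 42) : ℝ) := by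
      have : (2 : ℝ) ^ (-1 : ℝ) ≤ 2 ^ (-(41 / 42) : ℝ) :=
        Real.rpow_le_rpow_of_exponent_le (by norm_num) (by norm_num)
      rw [Real.rpow_neg_one] at this
      linarith
    have e4 : 0 ≤ (T : ℝ) ^ (-(41 / 42) : ℝ) := by positivity
    nlinarith
  calc (T : ℝ) ^ (-(41 / 42) : ℝ) / 300 ≤ (1 / 140) * ((T : ℝ) ^ (-(41 / 42) : ℝ) / 2) := by
        have : 0 ≤ (T : ℝ) ^ (-(41 / 42) : ℝ) := by positivity
        linarith
    _ ≤ bT 1 / (1 + CW) * ((T : ℝ) + 1) ^ (1 / (2 + CW) - 1) := by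
        apply mul_le_mul h3 h4 (by positivity)
        apply div_nonneg (bT_nonneg 1) (by linarith)

end HexObs
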