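import Pool.Agent.W47.Base
import Pool.Agent.HexObs.Planar2

/-!
The coordinates of the brick wall and the words.
-/

set_option autoImplicit false

namespace HexObs

namespace CC

/-- Nearest neighbours of the honeycomb lattice in brick wall coordinates: the sites are `ℤ × ℤ`,
`(x, y)` is joined to `(x + 1, y)`, and to `(x, y + 1)` if `x + y` is even. -/
def Edge (p q : ℤ × ℤ) : Prop :=
  q = (p.1 + 1, p.2) ∨ p = (q.1 + 1, q.2) ∨
    (q = (p.1, p.2 + 1) ∧ Even (p.1 + p.2)) ∨ (p = (q.1, q.2 + 1) ∧ Even (q.1 + q.2))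

/-- `L` lists the sites of a self-avoiding walk in the rows `1, ..., T` that starts at `(a, 1)` and
ends at a site `(b, T)` that is joined to `(b, T + 1)`. -/
def Crossing (T : ℕ) (a b : ℤ) (L : List (ℤ × ℤ)) : Prop :=
  L.IsChain Edge ∧ L.Nodup ∧ (∀ p ∈ L, 1 ≤ p.2 ∧ p.2 ≤ T) ∧ L.head? = some (a, 1) ∧
    L.getLast? = some (b, (T : ℤ)) ∧ Even (b + T)

/-- level of a point -/
def lv (p : Pt) : ℤ := p.1 + 2 * p.2

/-- brick wall coordinates -/
def ph (p : Pt) : ℤ × ℤ := (p.1, (p.1 + 2 * p.2 + 1) / 3)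

/-- inverse of the brick wall coordinates -/
def ps (q : ℤ × ℤ) : Pt :=
  (q.1, ((if (q.1 + q.2) % 2 = 0 then 3 * q.2 else 3 * q.2 - 1) - q.1) / 2)

lemma ps_ph {p : Pt} (h : lv p % 3 ≠ 1) : ps (ph p) = p := by
  obtain ⟨x, y⟩ := p
  unfold lv at h
  unfold ps ph
  simp only at h ⊢
  ext
  · rfl
  · show ((if (x + (x + 2 * y + 1) / 3) % 2 = 0 then 3 * ((x + 2 * y + 1) / 3) else
      3 * ((x + 2 * y + 1) / 3) - 1) - x) / 2 = y
    split_ifs with h1 <;> omega

lemma ph_ps (q : ℤ × ℤ) : ph (ps q) = q := by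
  obtain ⟨x, y⟩ := q
  unfold ps ph
  ext
  · rfl
  · show (x + 2 * (((if (x + y) % 2 = 0 then 3 * y else 3 * y - 1) - x) / 2) + 1) / 3 = y
    split_ifs with h1 <;> omega

lemma lv_ps_even {q : ℤ × ℤ} (h : (q.1 + q.2) % 2 = 0) : lv (ps q) = 3 * q.2 := by
  unfold lv ps
  rw [if_pos h]
  simp only
  omega

lemma lv_ps_odd {q : ℤ × ℤ} (h : (q.1 + q.2) % 2 ≠ 0) : lv (ps q) = 3 * q.2 - 1 := by
  unfold lv ps
  rw [if_neg h]
  simp only
  omega

lemma lv_ps_mod (q : ℤ × ℤ) : lv (ps q) % 3 ≠ 1 := by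
  by_cases h : (q.1 + q.2) % 2 = 0
  · rw [lv_ps_even h]
    omega
  · rw [lv_ps_odd h]
    omega

lemma ip_up (p : Pt) : ip (p - oo) up = lv p := by
  simp only [ip, oo, up, lv, Prod.fst_sub, Prod.snd_sub]
  ring

lemma mem_St {T : ℕ} {p : Pt} : p ∈ St T ↔ lv p % 3 ≠ 1 ∧ 0 < lv p ∧ lv p < 3 * T + 2 := by
  have h1 : p ∈ St T ↔ IsHex oo up p ∧ 0 < ip (p - oo) up ∧ ip (p - oo) up < 3 * T + 2 := Iff.rfl
  rw [h1, ip_up]
  have h2 : IsHex oo up p ↔ lv p % 3 ≠ 1 := by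
    unfold IsHex
    have e1 : cl oo = ((0 : ℤ) : ZMod 3) := by
      simp [cl, oo]
    have e2 : cl up = ((-1 : ℤ) : ZMod 3) := by
      simp [cl, up]
    have e3 : cl p = ((lv p : ℤ) : ZMod 3) := by
      unfold cl lv
      rw [ZMod.intCast_eq_intCast_iff]
      show (p.1 - p.2) % ((3 : ℕ) : ℤ) = (p.1 + 2 * p.2) % ((3 : ℕ) : ℤ)
      push_cast
      omega
    rw [e1, e2, e3, ← Int.cast_add, ZMod.intCast_eq_intCast_iff, ZMod.intCast_eq_intCast_iff]
    show (lv p % ((3 : ℕ) : ℤ) = 0 % ((3 : ℕ) : ℤ) ∨ lv p % ((3 : ℕ) : ℤ) = (0 + -1) % ((3 : ℕ) : ℤ)) ↔ _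
    push_cast
    omega
  rw [h2]

lemma ps_mem_St {T : ℕ} {q : ℤ × ℤ} : ps q ∈ St T ↔ 1 ≤ q.2 ∧ q.2 ≤ T := by
  rw [mem_St]
  have h0 := lv_ps_mod q
  by_cases h : (q.1 + q.2) % 2 = 0
  · have h1 := lv_ps_even h
    constructor
    · rintro ⟨_, h2, h3⟩
      omega
    · rintro ⟨h2, h3⟩
      exact ⟨h0, by omega, by omega⟩
  · have h1 := lv_ps_odd h
    constructor
    · rintro ⟨_, h2, h3⟩
      omega
    · rintro ⟨h2, h3⟩
      exact ⟨h0, by omega, by omega⟩

/-- steps between neighbours, from an even site -/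
lemma ps_step_even {p q : ℤ × ℤ} (h : Edge p q) (he : (p.1 + p.2) % 2 = 0) :
    (q.1 + q.2) % 2 ≠ 0 ∧ (ps q - ps p = up ∨ ps q - ps p = (-1, 0) ∨ ps q - ps p = (1, -1)) := by
  obtain ⟨x, y⟩ := p
  obtain ⟨x', y'⟩ := q
  simp only at he
  have hodd : (x' + y') % 2 ≠ 0 := by
    rcases h with h | h | ⟨h, h2⟩ | ⟨h, h2⟩
    all_goals
      simp only [Prod.mk.injEq] at h
      omega
  refine ⟨hodd, ?_⟩
  unfold ps up
  simp only
  rw [if_pos he, if_neg hodd]
  simp only [Prod.mk_sub_mk, Prod.mk.injEq]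
  rcases h with h | h | ⟨h, h2⟩ | ⟨h, h2⟩
  · simp only [Prod.mk.injEq] at h
    right; right
    omega
  · simp only [Prod.mk.injEq] at h
    right; left
    omega
  · simp only [Prod.mk.injEq] at h
    left
    omega
  · simp only [Prod.mk.injEq] at h
    simp only [Int.even_iff] at h2
    omega

/-- steps between neighbours, from an odd site -/
lemma ps_step_odd {p q : ℤ × ℤ} (h : Edge p q) (he : (p.1 + p.2) % 2 ≠ 0) :
    (q.1 + q.2) % 2 = 0 ∧ (ps q - ps p = (0, -1) ∨ ps q - ps p = (1, 0) ∨ ps q - ps p = (-1, 1)) := by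
  obtain ⟨x, y⟩ := p
  obtain ⟨x', y'⟩ := q
  simp only at he
  have hodd : (x' + y') % 2 = 0 := by
    rcases h with h | h | ⟨h, h2⟩ | ⟨h, h2⟩
    all_goals
      simp only [Prod.mk.injEq] at h
      omega
  refine ⟨hodd, ?_⟩
  unfold ps
  simp only
  rw [if_neg he, if_pos hodd]
  simp only [Prod.mk_sub_mk, Prod.mk.injEq]
  rcases h with h | h | ⟨h, h2⟩ | ⟨h, h2⟩
  · simp only [Prod.mk.injEq] at h
    right; left
    omega
  · simp only [Prod.mk.injEq] at h
    right; right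
    omega
  · simp only [Prod.mk.injEq] at h
    simp only [Int.even_iff] at h2
    omega
  · simp only [Prod.mk.injEq] at h
    left
    omega

/-- steps of the words in brick wall coordinates -/
lemma edge_even {p d : Pt} (hp : lv p % 3 = 0) (hd : d = up ∨ d = (-1, 0) ∨ d = (1, -1)) :
    Edge (ph p) (ph (p + d)) := by
  obtain ⟨x, y⟩ := p
  unfold lv at hp
  unfold ph Edge
  simp only at hp
  rcases hd with rfl | rfl | rfl
  · right; right; left
    simp only [up, Prod.mk_add_mk, Prod.mk.injEq, Int.even_iff]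
    omega
  · right; left
    ext
    · show x = x + -1 + 1
      ring
    · show (x + 2 * y + 1) / 3 = (x + -1 + 2 * (y + 0) + 1) / 3
      omega
  · left
    ext
    · rfl
    · show (x + 1 + 2 * (y + -1) + 1) / 3 = (x + 2 * y + 1) / 3
      omega

lemma edge_odd {p d : Pt} (hp : lv p % 3 = 2) (hd : d = (0, -1) ∨ d = (1, 0) ∨ d = (-1, 1)) :
    Edge (ph p) (ph (p + d)) := by
  obtain ⟨x, y⟩ := p
  unfold lv at hp
  unfold ph Edge
  simp only at hp
  rcases hd with rfl | rfl | rfl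
  · right; right; right
    simp only [Prod.mk_add_mk, Prod.mk.injEq, Int.even_iff]
    omega
  · left
    ext
    · rfl
    · show (x + 1 + 2 * (y + 0) + 1) / 3 = (x + 2 * y + 1) / 3
      omega
  · right; left
    ext
    · show x = x + -1 + 1
      ring
    · show (x + 2 * y + 1) / 3 = (x + -1 + 2 * (y + 1) + 1) / 3
      omega

end CC

end HexObs
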