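import Pool.Agent.W47.Bridge1

/-!
Words and lists of sites.
-/

set_option autoImplicit false

namespace HexObs

namespace CC

/-- the list of the sites visited by a word -/
def toL (v0 : Pt) (t : List Bool) : List (ℤ × ℤ) :=
  (List.range t.length).map (fun i => ph (vx v0 up t (i + 1)))

lemma toL_length (v0 : Pt) (t : List Bool) : (toL v0 t).length = t.length := by
  unfold toL
  rw [List.length_map, List.length_range]

lemma toL_getElem (v0 : Pt) (t : List Bool) (i : ℕ) (h : i < (toL v0 t).length) :
    (toL v0 t)[i] = ph (vx v0 up t (i + 1)) := by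
  unfold toL
  rw [List.getElem_map, List.getElem_range]

lemma mem_toL {v0 : Pt} {t : List Bool} {q : ℤ × ℤ} :
    q ∈ toL v0 t ↔ ∃ p, p ∈ vis v0 up t ∧ ph p = q := by
  unfold toL
  rw [List.mem_map]
  constructor
  · rintro ⟨i, hi, rfl⟩
    rw [List.mem_range] at hi
    exact ⟨_, ⟨i + 1, by omega, by omega, rfl⟩, rfl⟩
  · rintro ⟨p, ⟨i, h1, h2, rfl⟩, rfl⟩
    refine ⟨i - 1, ?_, ?_⟩
    · rw [List.mem_range]
      omega
    · have : i - 1 + 1 = i := by omega
      rw [this]

lemma up_dir : up ∈ dirs := by decide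

lemma lv_vx {v0 : Pt} (h0 : lv v0 = 0) (t : List Bool) (i : ℕ) :
    lv (vx v0 up t i) % 3 = if Even i then 0 else 2 := by
  have h1 := level_mod (v0 := v0) up_dir t i
  have h2 : ip (vx v0 up t i - v0) up = lv (vx v0 up t i) := by
    have h3 : ip (vx v0 up t i - v0) up = lv (vx v0 up t i) - lv v0 := by
      simp only [ip, up, lv, Prod.fst_sub, Prod.snd_sub]
      ring
    rw [h3, h0, sub_zero]
  rw [h2] at h1
  by_cases he : Even i
  · rw [if_pos he] at h1 ⊢
    omega
  · rw [if_neg he] at h1 ⊢
    omega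

lemma lv_vx_ne {v0 : Pt} (h0 : lv v0 = 0) (t : List Bool) (i : ℕ) : lv (vx v0 up t i) % 3 ≠ 1 := by
  rw [lv_vx h0]
  split_ifs <;> omega

lemma edge_vx {v0 : Pt} (h0 : lv v0 = 0) (t : List Bool) (i : ℕ) :
    Edge (ph (vx v0 up t i)) (ph (vx v0 up t (i + 1))) := by
  have h1 : vx v0 up t (i + 1) = vx v0 up t i + dx up t i := vx_succ _ _ _ _
  rw [h1]
  have h2 := lv_vx h0 t i
  by_cases he : Even i
  · rw [if_pos he] at h2
    apply edge_even h2
    rcases step_even up_dir t he with h | h | h
    · exact Or.inl h.1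
    · exact Or.inr (Or.inl h.1)
    · exact Or.inr (Or.inr h.1)
  · rw [if_neg he] at h2
    apply edge_odd h2
    rcases step_odd up_dir t he with h | h | h
    · exact Or.inl h.1
    · exact Or.inr (Or.inr h.1)
    · exact Or.inr (Or.inl h.1)

lemma ph_inj {p q : Pt} (hp : lv p % 3 ≠ 1) (hq : lv q % 3 ≠ 1) (h : ph p = ph q) : p = q := by
  rw [← ps_ph hp, ← ps_ph hq, h]

/-- the exit point above the site (b, T) -/
def top (T : ℕ) (b : ℤ) : Pt := ps (b, (T : ℤ) + 1)

theorem crossing_toL {T : ℕ} (hT : 1 ≤ T) {v0 : Pt} (h0 : lv v0 = 0) {t : List Bool}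
    (ht : t ∈ out (St T) v0 up up) :
    ∃ b, Crossing T v0.1 b (toL v0 t) ∧ tip v0 up t = top T b := by
  obtain ⟨⟨hmem, hinj⟩, htip, hdx⟩ := ht
  have hv1 : vx v0 up t 1 = v0 + up := rfl
  have hlv1 : lv (v0 + up) = 2 := by
    unfold lv up at *
    simp only [Prod.fst_add, Prod.snd_add]
    omega
  have hn : 1 ≤ t.length := by
    by_contra hcon
    have hn0 : t.length = 0 := by omega
    apply htip
    have h1 : tip v0 up t = v0 + up := by
      unfold tip
      rw [hn0]
      exact hv1
    rw [h1, mem_St, hlv1]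
    exact ⟨by norm_num, by norm_num, by omega⟩
  -- the last vertex
  have heven : Even t.length := by
    by_contra hodd
    rcases step_odd up_dir t hodd with h | h | h
    · have := h.1
      rw [hdx] at this
      revert this
      decide
    · have := h.1
      rw [hdx] at this
      revert this
      decide
    · have := h.1
      rw [hdx] at this
      revert this
      decide
  have hlast := hmem t.length hn le_rfl
  rw [mem_St] at hlast
  have hmod := lv_vx h0 t t.length
  rw [if_pos heven] at hmod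
  have htipv : tip v0 up t = vx v0 up t t.length + up := by
    unfold tip
    rw [vx_succ, hdx]
  have hlvt : lv (tip v0 up t) = lv (vx v0 up t t.length) + 2 := by
    rw [htipv]
    simp only [lv, up, Prod.fst_add, Prod.snd_add]
    ring
  have hlv : lv (vx v0 up t t.length) = 3 * T := by
    have h1 : ¬ (lv (tip v0 up t) % 3 ≠ 1 ∧ 0 < lv (tip v0 up t) ∧ lv (tip v0 up t) < 3 * T + 2) := by
      rw [← mem_St]
      exact htip
    rw [hlvt] at h1
    omega
  have hL := toL_length v0 t
  refine ⟨(vx v0 up t t.length).1, ⟨?_, ?_, ?_, ?_, ?_, ?_⟩, ?_⟩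
  · rw [List.isChain_iff_getElem]
    intro i hi
    rw [toL_getElem, toL_getElem]
    exact edge_vx h0 t (i + 1)
  · rw [List.nodup_iff_injective_getElem]
    intro i j hij
    simp only at hij
    rw [toL_getElem, toL_getElem] at hij
    have h1 := ph_inj (lv_vx_ne h0 t _) (lv_vx_ne h0 t _) hij
    have hi := i.2
    have hj := j.2
    rcases lt_trichotomy i.1 j.1 with h | h | h
    · exact absurd h1 (hinj _ _ (by omega) (by omega))
    · exact Fin.ext h
    · exact absurd h1.symm (hinj _ _ (by omega) (by omega))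
  · intro q hq
    rw [mem_toL] at hq
    obtain ⟨p, ⟨i, h1, h2, rfl⟩, rfl⟩ := hq
    have h3 := hmem i h1 h2
    rw [← ps_ph (lv_vx_ne h0 t i), ps_mem_St] at h3
    exact h3
  · rw [List.head?_eq_getElem?, List.getElem?_eq_getElem (by omega), toL_getElem]
    show some (ph (v0 + up)) = _
    congr 1
    unfold ph
    ext
    · show v0.1 + 0 = v0.1
      rw [add_zero]
    · show (v0.1 + 0 + 2 * (v0.2 + 1) + 1) / 3 = 1
      unfold lv at h0
      omega
  · rw [List.getLast?_eq_getElem?, hL, List.getElem?_eq_getElem (by omega), toL_getElem]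
    have h1 : t.length - 1 + 1 = t.length := by omega
    rw [h1]
    congr 1
    unfold ph
    ext
    · rfl
    · show ((vx v0 up t t.length).1 + 2 * (vx v0 up t t.length).2 + 1) / 3 = (T : ℤ)
      unfold lv at hlv
      omega
  · rw [Int.even_iff]
    unfold lv at hlv
    omega
  · have h1 : ph (tip v0 up t) = ((vx v0 up t t.length).1, (T : ℤ) + 1) := by
      rw [htipv]
      unfold ph
      ext
      · show (vx v0 up t t.length).1 + 0 = _
        rw [add_zero]
      · show ((vx v0 up t t.length).1 + 0 + 2 * ((vx v0 up t t.length).2 + 1) + 1) / 3 = (T : ℤ) + 1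
        unfold lv at hlv
        omega
    unfold top
    rw [← h1, ps_ph]
    rw [hlvt, hlv]
    omega

end CC

end HexObs
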