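import Pool.Agent.W47.Bridge2

/-!
From lists of sites to words.
-/

set_option autoImplicit false

namespace HexObs

namespace CC

lemma rot_ne : ∀ d ∈ dirs, rotL d ≠ rotR d := by decide

lemma turn_bool_inj {d : Pt} (hd : d ∈ dirs) {a b : Bool} (h : turn a d = turn b d) : a = b := by
  cases a <;> cases b
  · rfl
  · exact absurd h.symm (rot_ne d hd)
  · exact absurd h (rot_ne d hd)
  · rfl

theorem toL_inj {T : ℕ} {v0 : Pt} (h0 : lv v0 = 0) {t s : List Bool}
    (ht : t ∈ out (St T) v0 up up) (hs : s ∈ out (St T) v0 up up) (h : toL v0 t = toL v0 s) :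
    t = s := by
  have hl : t.length = s.length := by
    rw [← toL_length v0 t, ← toL_length v0 s, h]
  have hv : ∀ i, i ≤ t.length → vx v0 up t i = vx v0 up s i := by
    intro i hi
    rcases Nat.eq_zero_or_pos i with rfl | hpos
    · rfl
    · have h1 : (toL v0 t)[i - 1]'(by rw [toL_length]; omega) =
          (toL v0 s)[i - 1]'(by rw [toL_length]; omega) := by
        congr 1
      rw [toL_getElem, toL_getElem] at h1
      have e : i - 1 + 1 = i := by omega
      rw [e] at h1
      exact ph_inj (lv_vx_ne h0 t _) (lv_vx_ne h0 s _) h1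
  have hd : ∀ i, i ≤ t.length → dx up t i = dx up s i := by
    intro i hi
    rcases lt_or_eq_of_le hi with hlt | rfl
    · have h1 := hv (i + 1) (by omega)
      rw [vx_succ, vx_succ, hv i hi] at h1
      exact add_left_cancel h1
    · rw [ht.2.2]
      have := hs.2.2
      rw [← hl] at this
      exact this.symm
  apply tf_ext hl
  intro i hi
  have h1 := hd (i + 1) (by omega)
  rw [dx_succ, dx_succ, hd i (by omega)] at h1
  exact turn_bool_inj (dx_mem up_dir s i) h1

/-- the sites with the foot in front and the exit point behind -/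
def gg (T : ℕ) (a b : ℤ) (L : List (ℤ × ℤ)) (i : ℕ) : ℤ × ℤ := ((a, 0) :: L).getD i (b, (T : ℤ) + 1)

/-- the points -/
def qq (T : ℕ) (a b : ℤ) (L : List (ℤ × ℤ)) (i : ℕ) : Pt := ps (gg T a b L i)

/-- the word -/
def toW (T : ℕ) (a b : ℤ) (L : List (ℤ × ℤ)) : List Bool :=
  (List.range L.length).map (fun i =>
    decide (qq T a b L (i + 2) - qq T a b L (i + 1) = rotL (qq T a b L (i + 1) - qq T a b L i)))

section

variable {T : ℕ} {a b : ℤ} {L : List (ℤ × ℤ)}

lemma toW_length : (toW T a b L).length = L.length := by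
  unfold toW
  rw [List.length_map, List.length_range]

lemma tf_toW {i : ℕ} (h : i < L.length) : tf (toW T a b L) i =
    decide (qq T a b L (i + 2) - qq T a b L (i + 1) = rotL (qq T a b L (i + 1) - qq T a b L i)) := by
  unfold tf
  rw [List.getD_eq_getElem _ _ (by rw [toW_length]; exact h)]
  unfold toW
  rw [List.getElem_map, List.getElem_range]

lemma gg_zero : gg T a b L 0 = (a, 0) := rfl

lemma gg_succ {i : ℕ} (h : i < L.length) : gg T a b L (i + 1) = L[i] := by
  unfold gg
  rw [List.getD_cons_succ, List.getD_eq_getElem _ _ h]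

lemma gg_last {i : ℕ} (h : L.length < i) : gg T a b L i = (b, (T : ℤ) + 1) := by
  unfold gg
  rw [List.getD_eq_default]
  rw [List.length_cons]
  omega

lemma crossing_pos (hc : Crossing T a b L) : 1 ≤ L.length := by
  by_contra hcon
  have h1 : L = [] := List.length_eq_zero_iff.1 (by omega)
  have h2 := hc.2.2.2.1
  rw [h1] at h2
  simp at h2

lemma gg_first (hc : Crossing T a b L) : gg T a b L 1 = (a, 1) := by
  have hpos := crossing_pos hc
  have h2 := hc.2.2.2.1
  rw [List.head?_eq_getElem?, List.getElem?_eq_getElem (by omega)] at h2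
  rw [gg_succ (by omega : 0 < L.length)]
  exact Option.some.inj h2

lemma gg_len (hc : Crossing T a b L) : gg T a b L L.length = (b, (T : ℤ)) := by
  have hpos := crossing_pos hc
  have h2 := hc.2.2.2.2.1
  rw [List.getLast?_eq_getElem?, List.getElem?_eq_getElem (by omega)] at h2
  obtain ⟨n, hn⟩ : ∃ n, L.length = n + 1 := ⟨L.length - 1, by omega⟩
  have h3 : L[L.length - 1]'(by omega) = (b, (T : ℤ)) := Option.some.inj h2
  have h4 : gg T a b L (L.length - 1 + 1) = L[L.length - 1]'(by omega) := gg_succ (by omega)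
  have h5 : L.length - 1 + 1 = L.length := by omega
  rw [h5] at h4
  rw [h4, h3]

lemma gg_edge (ha : Even a) (hc : Crossing T a b L) (i : ℕ) (hi : i ≤ L.length) :
    Edge (gg T a b L i) (gg T a b L (i + 1)) := by
  have hpos := crossing_pos hc
  rcases Nat.eq_zero_or_pos i with rfl | h0
  · rw [gg_zero, gg_first hc]
    right; right; left
    refine ⟨rfl, ?_⟩
    simp only [add_zero]
    exact ha
  · rcases lt_or_eq_of_le hi with hlt | rfl
    · have h1 := hc.1
      rw [List.isChain_iff_getElem] at h1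
      have h2 := h1 (i - 1) (by omega)
      have h3 : gg T a b L (i - 1 + 1) = L[i - 1]'(by omega) := gg_succ (by omega)
      have h4 : gg T a b L (i - 1 + 1 + 1) = L[i - 1 + 1]'(by omega) := gg_succ (by omega)
      rw [← h3, ← h4] at h2
      have e : i - 1 + 1 = i := by omega
      rw [e] at h2
      exact h2
    · rw [gg_len hc, gg_last (Nat.lt_succ_self _)]
      right; right; left
      exact ⟨rfl, hc.2.2.2.2.2⟩

lemma gg_parity (ha : Even a) (hc : Crossing T a b L) (i : ℕ) (hi : i ≤ L.length + 1) :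
    (((gg T a b L i).1 + (gg T a b L i).2) % 2 = 0 ↔ Even i) := by
  induction i with
  | zero =>
    rw [gg_zero]
    rw [Int.even_iff] at ha
    simp only [add_zero]
    exact ⟨fun _ => Even.zero, fun _ => ha⟩
  | succ i ih =>
    have h1 := ih (by omega)
    have h2 := gg_edge ha hc i (by omega)
    by_cases he : Even i
    · have h3 := ps_step_even h2 (h1.2 he)
      constructor
      · intro h
        exact absurd h h3.1
      · intro h
        rw [Nat.even_add_one] at h
        exact absurd he h
    · have h3 := ps_step_odd h2 (fun h => he (h1.1 h))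
      constructor
      · intro _
        rw [Nat.even_add_one]
        exact he
      · intro _
        exact h3.1

lemma gg_row (hc : Crossing T a b L) (i : ℕ) (h1 : 1 ≤ i) (h2 : i ≤ L.length) :
    1 ≤ (gg T a b L i).2 ∧ (gg T a b L i).2 ≤ T := by
  obtain ⟨j, rfl⟩ : ∃ j, i = j + 1 := ⟨i - 1, by omega⟩
  rw [gg_succ (by omega)]
  exact hc.2.2.1 _ (List.getElem_mem _)

lemma gg_inj (hc : Crossing T a b L) (i k : ℕ) (h1 : i < k) (h2 : k ≤ L.length + 1) :
    gg T a b L i ≠ gg T a b L k := by
  intro heq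
  rcases Nat.eq_zero_or_pos i with rfl | h0
  · rw [gg_zero] at heq
    rcases lt_or_eq_of_le h2 with hlt | rfl
    · have h3 := gg_row hc k (by omega) (by omega)
      rw [← heq] at h3
      simp only at h3
      omega
    · rw [gg_last (Nat.lt_succ_self _)] at heq
      simp only [Prod.mk.injEq] at heq
      omega
  · rcases lt_or_eq_of_le h2 with hlt | rfl
    · obtain ⟨i', rfl⟩ : ∃ j, i = j + 1 := ⟨i - 1, by omega⟩
      obtain ⟨k', rfl⟩ : ∃ j, k = j + 1 := ⟨k - 1, by omega⟩
      rw [gg_succ (by omega), gg_succ (by omega)] at heq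
      have h3 := (List.Nodup.getElem_inj_iff hc.2.1).1 heq
      omega
    · have h3 := gg_row hc i (by omega) (by omega)
      rw [heq, gg_last (Nat.lt_succ_self _)] at h3
      simp only at h3
      omega

lemma ps_inj {p q : ℤ × ℤ} (h : ps p = ps q) : p = q := by
  rw [← ph_ps p, ← ph_ps q, h]

lemma qq_step_even (ha : Even a) (hc : Crossing T a b L) {i : ℕ} (hi : i ≤ L.length) (he : Even i) :
    qq T a b L (i + 1) - qq T a b L i = up ∨ qq T a b L (i + 1) - qq T a b L i = (-1, 0) ∨
      qq T a b L (i + 1) - qq T a b L i = (1, -1) :=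
  (ps_step_even (gg_edge ha hc i hi) ((gg_parity ha hc i (by omega)).2 he)).2

lemma qq_step_odd (ha : Even a) (hc : Crossing T a b L) {i : ℕ} (hi : i ≤ L.length) (he : ¬ Even i) :
    qq T a b L (i + 1) - qq T a b L i = (0, -1) ∨ qq T a b L (i + 1) - qq T a b L i = (1, 0) ∨
      qq T a b L (i + 1) - qq T a b L i = (-1, 1) :=
  (ps_step_odd (gg_edge ha hc i hi) (fun h => he ((gg_parity ha hc i (by omega)).1 h))).2

lemma qq_turn (ha : Even a) (hc : Crossing T a b L) {i : ℕ} (hi : i < L.length) :
    qq T a b L (i + 2) - qq T a b L (i + 1) =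
      turn (tf (toW T a b L) i) (qq T a b L (i + 1) - qq T a b L i) := by
  have hne : qq T a b L (i + 2) - qq T a b L (i + 1) ≠ -(qq T a b L (i + 1) - qq T a b L i) := by
    intro h
    have h1 : qq T a b L (i + 2) = qq T a b L i := by
      have : qq T a b L (i + 2) = -(qq T a b L (i + 1) - qq T a b L i) + qq T a b L (i + 1) := by
        rw [← h]
        abel
      rw [this]
      abel
    exact gg_inj hc i (i + 2) (by omega) (by omega) (ps_inj h1).symm
  rw [tf_toW hi]
  have key : ∀ d d' : Pt, ((d = up ∨ d = (-1, 0) ∨ d = (1, -1)) ∧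
      (d' = (0, -1) ∨ d' = (1, 0) ∨ d' = (-1, 1)) ∨
      (d = (0, -1) ∨ d = (1, 0) ∨ d = (-1, 1)) ∧ (d' = up ∨ d' = (-1, 0) ∨ d' = (1, -1))) →
      d' ≠ -d → d' = turn (decide (d' = rotL d)) d := by
    rintro d d' (⟨h1, h2⟩ | ⟨h1, h2⟩) <;> rcases h1 with rfl | rfl | rfl <;>
      rcases h2 with rfl | rfl | rfl <;> decide
  apply key _ _ _ hne
  by_cases he : Even i
  · left
    exact ⟨qq_step_even ha hc hi.le he,
      qq_step_odd ha hc (by omega) (by rw [Nat.even_add_one]; exact fun h => h he)⟩
  · right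
    exact ⟨qq_step_odd ha hc hi.le he, qq_step_even ha hc (by omega) (by rw [Nat.even_add_one]; exact he)⟩

lemma qq_zero (ha : Even a) {v0 : Pt} (h0 : lv v0 = 0) (hv : v0.1 = a) : qq T a b L 0 = v0 := by
  unfold qq
  rw [gg_zero]
  rw [Int.even_iff] at ha
  unfold ps
  rw [if_pos (by simpa using ha)]
  unfold lv at h0
  ext
  · exact hv.symm
  · show (3 * 0 - a) / 2 = v0.2
    omega

lemma qq_one (ha : Even a) {v0 : Pt} (h0 : lv v0 = 0) (hv : v0.1 = a) (hc : Crossing T a b L) :
    qq T a b L 1 = v0 + up := by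
  unfold qq
  rw [gg_first hc]
  rw [Int.even_iff] at ha
  unfold ps
  simp only
  rw [if_neg (by omega)]
  unfold lv at h0
  ext
  · show a = v0.1 + 0
    omega
  · show (3 * 1 - 1 - a) / 2 = v0.2 + 1
    omega

lemma dx_toW (ha : Even a) {v0 : Pt} (h0 : lv v0 = 0) (hv : v0.1 = a) (hc : Crossing T a b L) (i : ℕ)
    (hi : i ≤ L.length) : dx up (toW T a b L) i = qq T a b L (i + 1) - qq T a b L i := by
  induction i with
  | zero =>
    rw [qq_one ha h0 hv hc, qq_zero ha h0 hv, add_sub_cancel_left]
    rfl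
  | succ i ih =>
    rw [dx_succ, ih (by omega), ← qq_turn ha hc (by omega)]

lemma vx_toW (ha : Even a) {v0 : Pt} (h0 : lv v0 = 0) (hv : v0.1 = a) (hc : Crossing T a b L) (i : ℕ)
    (hi : i ≤ L.length + 1) : vx v0 up (toW T a b L) i = qq T a b L i := by
  induction i with
  | zero =>
    rw [qq_zero ha h0 hv]
    rfl
  | succ i ih =>
    rw [vx_succ, ih (by omega), dx_toW ha h0 hv hc i (by omega)]
    abel

theorem toW_spec (ha : Even a) {v0 : Pt} (h0 : lv v0 = 0) (hv : v0.1 = a) (hc : Crossing T a b L) :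
    toW T a b L ∈ out (St T) v0 up up ∧ toL v0 (toW T a b L) = L ∧ tip v0 up (toW T a b L) = top T b := by
  have hpos := crossing_pos hc
  have htip : tip v0 up (toW T a b L) = top T b := by
    unfold tip
    rw [toW_length, vx_toW ha h0 hv hc _ le_rfl]
    unfold qq top
    rw [gg_last (Nat.lt_succ_self _)]
  refine ⟨⟨⟨?_, ?_⟩, ?_, ?_⟩, ?_, htip⟩
  · intro i h1 h2
    rw [toW_length] at h2
    rw [vx_toW ha h0 hv hc i (by omega)]
    unfold qq
    rw [ps_mem_St]
    exact gg_row hc i h1 h2
  · intro i k h1 h2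
    rw [toW_length] at h2
    rw [vx_toW ha h0 hv hc i (by omega), vx_toW ha h0 hv hc k (by omega)]
    intro h
    exact gg_inj hc i k h1 (by omega) (ps_inj h)
  · rw [htip]
    unfold top
    rw [ps_mem_St]
    simp only
    omega
  · rw [toW_length, dx_toW ha h0 hv hc _ le_rfl]
    unfold qq
    rw [gg_last (Nat.lt_succ_self _), gg_len hc]
    have he := hc.2.2.2.2.2
    rw [Int.even_iff] at he
    unfold ps up
    simp only
    rw [if_neg (by omega), if_pos he]
    ext
    · show b - b = 0
      omega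
    · show (3 * ((T : ℤ) + 1) - 1 - b) / 2 - (3 * (T : ℤ) - b) / 2 = 1
      omega
  · apply List.ext_getElem
    · rw [toL_length, toW_length]
    · intro i h1 h2
      rw [toL_getElem, vx_toW ha h0 hv hc _ (by omega)]
      unfold qq
      rw [ph_ps, gg_succ h2]

end

end CC

end HexObs
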