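import Pool.Agent.HexObs.T3fin
import Pool.Agent.HexW.T3Lim

/-!
W47: T3 in the strip (finite version of helper83, limit of helper76).
-/

set_option autoImplicit false

namespace HexObs

theorem T3 {T : ℕ} (hT : 1 ≤ T) {d : ℕ} (hd : 1 ≤ d) :
    Real.sin (Real.pi / 8) * ((Pi2 T 1).toReal - (Pi3 T d).toReal) - (Ain T d).toReal +
        (Aout T d).toReal / Real.sqrt 2 ≤
    Real.sin (3 * Real.pi / 8) * ((Pi2 T (d + 1)).toReal - (Pi2 T d).toReal) :=
  HexW.T3_of_fin (fun _ _ _ _ h1 hg => T3_fin h1 hg) hT hd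

end HexObs
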